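import Pool.Agent.Lib.MP_6b0fe3_coP.PenC

/-! MP_6b0fe3_co, odd order: the three inequalities for neighbouring lines -/

namespace Pool.Agent.Lib.MP_6b0fe3_coP

open Matrix Pool.Agent.Lib.MP_6b0fe3_coR

section alg
variable {K : Type*} [Field K]

theorem conC_inA {w ψ v : Fin 3 → K} (h : ψ ⬝ᵥ w = 1) (hv : ψ ⬝ᵥ v = 0) (v0 : v ≠ 0) :
    InA v (w ⨯₃ v) w ψ := ⟨v0, h, hv, rfl⟩

theorem conC_inA' {w ψ v : Fin 3 → K} (h : ψ ⬝ᵥ w = 1) (hv : ψ ⬝ᵥ v = 0) (v0 : v ≠ 0) (α β : K) :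
    InA v (w ⨯₃ v) (w + α • v) (ψ + β • (w ⨯₃ v)) := by
  refine ⟨v0, ?_, ?_, ?_⟩
  · rw [dotProduct_add, add_dotProduct, add_dotProduct, h, dotProduct_smul, hv,
      smul_dotProduct, uniqL_cross_self_left, dotProduct_smul, smul_dotProduct,
      uniqL_cross_self_right]
    simp
  · rw [add_dotProduct, hv, smul_dotProduct, uniqL_cross_self_right]
    simp
  · rw [map_add, LinearMap.add_apply, map_smul, LinearMap.smul_apply, cross_self, smul_zero,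
      add_zero]

theorem conC_cross (x v : Fin 3 → K) (t : K) : (x + t • v) ⨯₃ v = x ⨯₃ v := by
  rw [map_add, LinearMap.add_apply, map_smul, LinearMap.smul_apply, cross_self, smul_zero,
    add_zero]

theorem Frame.a_ne {w ψ a a' : Fin 3 → K} {δ : K} (F : Frame w ψ a a' δ) : a ≠ 0 := by
  rintro rfl
  apply F.ne
  rw [← F.det]; simp

theorem Frame.a'_ne {w ψ a a' : Fin 3 → K} {δ : K} (F : Frame w ψ a a' δ) : a' ≠ 0 := by
  rintro rfl
  apply F.ne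
  rw [← F.det]; simp

theorem Frame.psi_ne {w ψ a a' : Fin 3 → K} {δ : K} (F : Frame w ψ a a' δ) : ψ ≠ 0 := by
  rintro rfl
  have := F.dw
  simp at this

end alg

section B
variable {K : Type*} [Field K] [Fintype K] {Pt Ln : Type*} {I : Pt → Ln → Prop}
variable (H : Hex I (Fintype.card K)) {S : Sub K I}
variable (hstd : ∀ M, BLine S M → ∃ w ψ, Std S M w ψ)
variable {ω υ : K} (hc : Cub ω υ)
include H hstd hc

/-- the path defining `PP` -/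
theorem conC_path {w ψ a a' : Fin 3 → K} {M : Ln} (F : Frame w ψ a a' (υ - ω)) (hM : BL S M w ψ) :
    ∃ R N : Ln, BL S R (w + ω • a') (ψ + υ • (w ⨯₃ a')) ∧ AA S a' M R ∧
      BL S N (w + υ • a) (ψ + ω • (w ⨯₃ a)) ∧ (∃ z, Bq S z R N) ∧
      AA S a N (PP S ω υ w ψ a a' M) ∧ BL S (PP S ω υ w ψ a a' M) w ψ := by
  obtain ⟨d1, d2, d3, d4, d5, d6⟩ := F.dots
  have hadd := hc.add
  have hmul := hc.mul
  have hsq := hc.sq
  have hsq' := hc.symm.sq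
  -- R
  have A1 := conC_inA F.dw F.da' F.a'_ne
  have A2 := conC_inA' F.dw F.da' F.a'_ne ω υ
  have hR := tr_mem H hstd hM A1 A2
  have hMR := tr_aa H hstd hM A1 A2
  set R := tr S a' (w + ω • a') (ψ + υ • (w ⨯₃ a')) M with hRdef
  -- N
  set z : Fin 3 → K := (ω - 1) • w + a - ω • a' with hz
  have hzψ : (ψ + υ • (w ⨯₃ a')) ⬝ᵥ z = 0 := by
    rw [hz]
    simp only [dotProduct_add, dotProduct_sub, dotProduct_smul, add_dotProduct, smul_dotProduct,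
      F.dw, F.da, F.da', d4, d5, d6, smul_eq_mul]
    linear_combination hmul - hsq'
  have hz0 : z ≠ 0 := by
    intro h0
    have e1 : ψ ⬝ᵥ z = 0 := by rw [h0, dotProduct_zero]
    rw [hz] at e1
    simp only [dotProduct_add, dotProduct_sub, dotProduct_smul, F.dw, F.da, F.da',
      smul_eq_mul] at e1
    apply hc.ne_one
    linear_combination e1
  have e2 : (w + ω • a') ⨯₃ z = (w ⨯₃ a) - υ • (w ⨯₃ a') - (ω * (υ - ω)) • ψ := by
    have hcr := F.cross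
    have hanti : a' ⨯₃ a = - ((υ - ω) • ψ) := by rw [← hcr, cross_anticomm]
    have hanti' : a' ⨯₃ w = - (w ⨯₃ a') := by rw [cross_anticomm]
    rw [hz]
    simp only [map_add, map_sub, map_smul, LinearMap.add_apply, LinearMap.smul_apply, cross_self,
      hanti, hanti', smul_zero, smul_neg, zero_add]
    have : υ = ω ^ 2 := hsq.symm
    subst this
    module
  have B1 := conC_inA hR.2.1 hzψ hz0
  have B2 := conC_inA' hR.2.1 hzψ hz0 1 1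
  have E1 : w + ω • a' + (1 : K) • z = ω • w + a := by
    rw [hz]; module
  have E2 : ψ + υ • (w ⨯₃ a') + (1 : K) • ((w + ω • a') ⨯₃ z) = υ • ψ + w ⨯₃ a := by
    rw [e2]
    have h1 : υ = 1 - ω * (υ - ω) := by linear_combination hmul - hsq
    have h2 : υ • ψ = (1 - ω * (υ - ω)) • ψ := by rw [← h1]
    rw [h2]; module
  have hN := tr_mem H hstd hR B1 B2
  have hRN := tr_aa H hstd hR B1 B2
  have hBq := bq_of H hR hN hz0 hzψ hRN
  rw [E1, E2] at hN hRN hBq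
  set N := tr S z (ω • w + a) (υ • ψ + w ⨯₃ a) R with hNdef
  have hN' : BL S N (w + υ • a) (ψ + ω • (w ⨯₃ a)) := by
    have h := BL.zeta hN hc.symm.cube
    have e1 : υ • (ω • w + a) = w + υ • a := by
      rw [smul_add, smul_smul, mul_comm, hmul, one_smul]
    have e2 : υ ^ 2 • (υ • ψ + w ⨯₃ a) = ψ + ω • (w ⨯₃ a) := by
      rw [smul_add, smul_smul, hsq', hmul, one_smul]
    rwa [e1, e2] at h
  have C1 := conC_inA F.dw F.da F.a_ne
  have C2 := conC_inA' F.dw F.da F.a_ne υ ω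
  have hQ := tr_mem H hstd hN' C2 C1
  have hNQ := tr_aa H hstd hN' C2 C1
  exact ⟨R, N, hR, hMR, hN', ⟨z, hBq⟩, hNQ, hQ⟩

omit hstd hc in
/-- the common contradiction: a point near the points of `M` over `b` and over `b + a` -/
theorem conC_key {x ψ a : Fin 3 → K} {M N₁ N₂ : Ln} {c : K} (hM : BL S M x ψ) (ha0 : a ≠ 0)
    (ha : ψ ⬝ᵥ a = 0) (hcc : c ≠ 0) {b₁ b₂ w₁ ψ₁ : Fin 3 → K} (hb₁ : ψ ⬝ᵥ b₁ = 0)
    (hb₂ : ψ ⬝ᵥ b₂ = 0) (hb₁0 : b₁ ≠ 0) (hb₂0 : b₂ ≠ 0) (hbb : b₁ ⨯₃ b₂ ≠ 0)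
    (hN₁ : BL S N₁ w₁ ψ₁) (hlab : w₁ ⨯₃ a = x ⨯₃ a + c • ψ) (h12 : Bq S a N₁ N₂)
    (hA : AA S b₁ M N₁) {R z : _} (hB : Bq S b₂ M R) (hB' : Bq S z R N₂) : False := by
  obtain ⟨k, p, ho, hp1, hp2⟩ := h12
  obtain ⟨y₁, hy₁, hyo₁, -⟩ := hM.2.2 b₁ hb₁0 hb₁
  obtain ⟨y₂, hy₂, hyo₂, -⟩ := hM.2.2 b₂ hb₂0 hb₂
  have hout := out_of_bline H S hN₁.1 hp1
  have hover := (CountM.rep_of_std H S hN₁.1 hN₁.2 hp1 ho).2.2.1
  rw [hlab] at hover
  have n1 := near_aa H hM.1 hy₁ hyo₁ hA hp1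
  have n2 := near_bb H hM.1 hy₂ hyo₂ hB hB' hp2
  have e := no_two H hM ha0 ha hcc hout hover hy₁ hy₂ n1 n2
  exact ne_of_over H (out_of_bline H S hM.1 hy₁) hyo₁ hyo₂ hbb e

omit hstd hc in
/-- the common contradiction, second form -/
theorem conC_key2 {x ψ a : Fin 3 → K} {M N₁ N₂ : Ln} {c : K} (hM : BL S M x ψ) (ha0 : a ≠ 0)
    (ha : ψ ⬝ᵥ a = 0) (hcc : c ≠ 0) {b₁ b₂ w₁ ψ₁ : Fin 3 → K} (hb₁ : ψ ⬝ᵥ b₁ = 0)
    (hb₂ : ψ ⬝ᵥ b₂ = 0) (hb₁0 : b₁ ≠ 0) (hb₂0 : b₂ ≠ 0) (hbb : b₁ ⨯₃ b₂ ≠ 0)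
    (hN₁ : BL S N₁ w₁ ψ₁) (hlab : w₁ ⨯₃ a = x ⨯₃ a + c • ψ) (h12 : Bq S a N₁ N₂)
    {R z R' z' : _} (hA : Bq S b₁ M R') (hA' : Bq S z' R' N₁) (hB : Bq S b₂ M R)
    (hB' : Bq S z R N₂) : False := by
  obtain ⟨k, p, ho, hp1, hp2⟩ := h12
  obtain ⟨y₁, hy₁, hyo₁, -⟩ := hM.2.2 b₁ hb₁0 hb₁
  obtain ⟨y₂, hy₂, hyo₂, -⟩ := hM.2.2 b₂ hb₂0 hb₂
  have hout := out_of_bline H S hN₁.1 hp1
  have hover := (CountM.rep_of_std H S hN₁.1 hN₁.2 hp1 ho).2.2.1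
  rw [hlab] at hover
  have n1 := near_bb H hM.1 hy₁ hyo₁ hA hA' hp1
  have n2 := near_bb H hM.1 hy₂ hyo₂ hB hB' hp2
  have e := no_two H hM ha0 ha hcc hout hover hy₁ hy₂ n1 n2
  exact ne_of_over H (out_of_bline H S hM.1 hy₁) hyo₁ hyo₂ hbb e

/-- `y = x + δ b`, `z = x + δ (b + a)` -/
theorem con1 {x ψ a b : Fin 3 → K} {M : Ln} (F : Frame x ψ a b (υ - ω)) (hM : BL S M x ψ)
    {y z : Fin 3 → K}
    (hy : y = x + (υ - ω) • b) (hz : z = x + (υ - ω) • (b + a)) :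
    tr S a z ψ (PP S ω υ y ψ a b (tr S b y ψ M)) ≠ tr S (b + a) z ψ M := by
  intro heq
  have hba : b ⨯₃ a = - ((υ - ω) • ψ) := by rw [← F.cross, cross_anticomm]
  have ha0 := F.a_ne
  have hb0 := F.a'_ne
  have hψ0 := F.psi_ne
  have hba0 : b ⨯₃ a ≠ 0 := by
    rw [hba]; exact neg_ne_zero.2 (smul_ne_zero F.ne hψ0)
  have hcr1 : y ⨯₃ b = x ⨯₃ b := by
    rw [hy]; simp
  have hzy : z = y + (υ - ω) • a := by rw [hy, hz]; module
  have hcr2 : z ⨯₃ a = y ⨯₃ a := by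
    rw [hzy]; simp
  have hcr3 : z ⨯₃ (b + a) = x ⨯₃ (b + a) := by rw [hz, conC_cross]
  have hya : y ⨯₃ a = x ⨯₃ a + (-(υ - ω) ^ 2) • ψ := by
    rw [hy, map_add, LinearMap.add_apply, map_smul, LinearMap.smul_apply, hba]
    module
  have hy1 : ψ ⬝ᵥ y = 1 := by
    rw [hy, dotProduct_add, dotProduct_smul, F.dw, F.da', smul_zero, add_zero]
  have hz1 : ψ ⬝ᵥ z = 1 := by
    rw [hzy, dotProduct_add, dotProduct_smul, hy1, F.da, smul_zero, add_zero]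
  have hb1 : ψ ⬝ᵥ (b + a) = 0 := by rw [dotProduct_add, F.da, F.da', add_zero]
  have hb1' : b + a ≠ 0 := by
    intro h0
    apply hba0
    rw [eq_neg_of_add_eq_zero_left h0]; simp
  have Fy : Frame y ψ a b (υ - ω) := by
    refine ⟨hy1, F.da, F.da', ?_, F.ne⟩
    rw [hy, add_dotProduct, smul_dotProduct, F.det]
    simp
  -- lines
  have A0 : InA b (x ⨯₃ b) x ψ := conC_inA F.dw F.da' hb0
  have A0' : InA b (x ⨯₃ b) y ψ := ⟨hb0, hy1, F.da', hcr1⟩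
  have hM0 := tr_mem H hstd hM A0 A0'
  have hMM0 := tr_aa H hstd hM A0 A0'
  set M0 := tr S b y ψ M with hM0def
  have A1 : InA (b + a) (x ⨯₃ (b + a)) x ψ := conC_inA F.dw hb1 hb1'
  have A1' : InA (b + a) (x ⨯₃ (b + a)) z ψ := ⟨hb1', hz1, hb1, hcr3⟩
  have hM1 := tr_mem H hstd hM A1 A1'
  have hMM1 := tr_aa H hstd hM A1 A1'
  set M1 := tr S (b + a) z ψ M with hM1def
  obtain ⟨R, N, hR, hM0R, hN, ⟨zz, hRN⟩, hNQ, hQ⟩ := conC_path H hstd hc Fy hM0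
  set Q := PP S ω υ y ψ a b M0 with hQdef
  have A2 : InA a (y ⨯₃ a) y ψ := conC_inA hy1 F.da ha0
  have A2' : InA a (y ⨯₃ a) z ψ := ⟨ha0, hz1, F.da, hcr2⟩
  have hQM1 := tr_aa H hstd hQ A2 A2'
  rw [heq] at hQM1
  have hNM1 : AA S a N M1 := AA.trans H hN.1 hQ.1 hM1.1 hNQ hQM1
  have hψN : (ψ + ω • (y ⨯₃ a)) ⬝ᵥ a = 0 := by
    rw [add_dotProduct, F.da, smul_dotProduct, uniqL_cross_self_right, smul_zero, add_zero]
  have hM1' : BL S M1 (y + υ • a + (-ω) • a)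
      (ψ + ω • (y ⨯₃ a) + (-ω) • ((y + υ • a) ⨯₃ a)) := by
    have e1 : y + υ • a + (-ω) • a = z := by rw [hzy]; module
    have e2 : ψ + ω • (y ⨯₃ a) + (-ω) • ((y + υ • a) ⨯₃ a) = ψ := by
      rw [map_add, LinearMap.add_apply, map_smul, LinearMap.smul_apply, cross_self, smul_zero,
        add_zero]
      module
    rw [e1, e2]; exact hM1
  obtain ⟨k, p, ho, hp1, hp2⟩ := bq_of H hN hM1' ha0 hψN hNM1
  -- the line R
  have hMR : AA S b M R := AA.trans H hM.1 hM0.1 hR.1 hMM0 hM0R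
  have hR' : BL S R (x + υ • b) (ψ + υ • (x ⨯₃ b)) := by
    have e1 : y + ω • b = x + υ • b := by rw [hy]; module
    rw [e1, hcr1] at hR; exact hR
  have hBR := bq_of H hM hR' hb0 F.da' hMR
  exact conC_key H hM ha0 F.da (neg_ne_zero.2 (pow_ne_zero 2 F.ne)) hb1 F.da' hb1' hb0
    (by rw [map_add, LinearMap.add_apply, cross_self, zero_add]; exact fun h => hba0 (cross_zero_symm h)) hM1
    (by rw [hcr2, hya]) ⟨k, p, ho, hp2, hp1⟩ hMM1 hBR hRN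

variable (h3 : Three S)
include h3

theorem con2 {x ψ a b : Fin 3 → K} {M : Ln} (F : Frame x ψ a b (υ - ω)) (hM : BL S M x ψ)
    {y z : Fin 3 → K}
    (hy : y = x + (υ - ω) • b) (hz : z = x + (υ - ω) • (b + a)) :
    tr S (b + a) z ψ M ≠ PP S ω υ z ψ a (b + a) (tr S a z ψ (tr S b y ψ M)) := by
  intro heq
  have hba : b ⨯₃ a = - ((υ - ω) • ψ) := by rw [← F.cross, cross_anticomm]
  have ha0 := F.a_ne
  have hb0 := F.a'_ne
  have hψ0 := F.psi_ne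
  have hba0 : b ⨯₃ a ≠ 0 := by
    rw [hba]; exact neg_ne_zero.2 (smul_ne_zero F.ne hψ0)
  have hcr1 : y ⨯₃ b = x ⨯₃ b := by rw [hy, conC_cross]
  have hzy : z = y + (υ - ω) • a := by rw [hy, hz]; module
  have hcr2 : z ⨯₃ a = y ⨯₃ a := by rw [hzy, conC_cross]
  have hcr3 : z ⨯₃ (b + a) = x ⨯₃ (b + a) := by rw [hz, conC_cross]
  have hya : y ⨯₃ a = x ⨯₃ a + (-(υ - ω) ^ 2) • ψ := by
    rw [hy, map_add, LinearMap.add_apply, map_smul, LinearMap.smul_apply, hba]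
    module
  have hy1 : ψ ⬝ᵥ y = 1 := by
    rw [hy, dotProduct_add, dotProduct_smul, F.dw, F.da', smul_zero, add_zero]
  have hz1 : ψ ⬝ᵥ z = 1 := by
    rw [hzy, dotProduct_add, dotProduct_smul, hy1, F.da, smul_zero, add_zero]
  have hb1 : ψ ⬝ᵥ (b + a) = 0 := by rw [dotProduct_add, F.da, F.da', add_zero]
  have hb1' : b + a ≠ 0 := by
    intro h0
    apply hba0
    rw [eq_neg_of_add_eq_zero_left h0]; simp
  have hdet : z ⬝ᵥ (a ⨯₃ (b + a)) = υ - ω := by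
    rw [map_add, cross_self, add_zero, hz, add_dotProduct, smul_dotProduct, F.det, add_dotProduct]
    simp
  have Fz : Frame z ψ a (b + a) (υ - ω) := ⟨hz1, F.da, hb1, hdet, F.ne⟩
  have Fz' : Frame z ψ (b + a) a (ω - υ) := by
    refine ⟨hz1, hb1, F.da, ?_, hc.symm.sub_ne⟩
    rw [← cross_anticomm, dotProduct_neg, hdet, neg_sub]
  have Fz'' : Frame z ψ a (-(b + a)) (ω - υ) := by
    refine ⟨hz1, F.da, ?_, ?_, hc.symm.sub_ne⟩
    · rw [dotProduct_neg, hb1, neg_zero]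
    · rw [map_neg, dotProduct_neg, hdet, neg_sub]
  -- lines
  have A0 : InA b (x ⨯₃ b) x ψ := conC_inA F.dw F.da' hb0
  have A0' : InA b (x ⨯₃ b) y ψ := ⟨hb0, hy1, F.da', hcr1⟩
  have hM0 := tr_mem H hstd hM A0 A0'
  have hMM0 := tr_aa H hstd hM A0 A0'
  set M0 := tr S b y ψ M with hM0def
  have A1 : InA (b + a) (x ⨯₃ (b + a)) x ψ := conC_inA F.dw hb1 hb1'
  have A1' : InA (b + a) (x ⨯₃ (b + a)) z ψ := ⟨hb1', hz1, hb1, hcr3⟩
  have hM1 := tr_mem H hstd hM A1 A1'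
  have hMM1 := tr_aa H hstd hM A1 A1'
  set M1 := tr S (b + a) z ψ M with hM1def
  have A2 : InA a (y ⨯₃ a) y ψ := conC_inA hy1 F.da ha0
  have A2' : InA a (y ⨯₃ a) z ψ := ⟨ha0, hz1, F.da, hcr2⟩
  have hX := tr_mem H hstd hM0 A2 A2'
  have hM0X := tr_aa H hstd hM0 A2 A2'
  set X := tr S a z ψ M0 with hXdef
  -- the inverse path
  have hinv : PP S υ ω z ψ a (-(b + a)) M1 = X := by
    have h1 := PP_rev H hstd hc Fz hX
    rw [← heq] at h1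
    have h2 := PP_W H hstd hc.symm h3 Fz'' hM1
    rw [neg_neg] at h2
    rw [← h2, h1]
  obtain ⟨R, N, hR, hM1R, hN, ⟨zz, hRN⟩, hNX, -⟩ := conC_path H hstd hc.symm Fz'' hM1
  rw [hinv] at hNX
  have hNM0 : AA S a N M0 := AA.trans H hN.1 hX.1 hM0.1 hNX (AA.symm hM0X)
  have hψN : (ψ + υ • (z ⨯₃ a)) ⬝ᵥ a = 0 := by
    rw [add_dotProduct, F.da, smul_dotProduct, uniqL_cross_self_right, smul_zero, add_zero]
  have hM0' : BL S M0 (z + ω • a + (-υ) • a)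
      (ψ + υ • (z ⨯₃ a) + (-υ) • ((z + ω • a) ⨯₃ a)) := by
    have e1 : z + ω • a + (-υ) • a = y := by rw [hzy]; module
    have e2 : ψ + υ • (z ⨯₃ a) + (-υ) • ((z + ω • a) ⨯₃ a) = ψ := by
      rw [conC_cross]
      module
    rw [e1, e2]; exact hM0
  obtain ⟨k, p, ho, hp1, hp2⟩ := bq_of H hN hM0' ha0 hψN hNM0
  -- the line R
  have hM1R' : AA S (b + a) M1 R := by
    have h := AA.smul hM1R (c := (-1 : K)) (neg_ne_zero.2 one_ne_zero)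
    rwa [neg_one_smul, neg_neg] at h
  have hMR : AA S (b + a) M R := AA.trans H hM.1 hM1.1 hR.1 hMM1 hM1R'
  have hR' : BL S R (x + (-ω) • (b + a)) (ψ + (-ω) • (x ⨯₃ (b + a))) := by
    have e1 : z + υ • -(b + a) = x + (-ω) • (b + a) := by rw [hz]; module
    have e2 : ψ + ω • (z ⨯₃ (-(b + a))) = ψ + (-ω) • (x ⨯₃ (b + a)) := by
      rw [map_neg, hcr3, smul_neg, neg_smul]
    rw [e1, e2] at hR; exact hR
  have hBR := bq_of H hM hR' hb1' hb1 hMR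
  exact conC_key H hM ha0 F.da (neg_ne_zero.2 (pow_ne_zero 2 F.ne)) F.da' hb1 hb0 hb1'
    (by rw [map_add, cross_self, zero_add]; exact hba0) hM0 hya ⟨k, p, ho, hp2, hp1⟩ hMM0 hBR hRN

/-- `y = x + δ b`, `v = x + δ (b + 2 a)` -/
theorem con3 {x ψ a b : Fin 3 → K} {M : Ln} (F : Frame x ψ a b (υ - ω)) (hM : BL S M x ψ)
    {y v : Fin 3 → K}
    (hy : y = x + (υ - ω) • b) (hv : v = x + (υ - ω) • (b + a + a)) :
    tr S (b + a + a) v ψ M ≠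
      PP S ω υ v ψ a (b + a + a) (tr S a v ψ (PP S ω υ y ψ a b (tr S b y ψ M))) := by
  by_cases h2 : (2 : K) = 0
  · have haa : b + a + a = b := by
      rw [add_assoc, ← two_smul K a, h2, zero_smul, add_zero]
    rw [haa] at hv ⊢
    rw [← hy] at hv
    subst hv
    have hy1 : ψ ⬝ᵥ v = 1 := by
      rw [hy, dotProduct_add, dotProduct_smul, F.dw, F.da', smul_zero, add_zero]
    have hcr1 : v ⨯₃ b = x ⨯₃ b := by rw [hy, conC_cross]
    have Fv : Frame v ψ a b (υ - ω) := by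
      refine ⟨hy1, F.da, F.da', ?_, F.ne⟩
      rw [hy, add_dotProduct, smul_dotProduct, F.det]
      simp
    have hM0 := tr_mem H hstd hM (conC_inA F.dw F.da' F.a'_ne) ⟨F.a'_ne, hy1, F.da', hcr1⟩
    have hQ := PP_mem H hstd hc Fv hM0
    rw [tr_self H hstd hQ (conC_inA hy1 F.da F.a_ne)]
    exact (PP_cyc H hstd hc h3 Fv hM0).1.symm
  intro heq
  set d : Fin 3 → K := b + a + a with hd
  have hba : b ⨯₃ a = - ((υ - ω) • ψ) := by rw [← F.cross, cross_anticomm]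
  have ha0 := F.a_ne
  have hb0 := F.a'_ne
  have hψ0 := F.psi_ne
  have hba0 : b ⨯₃ a ≠ 0 := by
    rw [hba]; exact neg_ne_zero.2 (smul_ne_zero F.ne hψ0)
  have hcr1 : y ⨯₃ b = x ⨯₃ b := by rw [hy, conC_cross]
  have hvy : v = y + (2 * (υ - ω)) • a := by rw [hy, hv, hd]; module
  have hcr2 : v ⨯₃ a = y ⨯₃ a := by rw [hvy, conC_cross]
  have hcr3 : v ⨯₃ d = x ⨯₃ d := by rw [hv, conC_cross]
  have hya : y ⨯₃ a = x ⨯₃ a + (-(υ - ω) ^ 2) • ψ := by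
    rw [hy, map_add, LinearMap.add_apply, map_smul, LinearMap.smul_apply, hba]
    module
  have hy1 : ψ ⬝ᵥ y = 1 := by
    rw [hy, dotProduct_add, dotProduct_smul, F.dw, F.da', smul_zero, add_zero]
  have hv1 : ψ ⬝ᵥ v = 1 := by
    rw [hvy, dotProduct_add, dotProduct_smul, hy1, F.da, smul_zero, add_zero]
  have hd1 : ψ ⬝ᵥ d = 0 := by rw [hd, dotProduct_add, dotProduct_add, F.da, F.da', add_zero, add_zero]
  have hda : d ⨯₃ a = b ⨯₃ a := by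
    rw [hd, map_add, map_add, LinearMap.add_apply, LinearMap.add_apply, cross_self, add_zero,
      add_zero]
  have hd0 : d ≠ 0 := by
    intro h0
    apply hba0
    rw [← hda, h0]; simp
  have hbd : b ⨯₃ d ≠ 0 := by
    intro h0
    have e : b ⨯₃ d = (2 : K) • (b ⨯₃ a) := by
      rw [hd, map_add, map_add, cross_self, zero_add, two_smul]
    rw [e] at h0
    exact (smul_ne_zero h2 hba0) h0
  have Fy : Frame y ψ a b (υ - ω) := by
    refine ⟨hy1, F.da, F.da', ?_, F.ne⟩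
    rw [hy, add_dotProduct, smul_dotProduct, F.det]
    simp
  have hdet : v ⬝ᵥ (a ⨯₃ d) = υ - ω := by
    have e1 : a ⨯₃ d = a ⨯₃ b := by
      rw [← cross_anticomm, hda, cross_anticomm]
    rw [e1, hvy, add_dotProduct, smul_dotProduct, Fy.det]
    simp
  have Fv : Frame v ψ a d (υ - ω) := ⟨hv1, F.da, hd1, hdet, F.ne⟩
  have Fv'' : Frame v ψ a (-d) (ω - υ) := by
    refine ⟨hv1, F.da, ?_, ?_, hc.symm.sub_ne⟩
    · rw [dotProduct_neg, hd1, neg_zero]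
    · rw [map_neg, dotProduct_neg, hdet, neg_sub]
  -- lines
  have A0 : InA b (x ⨯₃ b) x ψ := conC_inA F.dw F.da' hb0
  have A0' : InA b (x ⨯₃ b) y ψ := ⟨hb0, hy1, F.da', hcr1⟩
  have hM0 := tr_mem H hstd hM A0 A0'
  have hMM0 := tr_aa H hstd hM A0 A0'
  set M0 := tr S b y ψ M with hM0def
  have A1 : InA d (x ⨯₃ d) x ψ := conC_inA F.dw hd1 hd0
  have A1' : InA d (x ⨯₃ d) v ψ := ⟨hd0, hv1, hd1, hcr3⟩
  have hM2 := tr_mem H hstd hM A1 A1'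
  have hMM2 := tr_aa H hstd hM A1 A1'
  set M2 := tr S d v ψ M with hM2def
  obtain ⟨R, N, hR, hM0R, hN, ⟨zz, hRN⟩, hNQ, hQ⟩ := conC_path H hstd hc Fy hM0
  set Q := PP S ω υ y ψ a b M0 with hQdef
  have A2 : InA a (y ⨯₃ a) y ψ := conC_inA hy1 F.da ha0
  have A2' : InA a (y ⨯₃ a) v ψ := ⟨ha0, hv1, F.da, hcr2⟩
  have hX := tr_mem H hstd hQ A2 A2'
  have hQX := tr_aa H hstd hQ A2 A2'
  set X := tr S a v ψ Q with hXdef
  have hinv : PP S υ ω v ψ a (-d) M2 = X := by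
    have h1 := PP_rev H hstd hc Fv hX
    rw [← heq] at h1
    have h2 := PP_W H hstd hc.symm h3 Fv'' hM2
    rw [neg_neg] at h2
    rw [← h2, h1]
  obtain ⟨R', N', hR', hM2R', hN', ⟨zz', hRN'⟩, hNX', -⟩ := conC_path H hstd hc.symm Fv'' hM2
  rw [hinv] at hNX'
  have hNN' : AA S a N N' :=
    AA.trans H hN.1 hX.1 hN'.1 (AA.trans H hN.1 hQ.1 hX.1 hNQ hQX) (AA.symm hNX')
  have hψN : (ψ + ω • (y ⨯₃ a)) ⬝ᵥ a = 0 := by
    rw [add_dotProduct, F.da, smul_dotProduct, uniqL_cross_self_right, smul_zero, add_zero]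
  have hN'' : BL S N' (y + υ • a + (υ - ω) • a)
      (ψ + ω • (y ⨯₃ a) + (υ - ω) • ((y + υ • a) ⨯₃ a)) := by
    have e1 : y + υ • a + (υ - ω) • a = v + ω • a := by rw [hvy]; module
    have e2 : ψ + ω • (y ⨯₃ a) + (υ - ω) • ((y + υ • a) ⨯₃ a) = ψ + υ • (v ⨯₃ a) := by
      rw [conC_cross, hcr2]
      module
    rw [e1, e2]; exact hN'
  have hBNN' := bq_of H hN hN'' ha0 hψN hNN'
  -- the lines R, R'
  have hMR : AA S b M R := AA.trans H hM.1 hM0.1 hR.1 hMM0 hM0R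
  have hR1 : BL S R (x + υ • b) (ψ + υ • (x ⨯₃ b)) := by
    have e1 : y + ω • b = x + υ • b := by rw [hy]; module
    rw [e1, hcr1] at hR; exact hR
  have hBR := bq_of H hM hR1 hb0 F.da' hMR
  have hM2R1 : AA S d M2 R' := by
    have h := AA.smul hM2R' (c := (-1 : K)) (neg_ne_zero.2 one_ne_zero)
    rwa [neg_one_smul, neg_neg] at h
  have hMR' : AA S d M R' := AA.trans H hM.1 hM2.1 hR'.1 hMM2 hM2R1
  have hR1' : BL S R' (x + (-ω) • d) (ψ + (-ω) • (x ⨯₃ d)) := by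
    have e1 : v + υ • -d = x + (-ω) • d := by rw [hv]; module
    have e2 : ψ + ω • (v ⨯₃ (-d)) = ψ + (-ω) • (x ⨯₃ d) := by
      rw [map_neg, hcr3, smul_neg, neg_smul]
    rw [e1, e2] at hR'; exact hR'
  have hBR' := bq_of H hM hR1' hd0 hd1 hMR'
  exact conC_key2 H hM ha0 F.da (neg_ne_zero.2 (pow_ne_zero 2 F.ne)) F.da' hd1 hb0 hd0 hbd
    hN (by rw [conC_cross, hya]) hBNN' hBR hRN hBR' hRN'

end B

end Pool.Agent.Lib.MP_6b0fe3_coP
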