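import Pool.Agent.Lib.MP_6b0fe3_coR.GrpK
import Pool.Agent.Lib.MP_6b0fe3_coR.GrpE

/-! MP_6b0fe3_co, prime fields with p = 1 mod 3: classes of B-lines and transport along A-lines -/

namespace Pool.Agent.Lib.MP_6b0fe3_coP

open Matrix Pool.Agent.Lib.MP_6b0fe3_coR

section defs
variable {K : Type*} [Field K] {Pt Ln : Type*} {I : Pt → Ln → Prop}

/-- `M` is a B-line with standard coordinates `(w,ψ)` -/
def BL (S : Sub K I) (M : Ln) (w ψ : Fin 3 → K) : Prop := BLine S M ∧ Std S M w ψ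

/-- the label `(w,ψ)` belongs to the class of A-lines `(v,φ)` -/
structure InA (v φ w ψ : Fin 3 → K) : Prop where
  v0 : v ≠ 0
  dw : ψ ⬝ᵥ w = 1
  dv : ψ ⬝ᵥ v = 0
  cr : w ⨯₃ v = φ

/-- the lines `M` and `N` meet a common A-line over `v` -/
def AA (S : Sub K I) (v : Fin 3 → K) (M N : Ln) : Prop :=
  ∃ k t x y, ALine S v k t ∧ I x t ∧ I y t ∧ I x M ∧ I y N

/-- the lines `M` and `N` meet a common A-line over `v` in different points -/
def Aq (S : Sub K I) (v : Fin 3 → K) (M N : Ln) : Prop :=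
  ∃ k t x y, ALine S v k t ∧ I x t ∧ I y t ∧ I x M ∧ I y N ∧ x ≠ y

/-- the lines `M` and `N` have a common point over `v` -/
def Bq (S : Sub K I) (v : Fin 3 → K) (M N : Ln) : Prop :=
  ∃ k x, Over S x v k ∧ I x M ∧ I x N

open Classical in
/-- transport of `M` along its A-line over `v` to the class of B-lines with label `(w,ψ)` -/
noncomputable def tr (S : Sub K I) (v w ψ : Fin 3 → K) (M : Ln) : Ln :=
  if h : ∃ N, BL S N w ψ ∧ AA S v M N then h.choose else M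

/-- the two primitive cube roots of unity -/
structure Cub (ω υ : K) : Prop where
  add : ω + υ = -1
  mul : ω * υ = 1
  ne : ω ≠ υ

/-- every class has exactly three B-lines -/
def Three (S : Sub K I) : Prop := ∀ w ψ : Fin 3 → K, ψ ⬝ᵥ w = 1 →
  ∃ M₁ M₂ M₃ : Ln, M₁ ≠ M₂ ∧ M₁ ≠ M₃ ∧ M₂ ≠ M₃ ∧ ∀ N, BL S N w ψ ↔ (N = M₁ ∨ N = M₂ ∨ N = M₃)

/-- `ψ·w = 1`, `ψ·a = ψ·a' = 0`, `det (w,a,a') = δ ≠ 0` -/
structure Frame (w ψ a a' : Fin 3 → K) (δ : K) : Prop where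
  dw : ψ ⬝ᵥ w = 1
  da : ψ ⬝ᵥ a = 0
  da' : ψ ⬝ᵥ a' = 0
  det : w ⬝ᵥ (a ⨯₃ a') = δ
  ne : δ ≠ 0

/-- vector with coordinates `(x,y,z)` in a frame -/
def vec (w a a' : Fin 3 → K) (x y z : K) : Fin 3 → K := x • w + y • a + z • a'

/-- covector with coordinates `(x,y,z)` in a frame -/
def cov (w ψ a a' : Fin 3 → K) (x y z : K) : Fin 3 → K := x • ψ + y • (w ⨯₃ a) + z • (w ⨯₃ a')

/-- the path `M - A(a') - R - B - N - A(a) - M'` -/
noncomputable def PP (S : Sub K I) (ω υ : K) (w ψ a a' : Fin 3 → K) (M : Ln) : Ln :=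
  tr S a w ψ (tr S ((ω - 1) • w + a - ω • a') (ω • w + a) (υ • ψ + w ⨯₃ a)
    (tr S a' (w + ω • a') (ψ + υ • (w ⨯₃ a')) M))

end defs

theorem Cub.symm {K : Type*} [Field K] {ω υ : K} (h : Cub ω υ) : Cub υ ω :=
  ⟨by rw [add_comm]; exact h.add, by rw [mul_comm]; exact h.mul, h.ne.symm⟩

theorem Cub.sq {K : Type*} [Field K] {ω υ : K} (h : Cub ω υ) : ω ^ 2 = υ := by
  have h1 := h.add
  have h2 := h.mul
  linear_combination (-1 : K) * h2 + ω * h1 - h1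

theorem Cub.cube {K : Type*} [Field K] {ω υ : K} (h : Cub ω υ) : ω ^ 3 = 1 := by
  rw [pow_succ, h.sq, mul_comm, h.mul]

theorem Cub.ne_zero {K : Type*} [Field K] {ω υ : K} (h : Cub ω υ) : ω ≠ 0 := by
  rintro rfl
  have := h.mul
  rw [zero_mul] at this
  exact zero_ne_one this

theorem Cub.ne_one {K : Type*} [Field K] {ω υ : K} (h : Cub ω υ) : ω ≠ 1 := by
  rintro rfl
  have := h.mul
  rw [one_mul] at this
  exact h.ne this.symm

theorem Cub.sub_ne {K : Type*} [Field K] {ω υ : K} (h : Cub ω υ) : υ - ω ≠ 0 :=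
  sub_ne_zero.2 h.ne.symm

theorem Cub.three {K : Type*} [Field K] {ω υ : K} (h : Cub ω υ) : (3 : K) ≠ 0 := by
  intro h3
  apply h.sub_ne
  have h4 : (υ - ω) ^ 2 = 0 := by
    have h1 := h.add
    have h2 := h.mul
    linear_combination (υ + ω - 1) * h1 - 4 * h2 - h3
  exact pow_eq_zero_iff (two_ne_zero) |>.1 h4

end Pool.Agent.Lib.MP_6b0fe3_coP
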