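import Pool.Agent.Lib.MP_6b0fe3_coP.StepA
import Pool.Agent.Lib.MP_6b0fe3_coR.FlagD

/-! MP_6b0fe3_co, prime fields: duality -/

namespace Pool.Agent.Lib.MP_6b0fe3_coP

open Matrix Pool.Agent.Lib.MP_6b0fe3_coR

section A
variable {K : Type*} [Field K] [Fintype K] {Pt Ln : Type*} {I : Pt → Ln → Prop} {S : Sub K I}

theorem bline_dual {M : Ln} : BLine S.dual M ↔ BLine S M := by
  constructor
  · intro h v k hf
    exact h k v hf.symm
  · intro h v k hf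
    exact h k v hf.symm

theorem dualC_bl {S : Sub K I} {M : Ln} {w ψ : Fin 3 → K} (h : BL S M w ψ) :
    BL S.dual M (-ψ) (-w) := by
  obtain ⟨hb, hd, hs⟩ := h
  have hd' : w ⬝ᵥ ψ = 1 := by rw [dotProduct_comm]; exact hd
  refine ⟨bline_dual.2 hb, ?_, ?_⟩
  · rw [neg_dotProduct, dotProduct_neg, neg_neg, hd']
  · intro φ hφ hwφ
    have hwφ' : w ⬝ᵥ φ = 0 := by rwa [neg_dotProduct, neg_eq_zero] at hwφ
    have hc : (-ψ) ⨯₃ φ = φ ⨯₃ ψ := by
      rw [map_neg, LinearMap.neg_apply, cross_anticomm]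
    have hw : w ⨯₃ (φ ⨯₃ ψ) = φ := by
      rw [cross_cross_right, hd', hwφ', one_smul, zero_smul, sub_zero]
    have hv0 : φ ⨯₃ ψ ≠ 0 := by
      intro h0
      rw [h0] at hw
      apply hφ
      rw [← hw]
      simp
    obtain ⟨x, hx, ho, hn⟩ := hs (φ ⨯₃ ψ) hv0 (dot_cross_self φ ψ)
    rw [hw] at ho hn
    rw [hc]
    refine ⟨x, hx, ⟨ho.1.symm, ho.2⟩, ?_⟩
    intro r m hf hopp
    have hopp' : Opp (φ ⨯₃ ψ) φ m r := by
      refine ⟨?_, ?_⟩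
      · rw [dotProduct_comm]; exact hopp.2
      · rw [dotProduct_comm]; exact hopp.1
    have h1 := hn m r hf.symm hopp'
    have h2 : S.dual.pt r m = S.pt m r := rfl
    rw [h2, h1]
    have e1 : φ ⬝ᵥ m = m ⬝ᵥ φ := dotProduct_comm _ _
    have e2 : r ⬝ᵥ w = w ⬝ᵥ r := dotProduct_comm _ _
    have e3 : ψ ⬝ᵥ m = m ⬝ᵥ ψ := dotProduct_comm _ _
    have e4 : r ⬝ᵥ (φ ⨯₃ ψ) = (φ ⨯₃ ψ) ⬝ᵥ r := dotProduct_comm _ _
    rw [e1, e2, e3, e4, dotProduct_neg, neg_dotProduct]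
    constructor
    · intro h; linear_combination h
    · intro h; linear_combination h

theorem bl_dual {M : Ln} {w ψ : Fin 3 → K} : BL S.dual M (-ψ) (-w) ↔ BL S M w ψ := by
  constructor
  · intro h
    have h1 := dualC_bl h
    rw [neg_neg, neg_neg] at h1
    exact h1
  · exact dualC_bl

theorem std_dual (hstd : ∀ M, BLine S M → ∃ w ψ, Std S M w ψ) :
    ∀ M, BLine S.dual M → ∃ w ψ, Std S.dual M w ψ := by
  intro M hM
  have hM' := bline_dual.1 hM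
  obtain ⟨w, ψ, h⟩ := hstd M hM'
  exact ⟨-ψ, -w, (dualC_bl ⟨hM', h⟩).2⟩

theorem three_dual (h3 : Three S) : Three S.dual := by
  intro w ψ h
  obtain ⟨M₁, M₂, M₃, h12, h13, h23, hN⟩ := h3 (-ψ) (-w) (by
    rw [neg_dotProduct, dotProduct_neg, neg_neg, dotProduct_comm]; exact h)
  refine ⟨M₁, M₂, M₃, h12, h13, h23, fun N => ?_⟩
  rw [← hN N]
  have h1 := bl_dual (S := S) (M := N) (w := -ψ) (ψ := -w)
  rw [neg_neg, neg_neg] at h1
  exact h1

end A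

section B
variable {K : Type*} [Field K] [Fintype K] {Pt Ln : Type*} {I : Pt → Ln → Prop}
variable (H : Hex I (Fintype.card K)) {S : Sub K I}

omit [Fintype K] in
/-- the dual class of labels -/
theorem dualC_inA {v φ w ψ : Fin 3 → K} (h : InA v φ w ψ) : InA φ v (-ψ) (-w) where
  v0 := by rw [← h.cr]; exact CountM.cross_w_ne h.dw h.dv h.v0
  dw := by rw [neg_dotProduct, dotProduct_neg, neg_neg, dotProduct_comm]; exact h.dw
  dv := by rw [neg_dotProduct, ← h.cr, dot_self_cross, neg_zero]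
  cr := by
    rw [map_neg, LinearMap.neg_apply, ← h.cr, cross_cross_right, h.dv, h.dw, zero_smul, one_smul,
      zero_sub, neg_neg]

omit [Fintype K] in
theorem dualC_cross {f p w : Fin 3 → K} (hp : p ⬝ᵥ w = 1) (hf : f ⬝ᵥ w = 0) :
    w ⨯₃ (f ⨯₃ p) = f := by
  rw [cross_cross_right, dotProduct_comm w p, dotProduct_comm w f, hp, hf, one_smul, zero_smul,
    sub_zero]

omit [Fintype K] in
theorem dualC_inA1 {f p w : Fin 3 → K} (hp : p ⬝ᵥ w = 1) (hf : f ⬝ᵥ w = 0) (h0 : f ≠ 0) :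
    InA (f ⨯₃ p) f w p where
  v0 := by
    intro h
    have h1 := dualC_cross hp hf
    rw [h] at h1
    apply h0
    rw [← h1]
    simp
  dw := hp
  dv := dot_cross_self f p
  cr := dualC_cross hp hf

omit [Fintype K] in
theorem dualC_inA2 {f p w : Fin 3 → K} (hp : p ⬝ᵥ w = 1) (hf : f ⬝ᵥ w = 0) (h0 : f ≠ 0) :
    InA (f ⨯₃ p) f w (p + f) where
  v0 := (dualC_inA1 hp hf h0).v0
  dw := by rw [add_dotProduct, hp, hf, add_zero]
  dv := by rw [add_dotProduct, dot_cross_self, dot_self_cross, add_zero]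
  cr := dualC_cross hp hf

include H

theorem aa_dual {M N : Ln} {v φ w ψ : Fin 3 → K} (hM : BL S M w ψ) (hA : InA v φ w ψ) :
    AA S.dual φ M N ↔ AA S v M N := by
  have hφ0 : φ ≠ 0 := (dualC_inA hA).v0
  have hvφ : v ⬝ᵥ φ = 0 := by rw [← hA.cr, dot_cross_self]
  have hfl : IsFlag v φ := ⟨hA.v0, hφ0, hvφ⟩
  constructor
  · rintro ⟨k, t, x, y, ht, hxt, hyt, hxM, hyN⟩
    obtain ⟨hf, hI, hne1, hne2⟩ := ht
    have hI' : I (S.pt k φ) t := hI
    have hne1' : t ≠ S.ll φ := hne1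
    have hne2' : t ≠ S.lp k := hne2
    have hov : Over S x k φ := ⟨hf.symm, t, hxt, hI'⟩
    obtain ⟨h1, h2⟩ := base_only H S hM.1 hM.2.1 hM.2.bas.2 hxM hov
    have h3 : v ⨯₃ k = 0 := by
      obtain ⟨c, hc⟩ := CountM.cross_form (CountM.ne_of_dot hA.dw).1 hA.dv h1
      have h4 : (w ⨯₃ v) ⨯₃ (w ⨯₃ k) = (w ⬝ᵥ (v ⨯₃ k)) • w := by
        ext i
        rw [cross_apply', cross_apply', cross_apply', cross_apply',
          Pool.Agent.Lib.MP_6b0fe3_coR.dot3]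
        fin_cases i <;> simp <;> ring
      rw [hA.cr, h2] at h4
      have h5 : w ⬝ᵥ (v ⨯₃ k) = 0 := by
        rcases smul_eq_zero.1 h4.symm with h | h
        · exact h
        · exact absurd h (CountM.ne_of_dot hA.dw).2
      rw [hc, dotProduct_smul, dotProduct_comm, hA.dw, smul_eq_mul, mul_one] at h5
      rw [hc, h5, zero_smul]
    refine ⟨φ, t, x, y, ⟨hfl, ?_, ?_, hne1'⟩, hxt, hyt, hxM, hyN⟩
    · rw [(S.pt_eq hfl hf.symm).2 ⟨h3, cross_self φ⟩]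
      exact hI'
    · rw [(S.lp_eq hA.v0 hf.2.1).2 h3]
      exact hne2'
  · rintro ⟨k, t, x, y, ht, hxt, hyt, hxM, hyN⟩
    obtain ⟨hf, hI, hne1, hne2⟩ := ht
    have hov : Over S x v k := ⟨hf, t, hxt, hI⟩
    obtain ⟨h1, h2⟩ := base_only H S hM.1 hM.2.1 hM.2.bas.2 hxM hov
    rw [hA.cr] at h2
    refine ⟨v, t, x, y, ⟨hfl.symm, ?_, ?_, ?_⟩, hxt, hyt, hxM, hyN⟩
    · change I (S.pt v φ) t
      rw [← (S.pt_eq hf hfl).2 ⟨cross_self v, h2⟩]
      exact hI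
    · change t ≠ S.ll φ
      rw [← (S.ll_eq hf.2.1 hφ0).2 h2]
      exact hne2
    · change t ≠ S.lp v
      exact hne1

variable (hstd : ∀ M, BLine S M → ∃ w ψ, Std S M w ψ)
include hstd

theorem tr_dual {M : Ln} {v φ w ψ w' ψ' : Fin 3 → K} (hM : BL S M w ψ) (hA : InA v φ w ψ)
    (hA' : InA v φ w' ψ') : tr S.dual φ (-ψ') (-w') M = tr S v w' ψ' M := by
  have h1 := tr_mem H hstd hM hA hA'
  have h2 := tr_aa H hstd hM hA hA'
  exact tr_eq H (std_dual hstd) (bl_dual.2 hM) (dualC_inA hA) (dualC_inA hA') (bl_dual.2 h1)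
    ((aa_dual H hM hA).2 h2)

/-- the dual statement of the absence of monodromy -/
theorem split_dual
    (hsplit : ∀ w ψ u u' : Fin 3 → K, ∀ M : Ln, ψ ⬝ᵥ w = 1 → ψ ⬝ᵥ u = 0 → ψ ⬝ᵥ u' = 0 →
      u ⨯₃ u' ≠ 0 → BL S.dual M w ψ →
      tr S.dual (u' - u) (w + u') ψ (tr S.dual u (w + u) ψ M) = tr S.dual u' (w + u') ψ M)
    {w ψ φ φ' : Fin 3 → K} {M : Ln} (h : ψ ⬝ᵥ w = 1) (hφ : φ ⬝ᵥ w = 0) (hφ' : φ' ⬝ᵥ w = 0)
    (hne : φ ⨯₃ φ' ≠ 0) (hM : BL S M w ψ) :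
    tr S ((φ' - φ) ⨯₃ (ψ + φ)) w (ψ + φ') (tr S (φ ⨯₃ ψ) w (ψ + φ) M) =
      tr S (φ' ⨯₃ ψ) w (ψ + φ') M := by
  have h1 : φ ≠ 0 := by
    rintro rfl
    exact hne (by simp)
  have h1' : φ' ≠ 0 := by
    rintro rfl
    exact hne (by simp)
  have h2 : φ' - φ ≠ 0 := by
    intro h0
    rw [sub_eq_zero.1 h0] at hne
    exact hne (cross_self φ)
  have hd : (φ' - φ) ⬝ᵥ w = 0 := by rw [sub_dotProduct, hφ, hφ', sub_zero]
  have hs : (ψ + φ) ⬝ᵥ w = 1 := by rw [add_dotProduct, h, hφ, add_zero]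
  have key := hsplit (-ψ) (-w) (-φ) (-φ') M
    (by rw [neg_dotProduct, dotProduct_neg, neg_neg, dotProduct_comm]; exact h)
    (by rw [neg_dotProduct, dotProduct_neg, neg_neg, dotProduct_comm]; exact hφ)
    (by rw [neg_dotProduct, dotProduct_neg, neg_neg, dotProduct_comm]; exact hφ')
    (by
      have e : (-φ) ⨯₃ (-φ') = φ ⨯₃ φ' := by simp
      rw [e]
      exact hne)
    (bl_dual.2 hM)
  have hneg : (-1 : K) ≠ 0 := neg_ne_zero.2 one_ne_zero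
  have t1 : tr S.dual (-φ) (-ψ + -φ) (-w) M = tr S (φ ⨯₃ ψ) w (ψ + φ) M := by
    have e : (-φ : Fin 3 → K) = (-1 : K) • φ := by simp
    rw [← neg_add, e, tr_smul hneg]
    exact tr_dual H hstd hM (dualC_inA1 h hφ h1) (dualC_inA2 h hφ h1)
  have t2 : tr S.dual (-φ') (-ψ + -φ') (-w) M = tr S (φ' ⨯₃ ψ) w (ψ + φ') M := by
    have e : (-φ' : Fin 3 → K) = (-1 : K) • φ' := by simp
    rw [← neg_add, e, tr_smul hneg]
    exact tr_dual H hstd hM (dualC_inA1 h hφ' h1') (dualC_inA2 h hφ' h1')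
  have hM1 := tr_mem H hstd hM (dualC_inA1 h hφ h1) (dualC_inA2 h hφ h1)
  rw [t1, t2] at key
  rw [← key]
  have e : (-φ' - -φ : Fin 3 → K) = (-1 : K) • (φ' - φ) := by
    rw [neg_smul, one_smul]; abel
  rw [← neg_add, e, tr_smul hneg]
  have hA2 := dualC_inA2 hs hd h2
  have e2 : ψ + φ + (φ' - φ) = ψ + φ' := by abel
  rw [e2] at hA2
  exact (tr_dual H hstd hM1 (dualC_inA1 hs hd h2) hA2).symm

end B

end Pool.Agent.Lib.MP_6b0fe3_coP
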