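import Pool.Agent.Lib.MP_6b0fe3_coP.DefC

/-! MP_6b0fe3_co, prime fields: no pentagons, meeting lines -/

namespace Pool.Agent.Lib.MP_6b0fe3_coP

open Matrix Pool.Agent.Lib.MP_6b0fe3_coR Pool.Agent.Lib.MP_6b0fe3_coR.CountM

theorem meetC_tri {Pt Ln : Type*} {I : Pt → Ln → Prop} {q : ℕ} (H : Hex I q)
    {l1 l2 : Ln} {a b c : Pt} (ha : I a l1) (hb : I b l1) (hb' : I b l2) (hc : I c l2)
    (hab : a ≠ b) (hbc : b ≠ c) (h12 : l1 ≠ l2) (h : Coll I a c) : False := by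
  obtain ⟨l, h1, h2, h3⟩ := H.tri ⟨l1, ha, hb⟩ ⟨l2, hb', hc⟩ h
  exact h12 ((H.uniq ha hb h1 h2 hab).trans (H.uniq h2 h3 hb' hc hbc))

/-- no closed non-backtracking path of five lines -/
theorem no_pent {Pt Ln : Type*} {I : Pt → Ln → Prop} {q : ℕ} (H : Hex I q)
    {l1 l2 l3 l4 l5 : Ln} {a b c d e : Pt}
    (ha : I a l1) (hb : I b l1) (hb' : I b l2) (hc : I c l2) (hc' : I c l3) (hd : I d l3)
    (hd' : I d l4) (he : I e l4) (he' : I e l5) (ha' : I a l5)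
    (hab : a ≠ b) (hbc : b ≠ c) (hcd : c ≠ d) (hde : d ≠ e) (hea : e ≠ a)
    (h12 : l1 ≠ l2) (h23 : l2 ≠ l3) (h34 : l3 ≠ l4) (h45 : l4 ≠ l5) (h51 : l5 ≠ l1) : False := by
  rcases H.pent ⟨l1, ha, hb⟩ ⟨l2, hb', hc⟩ ⟨l3, hc', hd⟩ ⟨l4, hd', he⟩ ⟨l5, he', ha'⟩ with
    h | h | h | h | h
  · exact meetC_tri H ha hb hb' hc hab hbc h12 h
  · exact meetC_tri H hb' hc hc' hd hbc hcd h23 h
  · exact meetC_tri H hc' hd hd' he hcd hde h34 h
  · exact meetC_tri H hd' he he' ha' hde hea h45 h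
  · exact meetC_tri H he' ha' ha hb hea hab h51 h

section B
variable {K : Type*} [Field K] [Fintype K] {Pt Ln : Type*} {I : Pt → Ln → Prop}
variable (H : Hex I (Fintype.card K)) {S : Sub K I}

omit [Fintype K] in
theorem aline_ne_bline {v k : Fin 3 → K} {t M : Ln} (ht : ALine S v k t) (hM : BLine S M) :
    t ≠ M := by
  rintro rfl
  exact hM v k ht.1 ht.2.1

include H

theorem over_of_aline {v k : Fin 3 → K} {t M : Ln} {x : Pt} (ht : ALine S v k t) (hx : I x t)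
    (hM : BLine S M) (hxM : I x M) : Over S x v k :=
  (out_of_aline H S ht hx (out_of_bline H S hM hxM v k ht.1)).2

theorem ne_of_over {x y : Pt} {u k v k' : Fin 3 → K} (hx : Out S x) (h : Over S x u k)
    (h' : Over S y v k') (huv : u ⨯₃ v ≠ 0) : x ≠ y := by
  rintro rfl
  exact huv (over_unique H S hx h h').1

/-- pentagon of type A A B -/
theorem no_aab {u v z : Fin 3 → K} {M₁ M₂ M₃ : Ln} (h1 : BLine S M₁) (h2 : BLine S M₂)
    (h3 : BLine S M₃) (h12 : Aq S u M₁ M₂) (h23 : Aq S v M₂ M₃) (h31 : Bq S z M₃ M₁)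
    (huv : u ⨯₃ v ≠ 0) (hvz : v ⨯₃ z ≠ 0) (hzu : z ⨯₃ u ≠ 0) (hne : M₃ ≠ M₁) : False := by
  obtain ⟨k1, t1, x1, y1, ht1, hx1, hy1, hx1M, hy1M, hne1⟩ := h12
  obtain ⟨k2, t2, x2, y2, ht2, hx2, hy2, hx2M, hy2M, hne2⟩ := h23
  obtain ⟨k3, x3, ho3, hx3, hx3'⟩ := h31
  have oy1 := over_of_aline H ht1 hy1 h2 hy1M
  have ox1 := over_of_aline H ht1 hx1 h1 hx1M
  have ox2 := over_of_aline H ht2 hx2 h2 hx2M
  have oy2 := over_of_aline H ht2 hy2 h3 hy2M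
  refine no_pent H (l1 := t1) (l2 := M₂) (l3 := t2) (l4 := M₃) (l5 := M₁) hx1 hy1 hy1M hx2M hx2 hy2
    hy2M hx3 hx3' hx1M hne1 ?_ hne2 ?_ ?_ (aline_ne_bline ht1 h2) (aline_ne_bline ht2 h2).symm
    (aline_ne_bline ht2 h3) hne (aline_ne_bline ht1 h1).symm
  · exact ne_of_over H (out_of_bline H S h2 hy1M) oy1 ox2 huv
  · exact ne_of_over H (out_of_bline H S h3 hy2M) oy2 ho3 hvz
  · exact ne_of_over H (out_of_bline H S h3 hx3) ho3 ox1 hzu

/-- pentagon of type A B B B -/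
theorem no_abbb {a z' y z : Fin 3 → K} {N N' R' R : Ln} (hN : BLine S N) (hN' : BLine S N')
    (hR' : BLine S R') (hR : BLine S R) (h1 : Aq S a N N') (h2 : Bq S z' N' R') (h3 : Bq S y R' R)
    (h4 : Bq S z R N) (haz : a ⨯₃ z' ≠ 0) (hzy : z' ⨯₃ y ≠ 0) (hyz : y ⨯₃ z ≠ 0)
    (hza : z ⨯₃ a ≠ 0) (e1 : N' ≠ R') (e2 : R' ≠ R) (e3 : R ≠ N) : False := by
  obtain ⟨k1, t1, x1, y1, ht1, hx1, hy1, hx1M, hy1M, hne1⟩ := h1
  obtain ⟨k2, x2, ho2, hx2, hx2'⟩ := h2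
  obtain ⟨k3, x3, ho3, hx3, hx3'⟩ := h3
  obtain ⟨k4, x4, ho4, hx4, hx4'⟩ := h4
  have oy1 := over_of_aline H ht1 hy1 hN' hy1M
  have ox1 := over_of_aline H ht1 hx1 hN hx1M
  refine no_pent H (l1 := t1) (l2 := N') (l3 := R') (l4 := R) (l5 := N) hx1 hy1 hy1M hx2 hx2' hx3
    hx3' hx4 hx4' hx1M hne1 ?_ ?_ ?_ ?_ (aline_ne_bline ht1 hN') e1 e2 e3
    (aline_ne_bline ht1 hN).symm
  · exact ne_of_over H (out_of_bline H S hN' hy1M) oy1 ho2 haz
  · exact ne_of_over H (out_of_bline H S hN' hx2) ho2 ho3 hzy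
  · exact ne_of_over H (out_of_bline H S hR' hx3) ho3 ho4 hyz
  · exact ne_of_over H (out_of_bline H S hR hx4) ho4 ox1 hza

theorem bq_of {M N : Ln} {v w ψ : Fin 3 → K} {α : K} (hM : BL S M w ψ)
    (hN : BL S N (w + α • v) (ψ + α • (w ⨯₃ v))) (hv : v ≠ 0) (hψ : ψ ⬝ᵥ v = 0)
    (h : AA S v M N) : Bq S v M N := by
  obtain ⟨k, t, x, y, ht, hx, hy, hxM, hyN⟩ := h
  have ox := over_of_aline H ht hx hM.1 hxM
  have oy := over_of_aline H ht hy hN.1 hyN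
  have rx := CountM.rep_of_std H S hM.1 hM.2 hxM ox
  have ry := CountM.rep_of_std H S hN.1 hN.2 hyN oy
  have rx' := rep_add H S rx α
  have hout := out_of_bline H S hM.1 hxM
  have houty := out_of_bline H S hN.1 hyN
  have hφ : w ⨯₃ v ≠ 0 := cross_w_ne hM.2.1 hψ hv
  obtain ⟨r, hr⟩ := uniqL_nondeg hφ
  have hr' : ((w + α • v) ⨯₃ v) ⬝ᵥ r ≠ 0 := by
    rw [map_add, LinearMap.add_apply, map_smul, LinearMap.smul_apply, cross_self, smul_zero,
      add_zero]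
    exact hr
  obtain ⟨m, hm, hn, ho, he⟩ := uniqL_near H S hout rx' hr'
  have hny : Near I y (S.pt r m) := (ry.2.2.2 r m hm ho).2 he
  have hok : Opp v k r m := by
    refine ⟨ho.1, ?_⟩
    obtain ⟨c, hc⟩ := uniqL_parallel ht.1.2.1 (over_unique H S hout ox rx'.2.2.1).2
    intro h0
    apply ho.2
    rw [hc, dotProduct_smul, h0, smul_zero]
  have hxy : x = y := near_aline_unique H S ht hm hok hx hy hn hny
  subst hxy
  exact ⟨k, x, ox, hxM, hyN⟩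

theorem aq_of {M N : Ln} {v w ψ : Fin 3 → K} {α β : K} (hM : BL S M w ψ)
    (hN : BL S N (w + α • v) (ψ + β • (w ⨯₃ v))) (hv : v ≠ 0) (hψ : ψ ⬝ᵥ v = 0)
    (hαβ : α ≠ β) (h : AA S v M N) : Aq S v M N := by
  obtain ⟨k, t, x, y, ht, hx, hy, hxM, hyN⟩ := h
  refine ⟨k, t, x, y, ht, hx, hy, hxM, hyN, ?_⟩
  rintro rfl
  have ox := over_of_aline H ht hx hM.1 hxM
  have rx := CountM.rep_of_std H S hM.1 hM.2 hxM ox
  have ry := CountM.rep_of_std H S hN.1 hN.2 hyN ox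
  have hφ : w ⨯₃ v ≠ 0 := cross_w_ne hM.2.1 hψ hv
  obtain ⟨c, s, hc, hw, hψ'⟩ := rep_unique3 H S (out_of_bline H S hM.1 hxM) rx ry
  have h1 : c = 1 := by
    have e1 := congrArg (fun u => u ⨯₃ v) hw
    simp only [map_add, LinearMap.add_apply, map_smul, LinearMap.smul_apply, cross_self,
      smul_zero, add_zero] at e1
    have e2 : (1 - c) • (w ⨯₃ v) = 0 := by
      rw [sub_smul, one_smul, ← e1, sub_self]
    rcases smul_eq_zero.1 e2 with h0 | h0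
    · exact (sub_eq_zero.1 h0).symm
    · exact absurd h0 hφ
  subst h1
  have h2 : α = s := by
    rw [one_smul] at hw
    have e1 := add_left_cancel hw
    have e2 : (α - s) • v = 0 := by rw [sub_smul, e1, sub_self]
    rcases smul_eq_zero.1 e2 with h0 | h0
    · exact sub_eq_zero.1 h0
    · exact absurd h0 hv
  have h3 : β = s := by
    rw [one_pow, one_smul, one_mul] at hψ'
    have e1 := add_left_cancel hψ'
    have e2 : (β - s) • (w ⨯₃ v) = 0 := by rw [sub_smul, e1, sub_self]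
    rcases smul_eq_zero.1 e2 with h0 | h0
    · exact sub_eq_zero.1 h0
    · exact absurd h0 hφ
  exact hαβ (h2.trans h3.symm)

theorem bq_aa {M N : Ln} {v : Fin 3 → K} (hM : BLine S M) (h : Bq S v M N) : AA S v M N := by
  obtain ⟨k, x, ho, hx, hx'⟩ := h
  obtain ⟨t, ht, hxt⟩ := aline_exists H S (out_of_bline H S hM hx) ho
  exact ⟨k, t, x, x, ht, hxt, hxt, hx, hx'⟩

theorem ne_of_lab {M N : Ln} {w ψ w' ψ' : Fin 3 → K} (hM : BL S M w ψ) (hN : BL S N w' ψ')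
    (h : w ⨯₃ w' ≠ 0) : M ≠ N := by
  rintro rfl
  apply h
  obtain ⟨v, r, hv, hr, hvr⟩ := exists_ker (ne_of_dot hM.2.1).1
  have hv0 : v ≠ 0 := by
    rintro rfl
    simp at hvr
  have hr0 : r ≠ 0 := by
    rintro rfl
    simp at hvr
  obtain ⟨x, hx, ho, -⟩ := hM.2.2 v hv0 hv
  obtain ⟨x', hx', ho', -⟩ := hM.2.2 r hr0 hr
  have b1 := CountM.base_of_std H S hN.1 hN.2 hx ho
  have b2 := CountM.base_of_std H S hN.1 hN.2 hx' ho'
  obtain ⟨a, -, ha, -⟩ := prop_pair hM.2.1 hv hr hvr hN.2.1 b1.1 b2.1 b1.2 b2.2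
  rw [ha, map_smul, cross_self, smul_zero]

/-- an outside point over `(a, w × a + c ψ)`, `c ≠ 0`, is near at most one point of a B-line with
label `(w,ψ)` -/
theorem no_two {M : Ln} {w ψ a : Fin 3 → K} {c : K} (hM : BL S M w ψ) (ha0 : a ≠ 0)
    (ha : ψ ⬝ᵥ a = 0) (hc : c ≠ 0) {x y y' : Pt} (hx : Out S x) (hxo : Over S x a (w ⨯₃ a + c • ψ))
    (hy : I y M) (hy' : I y' M) (hn : Near I y x) (hn' : Near I y' x) : y = y' := by
  by_contra hne
  obtain ⟨z, hz, hzx⟩ := lineF_near_two H hy hy' hne hn hn'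
  obtain ⟨xa, hxa, hoa, -⟩ := hM.2.2 a ha0 ha
  have hcr : (w ⨯₃ a) ⨯₃ (w ⨯₃ a + c • ψ) ≠ 0 := by
    intro h0
    have e1 : (w ⨯₃ a) ⨯₃ (w ⨯₃ a + c • ψ) = c • a := by
      rw [map_add, cross_self, zero_add, map_smul]
      congr 1
      have e2 : (w ⨯₃ a) ⨯₃ ψ = (w ⬝ᵥ ψ) • a - (a ⬝ᵥ ψ) • w := by
        funext i
        fin_cases i <;>
          simp [cross_apply, CountM.dot3] <;> ring
      rw [e2, dotProduct_comm w ψ, hM.2.1, dotProduct_comm a ψ, ha, one_smul, zero_smul, sub_zero]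
    rw [e1] at h0
    rcases smul_eq_zero.1 h0 with h1 | h1
    · exact hc h1
    · exact ha0 h1
  have hF : IsFlag a (w ⨯₃ a) := hoa.1
  have hF' : IsFlag a (w ⨯₃ a + c • ψ) := hxo.1
  have houta := out_of_bline H S hM.1 hxa
  have no1 : ¬ Coll I x (S.pt a (w ⨯₃ a)) := fun hcl =>
    hcr (over_unique H S hx ⟨hF, hcl⟩ hxo).2
  have no2 : ¬ Coll I (S.pt a (w ⨯₃ a + c • ψ)) xa := fun hcl =>
    hcr (over_unique H S houta hoa ⟨hF', thetaE_coll_swap hcl⟩).2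
  have cFF : Coll I (S.pt a (w ⨯₃ a + c • ψ)) (S.pt a (w ⨯₃ a)) :=
    ⟨S.lp a, thetaE_inc_lp S hF', thetaE_inc_lp S hF⟩
  have no3 : ¬ Coll I xa x := by
    intro hcl
    rcases H.quadr hxo.2 cFF (thetaE_coll_swap hoa.2) hcl with e | e
    · exact no1 e
    · exact no2 e
  rcases H.pent hxo.2 cFF (thetaE_coll_swap hoa.2) ⟨M, hxa, hz⟩ hzx with e | e | e | e | e
  · exact no1 e
  · exact no2 e
  · have h1 : z = xa := CountM.eq_of_over H S hM.1 hz hxa ⟨hF, thetaE_coll_swap e⟩ hoa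
    subst h1
    exact no3 hzx
  · exact no3 e
  · have h1 : z = xa := CountM.eq_of_over H S hM.1 hz hxa ⟨hF', e⟩ hoa
    subst h1
    exact no3 hzx

end B

section C
variable {K : Type*} [Field K] [Fintype K] {Pt Ln : Type*} {I : Pt → Ln → Prop}
variable (H : Hex I (Fintype.card K)) {S : Sub K I}
include H

/-- a B-line has one point over `b` -/
theorem bq_point {M R : Ln} {b k : Fin 3 → K} {y : Pt} (hM : BLine S M) (hy : I y M)
    (hyo : Over S y b k) (h : Bq S b M R) : I y R := by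
  obtain ⟨k', x, ho, hx, hx'⟩ := h
  rw [CountM.eq_of_over H S hM hy hx hyo ho]
  exact hx'

theorem near_aa {M X : Ln} {b k : Fin 3 → K} {x y : Pt} (hM : BLine S M) (hy : I y M)
    (hyo : Over S y b k) (h : AA S b M X) (hx : I x X) : Near I y x := by
  obtain ⟨k', t, x1, y1, ht, hx1, hy1, hx1M, hy1X⟩ := h
  have ox1 := over_of_aline H ht hx1 hM hx1M
  have h1 : y = x1 := CountM.eq_of_over H S hM hy hx1M hyo ox1
  subst h1
  exact ⟨y1, ⟨t, hx1, hy1⟩, ⟨X, hy1X, hx⟩⟩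

theorem near_bb {M R N : Ln} {b z k : Fin 3 → K} {x y : Pt} (hM : BLine S M) (hy : I y M)
    (hyo : Over S y b k) (h : Bq S b M R) (h' : Bq S z R N) (hx : I x N) : Near I y x := by
  have h1 := bq_point H hM hy hyo h
  obtain ⟨k', p, ho, hp, hp'⟩ := h'
  exact ⟨p, ⟨R, h1, hp⟩, ⟨N, hp', hx⟩⟩

end C

end Pool.Agent.Lib.MP_6b0fe3_coP
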