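import Pool.Agent.Lib.MP_6b0fe3_coP.StepA
import Pool.Agent.Lib.MP_6b0fe3_coP.MeetC

/-! MP_6b0fe3_co, prime fields: frames -/

namespace Pool.Agent.Lib.MP_6b0fe3_coP

open Matrix Pool.Agent.Lib.MP_6b0fe3_coR

section A
variable {K : Type*} [Field K] {w ψ a a' : Fin 3 → K} {δ : K}

theorem cramer (w ψ a a' : Fin 3 → K) : (w ⬝ᵥ (a ⨯₃ a')) • ψ =
    (ψ ⬝ᵥ w) • (a ⨯₃ a') + (ψ ⬝ᵥ a) • (a' ⨯₃ w) + (ψ ⬝ᵥ a') • (w ⨯₃ a) := by
  ext i
  simp only [cross_apply', dot3, Pi.add_apply, Pi.smul_apply, smul_eq_mul, Matrix.cons_val_zero,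
    Matrix.cons_val_one, Matrix.cons_val]
  fin_cases i <;> simp <;> ring

theorem Frame.cross (F : Frame w ψ a a' δ) : a ⨯₃ a' = δ • ψ := by
  have h := cramer w ψ a a'
  rw [F.dw, F.da, F.da', F.det, one_smul, zero_smul, zero_smul, add_zero, add_zero] at h
  exact h.symm

theorem vec_cross (F : Frame w ψ a a' δ) (x y z x' y' z' : K) :
    vec w a a' x y z ⨯₃ vec w a a' x' y' z' =
      cov w ψ a a' (δ * (y * z' - z * y')) (x * y' - y * x') (x * z' - z * x') := by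
  have h := F.cross
  have h0 := congrFun h 0
  have h1 := congrFun h 1
  have h2 := congrFun h 2
  rw [cross_apply'] at h0 h1 h2
  simp only [Pi.smul_apply, smul_eq_mul, Matrix.cons_val_zero, Matrix.cons_val_one,
    Matrix.cons_val] at h0 h1 h2
  ext i
  simp only [vec, cov, cross_apply', Pi.add_apply, Pi.smul_apply, smul_eq_mul]
  fin_cases i <;> simp
  · linear_combination (y * z' - z * y') * h0
  · linear_combination (y * z' - z * y') * h1
  · linear_combination (y * z' - z * y') * h2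

theorem Frame.dots (F : Frame w ψ a a' δ) : (w ⨯₃ a) ⬝ᵥ w = 0 ∧ (w ⨯₃ a) ⬝ᵥ a = 0 ∧
    (w ⨯₃ a) ⬝ᵥ a' = δ ∧ (w ⨯₃ a') ⬝ᵥ w = 0 ∧ (w ⨯₃ a') ⬝ᵥ a = -δ ∧ (w ⨯₃ a') ⬝ᵥ a' = 0 := by
  have h := F.det
  rw [dot3, cross_apply'] at h
  simp only [Matrix.cons_val_zero, Matrix.cons_val_one, Matrix.cons_val] at h
  refine ⟨uniqL_cross_self_left w a, uniqL_cross_self_right w a, ?_, uniqL_cross_self_left w a',
    ?_, uniqL_cross_self_right w a'⟩
  · rw [dot3, cross_apply']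
    simp only [Matrix.cons_val_zero, Matrix.cons_val_one, Matrix.cons_val]
    linear_combination h
  · rw [dot3, cross_apply']
    simp only [Matrix.cons_val_zero, Matrix.cons_val_one, Matrix.cons_val]
    linear_combination (-1 : K) * h

theorem cov_dot (F : Frame w ψ a a' δ) (x y z x' y' z' : K) :
    cov w ψ a a' x y z ⬝ᵥ vec w a a' x' y' z' = x * x' + δ * (y * z' - z * y') := by
  obtain ⟨d1, d2, d3, d4, d5, d6⟩ := F.dots
  simp only [vec, cov, add_dotProduct, dotProduct_add, smul_dotProduct, dotProduct_smul,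
    smul_eq_mul, F.dw, F.da, F.da', d1, d2, d3, d4, d5, d6]
  ring

theorem vec_zero (F : Frame w ψ a a' δ) {x y z : K} (h : vec w a a' x y z = 0) :
    x = 0 ∧ y = 0 ∧ z = 0 := by
  have h1 := cov_dot F 1 0 0 x y z
  have h2 := cov_dot F 0 1 0 x y z
  have h3 := cov_dot F 0 0 1 x y z
  rw [h, dotProduct_zero] at h1 h2 h3
  have hδ := F.ne
  refine ⟨by linear_combination (-1 : K) * h1, ?_, ?_⟩
  · apply (mul_eq_zero.1 (_ : δ * y = 0)).resolve_left hδ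
    linear_combination h3
  · apply (mul_eq_zero.1 (_ : δ * z = 0)).resolve_left hδ
    linear_combination (-1 : K) * h2

theorem cov_zero (F : Frame w ψ a a' δ) {x y z : K} (h : cov w ψ a a' x y z = 0) :
    x = 0 ∧ y = 0 ∧ z = 0 := by
  have h1 := cov_dot F x y z 1 0 0
  have h2 := cov_dot F x y z 0 1 0
  have h3 := cov_dot F x y z 0 0 1
  rw [h, zero_dotProduct] at h1 h2 h3
  have hδ := F.ne
  refine ⟨by linear_combination (-1 : K) * h1, ?_, ?_⟩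
  · apply (mul_eq_zero.1 (_ : δ * y = 0)).resolve_left hδ
    linear_combination (-1 : K) * h3
  · apply (mul_eq_zero.1 (_ : δ * z = 0)).resolve_left hδ
    linear_combination h2

theorem vec_add (x y z x' y' z' α : K) :
    vec w a a' x y z + α • vec w a a' x' y' z' = vec w a a' (x + α * x') (y + α * y') (z + α * z') := by
  unfold vec
  module

theorem cov_add (x y z x' y' z' α : K) :
    cov w ψ a a' x y z + α • cov w ψ a a' x' y' z' =
      cov w ψ a a' (x + α * x') (y + α * y') (z + α * z') := by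
  unfold cov
  module

theorem vec_smul (c x y z : K) : c • vec w a a' x y z = vec w a a' (c * x) (c * y) (c * z) := by
  unfold vec
  module

theorem cov_smul (c x y z : K) :
    c • cov w ψ a a' x y z = cov w ψ a a' (c * x) (c * y) (c * z) := by
  unfold cov
  module

/-- the zero pattern of a cross product in a frame -/
theorem vec_cross_ne (F : Frame w ψ a a' δ) {x y z x' y' z' : K}
    (h : y * z' - z * y' ≠ 0 ∨ x * y' - y * x' ≠ 0 ∨ x * z' - z * x' ≠ 0) :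
    vec w a a' x y z ⨯₃ vec w a a' x' y' z' ≠ 0 := by
  rw [vec_cross F]
  intro h0
  obtain ⟨h1, h2, h3⟩ := cov_zero F h0
  rcases h with h | h | h
  · exact h ((mul_eq_zero.1 h1).resolve_left F.ne)
  · exact h h2
  · exact h h3

/-- new frame from an old one -/
theorem Frame.change (F : Frame w ψ a a' δ) {p₁ p₂ p₃ q₁ q₂ q₃ x y z x' y' z' δ' : K}
    (hδ : δ' ≠ 0) (h1 : q₁ * p₁ + δ * (q₂ * p₃ - q₃ * p₂) = 1)
    (h2 : q₁ * x + δ * (q₂ * z - q₃ * y) = 0) (h3 : q₁ * x' + δ * (q₂ * z' - q₃ * y') = 0)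
    (h4 : p₁ * (δ * (y * z' - z * y')) + δ * ((x * y' - y * x') * p₃ - (x * z' - z * x') * p₂) = δ') :
    Frame (vec w a a' p₁ p₂ p₃) (cov w ψ a a' q₁ q₂ q₃) (vec w a a' x y z) (vec w a a' x' y' z')
      δ' := by
  refine ⟨?_, ?_, ?_, ?_, hδ⟩
  · rw [cov_dot F]; exact h1
  · rw [cov_dot F]; exact h2
  · rw [cov_dot F]; exact h3
  · rw [vec_cross F, dotProduct_comm, cov_dot F, ← h4]
    ring

end A

section B
variable {K : Type*} [Field K] [Fintype K] {Pt Ln : Type*} {I : Pt → Ln → Prop}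
variable (H : Hex I (Fintype.card K)) {S : Sub K I}
variable (hstd : ∀ M, BLine S M → ∃ w ψ, Std S M w ψ)
variable {w ψ a a' : Fin 3 → K} {δ : K}

omit [Fintype K] in
theorem stepf_alg (F : Frame w ψ a a' δ) {x y z x' y' z' : K}
    (hd : cov w ψ a a' x' y' z' ⬝ᵥ vec w a a' x y z = 1) (v₁ v₂ v₃ α β : K)
    (hv : v₁ ≠ 0 ∨ v₂ ≠ 0 ∨ v₃ ≠ 0) (hψ : x' * v₁ + δ * (y' * v₃ - z' * v₂) = 0)
    {X Y Z X' Y' Z' : K} (e1 : X = x + α * v₁) (e2 : Y = y + α * v₂) (e3 : Z = z + α * v₃)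
    (e4 : X' = x' + β * (δ * (y * v₃ - z * v₂))) (e5 : Y' = y' + β * (x * v₂ - y * v₁))
    (e6 : Z' = z' + β * (x * v₃ - z * v₁)) :
    vec w a a' X Y Z = vec w a a' x y z + α • vec w a a' v₁ v₂ v₃ ∧
    cov w ψ a a' X' Y' Z' = cov w ψ a a' x' y' z' +
      β • (vec w a a' x y z ⨯₃ vec w a a' v₁ v₂ v₃) ∧
    vec w a a' v₁ v₂ v₃ ≠ 0 ∧ cov w ψ a a' x' y' z' ⬝ᵥ vec w a a' v₁ v₂ v₃ = 0 ∧
    InA (vec w a a' v₁ v₂ v₃) (vec w a a' x y z ⨯₃ vec w a a' v₁ v₂ v₃) (vec w a a' x y z)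
      (cov w ψ a a' x' y' z') ∧
    InA (vec w a a' v₁ v₂ v₃) (vec w a a' x y z ⨯₃ vec w a a' v₁ v₂ v₃) (vec w a a' X Y Z)
      (cov w ψ a a' X' Y' Z') := by
  have E1 : vec w a a' X Y Z = vec w a a' x y z + α • vec w a a' v₁ v₂ v₃ := by
    rw [vec_add, e1, e2, e3]
  have E2 : cov w ψ a a' X' Y' Z' = cov w ψ a a' x' y' z' +
      β • (vec w a a' x y z ⨯₃ vec w a a' v₁ v₂ v₃) := by
    rw [vec_cross F, cov_add, e4, e5, e6]
  have E3 : vec w a a' v₁ v₂ v₃ ≠ 0 := by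
    intro h0
    obtain ⟨h1, h2, h3⟩ := vec_zero F h0
    rcases hv with h | h | h
    · exact h h1
    · exact h h2
    · exact h h3
  have E4 : cov w ψ a a' x' y' z' ⬝ᵥ vec w a a' v₁ v₂ v₃ = 0 := by rw [cov_dot F]; exact hψ
  refine ⟨E1, E2, E3, E4, ⟨E3, hd, E4, rfl⟩, ⟨E3, ?_, ?_, ?_⟩⟩
  · rw [E1, E2, dotProduct_add, add_dotProduct, add_dotProduct, hd, dotProduct_smul, E4,
      smul_dotProduct, uniqL_cross_self_left, dotProduct_smul, smul_dotProduct,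
      uniqL_cross_self_right]
    simp
  · rw [E2, add_dotProduct, E4, smul_dotProduct, uniqL_cross_self_right]
    simp
  · rw [E1, map_add, LinearMap.add_apply, map_smul, LinearMap.smul_apply, cross_self, smul_zero,
      add_zero]

include H hstd

/-- a step in a frame: `(w₁,ψ₁) → (w₁ + α v, ψ₁ + β w₁ × v)` -/
theorem stepf (F : Frame w ψ a a' δ) {M : Ln} {x y z x' y' z' : K}
    (hM : BL S M (vec w a a' x y z) (cov w ψ a a' x' y' z')) (v₁ v₂ v₃ α β : K)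
    (hv : v₁ ≠ 0 ∨ v₂ ≠ 0 ∨ v₃ ≠ 0) (hψ : x' * v₁ + δ * (y' * v₃ - z' * v₂) = 0)
    {X Y Z X' Y' Z' : K} (e1 : X = x + α * v₁) (e2 : Y = y + α * v₂) (e3 : Z = z + α * v₃)
    (e4 : X' = x' + β * (δ * (y * v₃ - z * v₂))) (e5 : Y' = y' + β * (x * v₂ - y * v₁))
    (e6 : Z' = z' + β * (x * v₃ - z * v₁)) :
    BL S (tr S (vec w a a' v₁ v₂ v₃) (vec w a a' X Y Z) (cov w ψ a a' X' Y' Z') M)
        (vec w a a' X Y Z) (cov w ψ a a' X' Y' Z') ∧
      AA S (vec w a a' v₁ v₂ v₃) M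
        (tr S (vec w a a' v₁ v₂ v₃) (vec w a a' X Y Z) (cov w ψ a a' X' Y' Z') M) ∧
      (α = β → Bq S (vec w a a' v₁ v₂ v₃) M
        (tr S (vec w a a' v₁ v₂ v₃) (vec w a a' X Y Z) (cov w ψ a a' X' Y' Z') M)) ∧
      (α ≠ β → Aq S (vec w a a' v₁ v₂ v₃) M
        (tr S (vec w a a' v₁ v₂ v₃) (vec w a a' X Y Z) (cov w ψ a a' X' Y' Z') M)) := by
  obtain ⟨E1, E2, E3, E4, A1, A2⟩ := stepf_alg F hM.2.1 v₁ v₂ v₃ α β hv hψ e1 e2 e3 e4 e5 e6
  have h1 := tr_mem H hstd hM A1 A2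
  have h2 := tr_aa H hstd hM A1 A2
  refine ⟨h1, h2, ?_, ?_⟩
  · intro hαβ
    subst hαβ
    have h1' := h1
    rw [E1, E2] at h1'
    have h2' := h2
    rw [E1, E2] at h2'
    have := bq_of H hM h1' E3 E4 h2'
    rwa [← E1, ← E2] at this
  · intro hαβ
    have h1' := h1
    rw [E1, E2] at h1'
    have h2' := h2
    rw [E1, E2] at h2'
    have := aq_of H hM h1' E3 E4 hαβ h2'
    rwa [← E1, ← E2] at this

/-- a relation in a frame gives the value of the transport -/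
theorem stepf_eq (F : Frame w ψ a a' δ) {M N : Ln} {x y z x' y' z' : K}
    (hM : BL S M (vec w a a' x y z) (cov w ψ a a' x' y' z')) (v₁ v₂ v₃ α β : K)
    (hv : v₁ ≠ 0 ∨ v₂ ≠ 0 ∨ v₃ ≠ 0) (hψ : x' * v₁ + δ * (y' * v₃ - z' * v₂) = 0)
    {X Y Z X' Y' Z' : K} (e1 : X = x + α * v₁) (e2 : Y = y + α * v₂) (e3 : Z = z + α * v₃)
    (e4 : X' = x' + β * (δ * (y * v₃ - z * v₂))) (e5 : Y' = y' + β * (x * v₂ - y * v₁))
    (e6 : Z' = z' + β * (x * v₃ - z * v₁))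
    (hN : BL S N (vec w a a' X Y Z) (cov w ψ a a' X' Y' Z'))
    (h : AA S (vec w a a' v₁ v₂ v₃) M N) :
    tr S (vec w a a' v₁ v₂ v₃) (vec w a a' X Y Z) (cov w ψ a a' X' Y' Z') M = N := by
  obtain ⟨-, -, -, -, A1, A2⟩ := stepf_alg F hM.2.1 v₁ v₂ v₃ α β hv hψ e1 e2 e3 e4 e5 e6
  exact tr_eq H hstd hM A1 A2 hN h

end B

end Pool.Agent.Lib.MP_6b0fe3_coP
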