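import Mathlib

/-! MP_6b0fe3_co, odd order: abstract group lemma -/

namespace Pool.Agent.Lib.MP_6b0fe3_coP

namespace LX

section det

variable {K : Type*} [Field K]

/-- determinant of two vectors -/
def dt (u v : K × K) : K := u.1 * v.2 - u.2 * v.1

theorem dt_add_left (u v w : K × K) : dt (u + v) w = dt u w + dt v w := by
  simp only [dt, Prod.fst_add, Prod.snd_add]; ring

theorem dt_add_right (u v w : K × K) : dt u (v + w) = dt u v + dt u w := by
  simp only [dt, Prod.fst_add, Prod.snd_add]; ring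

theorem dt_sub_left (u v w : K × K) : dt (u - v) w = dt u w - dt v w := by
  simp only [dt, Prod.fst_sub, Prod.snd_sub]; ring

theorem dt_sub_right (u v w : K × K) : dt u (v - w) = dt u v - dt u w := by
  simp only [dt, Prod.fst_sub, Prod.snd_sub]; ring

theorem dt_smul_left (c : K) (u v : K × K) : dt (c • u) v = c * dt u v := by
  simp only [dt, Prod.smul_fst, Prod.smul_snd, smul_eq_mul]; ring

theorem dt_smul_right (c : K) (u v : K × K) : dt u (c • v) = c * dt u v := by
  simp only [dt, Prod.smul_fst, Prod.smul_snd, smul_eq_mul]; ring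

theorem dt_neg_left (u v : K × K) : dt (-u) v = - dt u v := by
  simp only [dt, Prod.fst_neg, Prod.snd_neg]; ring

theorem dt_neg_right (u v : K × K) : dt u (-v) = - dt u v := by
  simp only [dt, Prod.fst_neg, Prod.snd_neg]; ring

theorem dt_self (u : K × K) : dt u u = 0 := by
  simp only [dt]; ring

theorem dt_swap (u v : K × K) : dt v u = - dt u v := by
  simp only [dt]; ring

/-- in the prime field -/
def IsP (t : K) : Prop := ∃ n : ℤ, (n : K) = t

theorem IsP.int (n : ℤ) : IsP (n : K) := ⟨n, rfl⟩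

theorem IsP.neg {t : K} (h : IsP t) : IsP (-t) := by
  obtain ⟨n, rfl⟩ := h
  exact ⟨-n, by push_cast; ring⟩

theorem IsP.add {t s : K} (h : IsP t) (h' : IsP s) : IsP (t + s) := by
  obtain ⟨n, rfl⟩ := h
  obtain ⟨m, rfl⟩ := h'
  exact ⟨n + m, by push_cast; ring⟩

theorem IsP.sub {t s : K} (h : IsP t) (h' : IsP s) : IsP (t - s) := by
  obtain ⟨n, rfl⟩ := h
  obtain ⟨m, rfl⟩ := h'
  exact ⟨n - m, by push_cast; ring⟩

theorem IsP.zero : IsP (0 : K) := ⟨0, by simp⟩

theorem IsP.one : IsP (1 : K) := ⟨1, by simp⟩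

end det

/-- the hypotheses of Lemma X -/
structure Hyp {K : Type*} [Field K] {G : Type*} [Group G] (x : K × K → G) : Prop where
  h0 : ∀ u v : K × K, dt u v = 0 → x u * x v = x (u + v)
  h1 : ∀ u v : K × K, dt u v = 1 → x u * x v = x (u + v)

namespace Hyp

variable {K : Type*} [Field K] {G : Type*} [Group G] {x : K × K → G}

theorem zero (H : Hyp x) : x 0 = 1 := by
  have h := H.h0 0 0 (dt_self 0)
  rw [add_zero] at h
  exact mul_eq_left.mp h

theorem nsmul (H : Hyp x) (w : K × K) (k : ℕ) : x w ^ k = x ((k : K) • w) := by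
  induction k with
  | zero => simp [H.zero]
  | succ k ih =>
    rw [pow_succ, ih, H.h0]
    · congr 1
      rw [Nat.cast_succ, add_smul, one_smul]
    · rw [dt_smul_left, dt_self, mul_zero]

theorem add_nsmul (H : Hyp x) {u w : K × K} (h : dt u w = 1) (k : ℕ) :
    x u * x w ^ k = x (u + (k : K) • w) := by
  induction k with
  | zero => simp
  | succ k ih =>
    rw [pow_succ, ← mul_assoc, ih, H.h1]
    · congr 1
      rw [Nat.cast_succ, add_smul, one_smul, add_assoc]
    · rw [dt_add_left, dt_smul_left, dt_self, mul_zero, add_zero, h]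

theorem addP (H : Hyp x) {p : ℕ} [Fact p.Prime] [CharP K p] {u v : K × K} (h : IsP (dt u v)) :
    x u * x v = x (u + v) := by
  obtain ⟨n, hn⟩ := h
  by_cases h0 : dt u v = 0
  · exact H.h0 u v h0
  have hp : (p : ℤ) ≠ 0 := by exact_mod_cast (Fact.out : p.Prime).ne_zero
  obtain ⟨m, hm⟩ : ∃ m : ℕ, (m : K) = dt u v := by
    refine ⟨(n % p).toNat, ?_⟩
    have h1 : ((n % p).toNat : ℤ) = n % p := Int.toNat_of_nonneg (Int.emod_nonneg _ hp)
    have h2 : (((n % p).toNat : ℤ) : K) = ((n % p : ℤ) : K) := by rw [h1]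
    rw [Int.cast_natCast] at h2
    rw [h2, ← hn]
    have h3 : ((n : ℤ) : K) = ((n % p + p * (n / p) : ℤ) : K) := by rw [Int.emod_add_mul_ediv]
    rw [h3]
    push_cast
    rw [CharP.cast_eq_zero K p, zero_mul, add_zero]
  have hm0 : (m : K) ≠ 0 := by rw [hm]; exact h0
  have hv : v = (m : K) • ((m : K)⁻¹ • v) := by
    rw [smul_smul, mul_inv_cancel₀ hm0, one_smul]
  have h1 : dt u ((m : K)⁻¹ • v) = 1 := by
    rw [dt_smul_right, ← hm, inv_mul_cancel₀ hm0]
  have h2 := H.add_nsmul h1 m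
  rw [H.nsmul, ← hv] at h2
  exact h2

variable {p : ℕ} [Fact p.Prime] [CharP K p]

include p in
theorem comm (H : Hyp x) {u v : K × K} (h : IsP (dt u v)) : x u * x v = x v * x u := by
  rw [H.addP (p := p) h, H.addP (p := p) (u := v) (v := u) (by rw [dt_swap]; exact h.neg), add_comm]

theorem neg (H : Hyp x) (w : K × K) : x (-w) = (x w)⁻¹ := by
  have h := H.h0 w (-w) (by rw [dt_neg_right, dt_self, neg_zero])
  rw [add_neg_cancel, H.zero] at h
  exact (inv_eq_of_mul_eq_one_right h).symm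

end Hyp

/-- the defect -/
def C {K : Type*} [Field K] {G : Type*} [Group G] (x : K × K → G) (u z : K × K) : G :=
  x u * x (z - u) * (x z)⁻¹

section moves

variable {K : Type*} [Field K] {G : Type*} [Group G] {x : K × K → G}
  {p : ℕ} [Fact p.Prime] [CharP K p]

include p in
/-- first move -/
theorem moveA (H : Hyp x) {u z w : K × K} (h1 : IsP (dt u w)) (h2 : IsP (dt z w)) :
    C x u (z + w) = C x u z := by
  have e1 : z + w - u = (z - u) + w := by abel
  unfold C
  rw [e1, ← H.addP (p := p) (u := z - u) (v := w) (by rw [dt_sub_left]; exact h2.sub h1),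
    ← H.addP (p := p) h2]
  group

include p in
/-- second move -/
theorem moveB (H : Hyp x) {u z w : K × K} (h1 : IsP (dt u w)) (h2 : IsP (dt z w)) :
    C x (u + w) z = C x u z := by
  have e1 : z - (u + w) = (-w) + (z - u) := by abel
  unfold C
  have e2 : dt (-w) (z - u) = dt z w - dt u w := by
    simp only [dt, Prod.fst_neg, Prod.snd_neg, Prod.fst_sub, Prod.snd_sub]; ring
  rw [e1, ← H.addP (p := p) (u := -w) (v := z - u) (by rw [e2]; exact h2.sub h1),
    ← H.addP (p := p) h1, H.neg]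
  group

include p in
theorem C_eq_one (H : Hyp x) {u z : K × K} (h : IsP (dt u z)) : C x u z = 1 := by
  have h1 : x u * x (z - u) = x z := by
    rw [H.addP (p := p) (by rw [dt_sub_right, dt_self, sub_zero]; exact h), add_sub_cancel]
  unfold C
  rw [h1, mul_inv_cancel]

include p in
theorem C_comm (H : Hyp x) {u z v : K × K} (h1 : IsP (dt v u)) (h2 : IsP (dt v z)) :
    Commute (C x u z) (x v) := by
  have c1 : Commute (x u) (x v) := (H.comm (p := p) h1).symm
  have c2 : Commute (x z) (x v) := (H.comm (p := p) h2).symm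
  have c3 : Commute (x (z - u)) (x v) :=
    (H.comm (p := p) (by rw [dt_sub_right]; exact h2.sub h1)).symm
  exact (c1.mul_left c3).mul_left c2.inv_left

theorem ne_zero_of_not_isP {t : K} (ht : ¬ IsP t) : t ≠ 0 := fun h => ht (h ▸ IsP.zero)

theorem al_ne_zero {t : K} (ht : ¬ IsP t) (n : ℤ) : 1 + n * t⁻¹ ≠ 0 := by
  have h0 := ne_zero_of_not_isP ht
  intro h
  apply ht
  refine ⟨-n, ?_⟩
  have h1 : (1 + n * t⁻¹) * t = 0 := by rw [h, zero_mul]
  rw [add_mul, mul_assoc, inv_mul_cancel₀ h0, mul_one, one_mul] at h1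
  push_cast
  linear_combination -h1

include p in
theorem scale (H : Hyp x) {t : K} (ht : ¬ IsP t) {u z : K × K} (h : dt u z = t) (n : ℤ) :
    C x ((1 + n * t⁻¹)⁻¹ • u) ((1 + n * t⁻¹) • z) = C x u z := by
  have h0 := ne_zero_of_not_isP ht
  have ha := al_ne_zero ht n
  have e1 : (1 + n * t⁻¹) • z = z + (n * t⁻¹) • z := by rw [add_smul, one_smul]
  have m1 : C x u ((1 + n * t⁻¹) • z) = C x u z := by
    rw [e1]
    apply moveA (p := p) H
    · rw [dt_smul_right, h, mul_assoc, inv_mul_cancel₀ h0, mul_one]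
      exact IsP.int n
    · rw [dt_smul_right, dt_self, mul_zero]
      exact IsP.zero
  rw [← m1]
  set al : K := 1 + n * t⁻¹ with hal
  have e2 : al⁻¹ • u = u + (-(n * t⁻¹ * al⁻¹)) • u := by
    rw [show u + (-(n * t⁻¹ * al⁻¹)) • u = (1 - n * t⁻¹ * al⁻¹) • u by
      rw [sub_smul, one_smul, neg_smul, sub_eq_add_neg]]
    congr 1
    have e3 : n * t⁻¹ = al - 1 := by rw [hal]; ring
    rw [e3, sub_mul, mul_inv_cancel₀ ha]
    ring
  rw [e2]
  apply moveB (p := p) H
  · rw [dt_smul_right, dt_self, mul_zero]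
    exact IsP.zero
  · rw [dt_smul_right, dt_smul_left, dt_swap, h]
    have : -(n * t⁻¹ * al⁻¹) * (al * -t) = n := by
      field_simp
    rw [this]
    exact IsP.int n

/-- the stabilizing additive group -/
def L (x : K × K → G) (t : K) : Set K :=
  {l | ∀ u z : K × K, dt u z = t → C x u (z + l • u) = C x u z}

theorem dt_shift {t l : K} {u z : K × K} (h : dt u z = t) : dt u (z + l • u) = t := by
  rw [dt_add_right, dt_smul_right, dt_self, mul_zero, add_zero, h]

theorem L_zero (x : K × K → G) (t : K) : (0 : K) ∈ L x t := by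
  intro u z _
  simp

theorem L_add {t l m : K} (hl : l ∈ L x t) (hm : m ∈ L x t) : l + m ∈ L x t := by
  intro u z h
  rw [add_smul, ← add_assoc, hm u _ (dt_shift h), hl u z h]

theorem L_neg {t l : K} (hl : l ∈ L x t) : -l ∈ L x t := by
  intro u z h
  have := hl u (z + (-l) • u) (dt_shift h)
  rw [add_assoc, ← add_smul, neg_add_cancel, zero_smul, add_zero] at this
  exact this.symm

theorem L_sub {t l m : K} (hl : l ∈ L x t) (hm : m ∈ L x t) : l - m ∈ L x t := by
  rw [sub_eq_add_neg]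
  exact L_add hl (L_neg hm)

theorem L_nsmul {t l : K} (hl : l ∈ L x t) (k : ℕ) : (k : K) * l ∈ L x t := by
  induction k with
  | zero => simpa using L_zero x t
  | succ k ih =>
    rw [Nat.cast_succ, add_mul, one_mul]
    exact L_add ih hl

include p in
theorem L_s (H : Hyp x) {t : K} (ht : ¬ IsP t) : t⁻¹ ∈ L x t := by
  have h0 := ne_zero_of_not_isP ht
  intro u z h
  apply moveA (p := p) H
  · rw [dt_smul_right, dt_self, mul_zero]
    exact IsP.zero
  · rw [dt_smul_right, dt_swap, h, mul_neg, inv_mul_cancel₀ h0]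
    exact IsP.one.neg

include p in
theorem L_sq (H : Hyp x) {t : K} (ht : ¬ IsP t) (n : ℤ) {l : K} (hl : l ∈ L x t) :
    (1 + n * t⁻¹) ^ 2 * l ∈ L x t := by
  have ha := al_ne_zero ht n
  intro u z h
  set al : K := 1 + n * t⁻¹ with hal
  have k1 : dt (al • u) (al⁻¹ • z) = t := by
    rw [dt_smul_left, dt_smul_right, ← mul_assoc, mul_inv_cancel₀ ha, one_mul, h]
  have k2 := scale (p := p) H ht k1 n
  rw [← hal, smul_smul, smul_smul, inv_mul_cancel₀ ha, mul_inv_cancel₀ ha, one_smul,
    one_smul] at k2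
  have k3 := scale (p := p) H ht (dt_shift (l := l) k1) n
  rw [← hal, smul_add, smul_smul, smul_smul, inv_mul_cancel₀ ha, mul_inv_cancel₀ ha, one_smul,
    one_smul, hl _ _ k1, smul_smul, smul_smul] at k3
  rw [k2, ← k3]
  congr 3
  ring

include p in
theorem L_mul (H : Hyp x) (hp2 : p ≠ 2) {t : K} (ht : ¬ IsP t) {l : K} (hl : l ∈ L x t) :
    t⁻¹ * l ∈ L x t := by
  have h1 := L_sq (p := p) H ht 1 hl
  have h2 := L_sq (p := p) H ht (-1) hl
  have h3 := L_sub h1 h2
  obtain ⟨r, hr⟩ : ∃ r : ℕ, p + 1 = 2 * r := by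
    obtain ⟨r, hr⟩ := (Fact.out : p.Prime).odd_of_ne_two hp2
    exact ⟨r + 1, by omega⟩
  have hr' : (2 : K) * r = 1 := by
    have : ((p + 1 : ℕ) : K) = ((2 * r : ℕ) : K) := by rw [hr]
    push_cast at this
    rw [CharP.cast_eq_zero K p, zero_add] at this
    exact this.symm
  have h4 := L_nsmul h3 (r ^ 2)
  have e : ((r ^ 2 : ℕ) : K) * ((1 + ((1 : ℤ) : K) * t⁻¹) ^ 2 * l - (1 + ((-1 : ℤ) : K) * t⁻¹) ^ 2 * l)
      = t⁻¹ * l := by
    push_cast
    linear_combination (t⁻¹ * l) * ((2 : K) * r + 1) * hr'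
  rw [e] at h4
  exact h4

include p in
theorem L_pow (H : Hyp x) (hp2 : p ≠ 2) {t : K} (ht : ¬ IsP t) (k : ℕ) :
    t⁻¹ ^ (k + 1) ∈ L x t := by
  induction k with
  | zero => simpa using L_s (p := p) H ht
  | succ k ih =>
    rw [pow_succ']
    exact L_mul (p := p) H hp2 ht ih

include p in
theorem L_one [Finite K] (H : Hyp x) (hp2 : p ≠ 2) {t : K} (ht : ¬ IsP t) :
    (1 : K) ∈ L x t ∧ t ∈ L x t := by
  have h0 := ne_zero_of_not_isP ht
  have : Fintype K := Fintype.ofFinite K
  have hc : 1 < Fintype.card K := Fintype.one_lt_card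
  obtain ⟨N, hN⟩ : ∃ N, Fintype.card K - 1 = N + 1 := ⟨Fintype.card K - 2, by omega⟩
  have h1 : t⁻¹ ^ (N + 1) = 1 := by
    rw [← hN]
    exact FiniteField.pow_card_sub_one_eq_one _ (inv_ne_zero h0)
  constructor
  · rw [← h1]
    exact L_pow (p := p) H hp2 ht N
  · have h2 := L_pow (p := p) H hp2 ht (2 * N)
    have h3 : t⁻¹ ^ (2 * N + 1) = t := by
      have h4 : t⁻¹ ^ (2 * N + 1) * t⁻¹ = 1 := by
        rw [← pow_succ, show 2 * N + 1 + 1 = (N + 1) * 2 by ring, pow_mul, h1, one_pow]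
      calc t⁻¹ ^ (2 * N + 1) = t⁻¹ ^ (2 * N + 1) * t⁻¹ * t := by
            rw [mul_assoc, inv_mul_cancel₀ h0, mul_one]
        _ = t := by rw [h4, one_mul]
    rw [h3] at h2
    exact h2

include p in
theorem main [Finite K] (H : Hyp x) (hp2 : p ≠ 2) (u z : K × K) : C x u z ^ p = 1 := by
  by_cases ht : IsP (dt u z)
  · rw [C_eq_one (p := p) H ht, one_pow]
  have h0 := ne_zero_of_not_isP ht
  set t : K := dt u z with htd
  obtain ⟨hL1, hLt⟩ := L_one (p := p) H hp2 ht
  -- C commutes with x u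
  have c1 : Commute (C x u z) (x (t⁻¹ • z)) := by
    apply C_comm (p := p) H
    · rw [dt_smul_left, dt_swap, ← htd, mul_neg, inv_mul_cancel₀ h0]
      exact IsP.one.neg
    · rw [dt_smul_left, dt_self, mul_zero]
      exact IsP.zero
  have c2 : Commute (C x u z) (x (t⁻¹ • z + u)) := by
    rw [← hLt u z htd.symm]
    have e : t⁻¹ • z + u = t⁻¹ • (z + t • u) := by
      rw [smul_add, smul_smul, inv_mul_cancel₀ h0, one_smul]
    rw [e]
    apply C_comm (p := p) H
    · rw [dt_smul_left, dt_swap, dt_shift htd.symm, mul_neg, inv_mul_cancel₀ h0]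
      exact IsP.one.neg
    · rw [dt_smul_left, dt_self, mul_zero]
      exact IsP.zero
  have c3 : Commute (C x u z) (x u) := by
    have e : x (t⁻¹ • z + u) = x (t⁻¹ • z) * x u := by
      rw [H.addP (p := p)]
      rw [dt_smul_left, dt_swap, ← htd, mul_neg, inv_mul_cancel₀ h0]
      exact IsP.one.neg
    have e' : x u = (x (t⁻¹ • z))⁻¹ * x (t⁻¹ • z + u) := by rw [e, inv_mul_cancel_left]
    rw [e']
    exact c1.inv_right.mul_right c2
  have key : ∀ k : ℕ, x u ^ k * x (z - u) = C x u z ^ k * x (z - u + (k : K) • u) := by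
    intro k
    induction k with
    | zero => simp
    | succ k ih =>
      have hk : C x u (z + (k : K) • u) = C x u z := by
        have := L_nsmul hL1 k
        rw [mul_one] at this
        exact this u z htd.symm
      have e1 : z + (k : K) • u - u = z - u + (k : K) • u := by abel
      have e2 : z + (k : K) • u = z - u + ((k + 1 : ℕ) : K) • u := by
        rw [Nat.cast_succ, add_smul, one_smul]; abel
      have e3 : x u * x (z - u + (k : K) • u) = C x u z * x (z - u + ((k + 1 : ℕ) : K) • u) := by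
        rw [← hk, ← e2]
        unfold C
        rw [e1, inv_mul_cancel_right]
      rw [pow_succ' (x u), mul_assoc, ih, ← mul_assoc, ← (c3.pow_left k).eq, mul_assoc, e3,
        ← mul_assoc, ← pow_succ]
  have h1 := key p
  rw [H.nsmul, CharP.cast_eq_zero K p, zero_smul, add_zero, H.zero, one_mul] at h1
  exact (mul_eq_right.mp h1.symm)

end moves

end LX

/-- Lemma X. -/
theorem lemX {K : Type*} [Field K] [Finite K] {p : ℕ} [Fact p.Prime] [CharP K p] (hp2 : p ≠ 2)
    {G : Type*} [Group G] (x : K × K → G)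
    (h0 : ∀ u v : K × K, u.1 * v.2 - u.2 * v.1 = 0 → x u * x v = x (u + v))
    (h1 : ∀ u v : K × K, u.1 * v.2 - u.2 * v.1 = 1 → x u * x v = x (u + v)) (u v : K × K) :
    (x u * x v * (x (u + v))⁻¹) ^ p = 1 := by
  have h := LX.main (p := p) (x := x) ⟨h0, h1⟩ hp2 u (u + v)
  unfold LX.C at h
  rwa [add_sub_cancel_left] at h

end Pool.Agent.Lib.MP_6b0fe3_coP
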