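import Pool.Agent.Lib.MP_6b0fe3_coP.GlueU
import Pool.Agent.Lib.MP_6b0fe3_coP.LemX

/-! MP_6b0fe3_co, odd order: triangles of steps have no monodromy -/

namespace Pool.Agent.Lib.MP_6b0fe3_coP

open Matrix Pool.Agent.Lib.MP_6b0fe3_coR

/-- a permutation of order dividing a prime `p ≥ 5` fixes all points with at most three images -/
theorem perm_fix {E : Type*} (c : Equiv.Perm E) {p : ℕ} (hp : p.Prime) (hp2 : p ≠ 2)
    (hp3 : p ≠ 3) (hcp : c ^ p = 1) (e A B C : E)
    (hmem : ∀ n : ℕ, (c ^ n) e = A ∨ (c ^ n) e = B ∨ (c ^ n) e = C) : c e = e := by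
  classical
  have hcard : ({A, B, C} : Finset E).card < (Finset.range 4).card := by
    rw [Finset.card_range]
    exact lt_of_le_of_lt Finset.card_le_three (by norm_num)
  obtain ⟨i, hi, j, hj, hij, he⟩ := Finset.exists_ne_map_eq_of_card_lt_of_maps_to hcard
    (f := fun n => (c ^ n) e) (by
      intro n _
      simp only [Finset.coe_insert, Finset.coe_singleton, Set.mem_insert_iff,
        Set.mem_singleton_iff]
      exact hmem n)
  have hex : ∃ k : ℕ, 1 ≤ k ∧ k ≤ 3 ∧ (c ^ k) e = e := by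
    have aux : ∀ i j : ℕ, i < j → j < 4 → (c ^ i) e = (c ^ j) e →
        ∃ k : ℕ, 1 ≤ k ∧ k ≤ 3 ∧ (c ^ k) e = e := by
      intro i j hlt hj4 he
      refine ⟨j - i, by omega, by omega, ?_⟩
      have hj' : j = i + (j - i) := by omega
      rw [hj', pow_add, Equiv.Perm.mul_apply] at he
      exact ((c ^ i).injective he).symm
    rw [Finset.mem_range] at hi hj
    rcases lt_or_gt_of_ne hij with h | h
    · exact aux i j h hj he
    · exact aux j i h hi he.symm
  obtain ⟨k, hk1, hk3, hk⟩ := hex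
  have h1 : Function.IsPeriodicPt c k e := by
    rw [Function.IsPeriodicPt, Function.IsFixedPt, Equiv.Perm.iterate_eq_pow]
    exact hk
  have h2 : Function.IsPeriodicPt c p e := by
    rw [Function.IsPeriodicPt, Function.IsFixedPt, Equiv.Perm.iterate_eq_pow, hcp]
    rfl
  have h3 := h1.gcd h2
  have hg : k.gcd p = 1 := by
    have hcop : Nat.Coprime p k := by
      rw [Nat.Prime.coprime_iff_not_dvd hp]
      intro hd
      have hle := Nat.le_of_dvd (by omega) hd
      have h2le := hp.two_le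
      omega
    exact hcop.symm
  rw [hg] at h3
  exact h3

section B
variable {K : Type*} [Field K] [Fintype K] {Pt Ln : Type*} {I : Pt → Ln → Prop}
variable (H : Hex I (Fintype.card K)) {S : Sub K I}
variable (hstd : ∀ M, BLine S M → ∃ w ψ, Std S M w ψ)
variable {ω υ : K} (hc : Cub ω υ) (h3 : Three S)
variable {w ψ : Fin 3 → K} {M : Ln}
include H hstd

/-- transport along a multiple -/
theorem trv_smul {x v : Fin 3 → K} {N : Ln} (c : K) (h : ψ ⬝ᵥ x = 1) (hv : ψ ⬝ᵥ v = 0)
    (hN : BL S N x ψ) : tr S (c • v) (x + c • v) ψ N = tr S v (x + c • v) ψ N := by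
  by_cases hc0 : c = 0
  · rw [hc0, zero_smul, add_zero, tr_zero, trv_self H hstd h hv hN]
  · exact tr_smul hc0

/-- transports along parallel vectors -/
theorem trv_par {x u v : Fin 3 → K} {N : Ln} (h : ψ ⬝ᵥ x = 1) (hv : ψ ⬝ᵥ v = 0)
    (hN : BL S N x ψ) (v0 : v ≠ 0) (huv : ∃ c : K, u = c • v) :
    tr S u (x + v + u) ψ (tr S v (x + v) ψ N) = tr S (v + u) (x + (v + u)) ψ N := by
  obtain ⟨c, rfl⟩ := huv
  have m1 : BL S (tr S v (x + v) ψ N) (x + v) ψ :=
    trv_mem H hstd (c := 1) h hv (by rw [one_smul]) hN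
  have hxv : ψ ⬝ᵥ (x + v) = 1 := by rw [dotProduct_add, h, hv, add_zero]
  have e1 : v + c • v = (1 + c) • v := by module
  rw [trv_smul H hstd c hxv hv m1, e1, trv_smul H hstd (1 + c) h hv hN]
  have e2 : x + v + c • v = x + (1 + c) • v := by module
  rw [e2]
  exact trv_trv H hstd (c := 1) (d := 1 + c) h hv (by rw [one_smul]) rfl hN

variable (S ψ) in
omit [Fintype K] H hstd in
/-- B-lines with covector `ψ` -/
def EF : Type _ := {e : (Fin 3 → K) × Ln // ψ ⬝ᵥ e.1 = 1 ∧ BL S e.2 e.1 ψ}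

/-- the transport as a permutation -/
noncomputable def TT (u : Fin 3 → K) (hu : ψ ⬝ᵥ u = 0) : Equiv.Perm (EF S ψ) where
  toFun e := ⟨(e.1.1 + u, tr S u (e.1.1 + u) ψ e.1.2),
    by rw [dotProduct_add, e.2.1, hu, add_zero],
    trv_mem H hstd (c := 1) e.2.1 hu (by rw [one_smul]) e.2.2⟩
  invFun e := ⟨(e.1.1 - u, tr S u (e.1.1 - u) ψ e.1.2),
    by rw [dotProduct_sub, e.2.1, hu, sub_zero],
    trv_mem H hstd (c := -1) e.2.1 hu (by rw [neg_smul, one_smul, sub_eq_add_neg]) e.2.2⟩
  left_inv e := by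
    apply Subtype.ext
    apply Prod.ext
    · change e.1.1 + u - u = e.1.1
      abel
    · change tr S u (e.1.1 + u - u) ψ (tr S u (e.1.1 + u) ψ e.1.2) = e.1.2
      rw [trv_trv H hstd (c := 1) (d := 0) e.2.1 hu (by rw [one_smul])
        (by rw [zero_smul]; abel) e.2.2, add_sub_cancel_right]
      exact trv_self H hstd e.2.1 hu e.2.2
  right_inv e := by
    apply Subtype.ext
    apply Prod.ext
    · change e.1.1 - u + u = e.1.1
      abel
    · change tr S u (e.1.1 - u + u) ψ (tr S u (e.1.1 - u) ψ e.1.2) = e.1.2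
      rw [trv_trv H hstd (c := -1) (d := 0) e.2.1 hu
        (by rw [neg_smul, one_smul, sub_eq_add_neg]) (by rw [zero_smul]; abel) e.2.2,
        sub_add_cancel]
      exact trv_self H hstd e.2.1 hu e.2.2

include hc h3

/-- no monodromy in the triangles of area `3 δ` -/
theorem unit_tri {u u' : Fin 3 → K} (h : ψ ⬝ᵥ w = 1) (hu : ψ ⬝ᵥ u = 0) (hu' : ψ ⬝ᵥ u' = 0)
    (huu : w ⬝ᵥ (u ⨯₃ u') = 3 * (υ - ω)) (hM : BL S M w ψ) :
    tr S (u' - u) (w + u') ψ (tr S u (w + u) ψ M) = tr S u' (w + u') ψ M :=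
  unit_tri' H hstd hc h3 h hu hu' huu hM

/-- no monodromy in the triangle `w, w + u, w + u'` -/
theorem split_tri (h2 : (2 : K) ≠ 0) {u u' : Fin 3 → K} (h : ψ ⬝ᵥ w = 1) (hu : ψ ⬝ᵥ u = 0)
    (hu' : ψ ⬝ᵥ u' = 0) (huu : u ⨯₃ u' ≠ 0) (hM : BL S M w ψ) :
    tr S (u' - u) (w + u') ψ (tr S u (w + u) ψ M) = tr S u' (w + u') ψ M := by
  obtain ⟨p, hp⟩ := CharP.exists K
  have hpp : Fact p.Prime := ⟨CharP.char_is_prime K p⟩
  have hcast := CharP.cast_eq_zero K p
  have hp2 : p ≠ 2 := by
    rintro rfl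
    exact h2 (by exact_mod_cast hcast)
  have hp3 : p ≠ 3 := by
    rintro rfl
    exact hc.three (by exact_mod_cast hcast)
  have hδ : υ - ω ≠ 0 := hc.sub_ne
  have h3δ : -(3 * (υ - ω)) ≠ 0 := neg_ne_zero.2 (mul_ne_zero hc.three hδ)
  -- the determinant
  have hκ : w ⬝ᵥ (u ⨯₃ u') ≠ 0 := by
    intro h0
    apply huu
    have hcr := cramer w ψ u u'
    rw [h0, zero_smul, h, hu, hu', zero_smul, zero_smul, add_zero, add_zero, one_smul] at hcr
    exact hcr.symm
  set κ := w ⬝ᵥ (u ⨯₃ u') with hκd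
  set s : K := -(3 * (υ - ω)) / κ with hs
  have hs0 : s ≠ 0 := div_ne_zero h3δ hκ
  have F : Frame w ψ u (s • u') (-(3 * (υ - ω))) := by
    refine ⟨h, hu, ?_, ?_, h3δ⟩
    · rw [dotProduct_smul, hu', smul_zero]
    · rw [map_smul, dotProduct_smul, ← hκd, smul_eq_mul, hs, div_mul_cancel₀ _ hκ]
  have hcross := F.cross
  -- the vectors of the plane
  set V : K × K → (Fin 3 → K) := fun z => z.1 • u + z.2 • (s • u') with hV
  have hV0 : ∀ z, ψ ⬝ᵥ V z = 0 := by
    intro z
    simp only [hV, dotProduct_add, dotProduct_smul, hu, hu', smul_zero, add_zero]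
  have hVadd : ∀ z z', V (z + z') = V z + V z' := by
    intro z z'
    simp only [hV, Prod.fst_add, Prod.snd_add]
    module
  have hVcross : ∀ z z' : K × K, V z ⨯₃ V z' = (z.1 * z'.2 - z.2 * z'.1) • (u ⨯₃ (s • u')) := by
    intro z z'
    have h1 : u' ⨯₃ u = - (u ⨯₃ u') := (cross_anticomm u u').symm
    simp only [hV, map_add, LinearMap.add_apply, map_smul, LinearMap.smul_apply, cross_self, h1]
    module
  set X : K × K → Equiv.Perm (EF S ψ) := fun z => TT H hstd (V z) (hV0 z) with hX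
  have hX1 : ∀ z (e : EF S ψ), (X z e).1.1 = e.1.1 + V z := fun z e => rfl
  have hX2 : ∀ z (e : EF S ψ), (X z e).1.2 = tr S (V z) (e.1.1 + V z) ψ e.1.2 := fun z e => rfl
  have h0 : ∀ y z : K × K, y.1 * z.2 - y.2 * z.1 = 0 → X y * X z = X (y + z) := by
    intro y z hyz
    apply Equiv.ext
    intro e
    rw [Equiv.Perm.mul_apply]
    apply Subtype.ext
    apply Prod.ext
    · rw [hX1, hX1, hX1, hVadd]; abel
    · rw [hX2, hX2, hX1, hX2, hVadd]
      by_cases hz : V z = 0
      · rw [hz, add_zero, add_zero, tr_zero]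
      · have hcr0 := hVcross y z
        rw [hyz, zero_smul] at hcr0
        obtain ⟨c, hcv⟩ : ∃ c : K, V y = c • V z := by
          -- coordinates
          have hz0 : z ≠ 0 := by
            rintro rfl
            apply hz
            simp [hV]
          by_cases hz1 : z.1 = 0
          · have hz2 : z.2 ≠ 0 := by
              intro h
              exact hz0 (Prod.ext hz1 h)
            have hy1 : y.1 = 0 := by
              rw [hz1, mul_zero, sub_zero] at hyz
              exact (mul_eq_zero.1 hyz).resolve_right hz2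
            refine ⟨y.2 / z.2, ?_⟩
            simp only [hV, hz1, hy1, zero_smul, zero_add]
            rw [smul_smul (y.2 / z.2), div_mul_cancel₀ _ hz2]
          · refine ⟨y.1 / z.1, ?_⟩
            have hy2 : y.2 = y.1 / z.1 * z.2 := by
              field_simp
              linear_combination -hyz
            simp only [hV]
            rw [smul_add, smul_smul (y.1 / z.1), smul_smul (y.1 / z.1), div_mul_cancel₀ _ hz1,
              ← hy2]
        rw [add_comm (V y) (V z)]
        exact trv_par H hstd e.2.1 (hV0 z) e.2.2 hz ⟨c, hcv⟩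
  have h1 : ∀ y z : K × K, y.1 * z.2 - y.2 * z.1 = 1 → X y * X z = X (y + z) := by
    intro y z hyz
    apply Equiv.ext
    intro e
    rw [Equiv.Perm.mul_apply]
    apply Subtype.ext
    apply Prod.ext
    · rw [hX1, hX1, hX1, hVadd]; abel
    · rw [hX2, hX2, hX1, hX2, hVadd]
      have hdet : e.1.1 ⬝ᵥ (V z ⨯₃ (V y + V z)) = 3 * (υ - ω) := by
        have e1 : V z ⨯₃ (V y + V z) = - (V y ⨯₃ V z) := by
          rw [map_add, cross_self, add_zero, cross_anticomm]
        rw [e1, hVcross, hyz, one_smul, hcross, dotProduct_neg, dotProduct_smul, dotProduct_comm,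
          e.2.1, smul_eq_mul, mul_one, neg_neg]
      have hun := unit_tri H hstd hc h3 e.2.1 (hV0 z)
        (by rw [dotProduct_add, hV0, hV0, add_zero]) hdet e.2.2
      rw [add_sub_cancel_right] at hun
      rw [← hun]
      have e2 : e.1.1 + V z + V y = e.1.1 + (V y + V z) := by abel
      rw [e2]
  have hlem := lemX (p := p) hp2 X h0 h1
  -- the commutator is trivial
  have hone : ∀ y z : K × K, X y * X z = X (y + z) := by
    intro y z
    set c := X y * X z * (X (y + z))⁻¹ with hcd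
    have hcp : c ^ p = 1 := hlem y z
    have hfst : ∀ e : EF S ψ, (c e).1.1 = e.1.1 := by
      intro e
      rw [hcd, Equiv.Perm.mul_apply, Equiv.Perm.mul_apply, hX1, hX1]
      have hinv : ((X (y + z))⁻¹ e).1.1 + V (y + z) = e.1.1 := by
        rw [← hX1, ← Equiv.Perm.mul_apply, mul_inv_cancel]
        rfl
      rw [← hinv, hVadd]
      abel
    have hfstn : ∀ (n : ℕ) (e : EF S ψ), ((c ^ n) e).1.1 = e.1.1 := by
      intro n
      induction n with
      | zero => intro e; rfl
      | succ n ih =>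
        intro e
        rw [pow_succ, Equiv.Perm.mul_apply, ih, hfst]
    have hc1 : c = 1 := by
      apply Equiv.ext
      intro e
      obtain ⟨M₁, M₂, M₃, -, -, -, hall⟩ := h3 e.1.1 ψ e.2.1
      have b1 : BL S M₁ e.1.1 ψ := (hall M₁).2 (Or.inl rfl)
      have b2 : BL S M₂ e.1.1 ψ := (hall M₂).2 (Or.inr (Or.inl rfl))
      have b3 : BL S M₃ e.1.1 ψ := (hall M₃).2 (Or.inr (Or.inr rfl))
      refine perm_fix c hpp.out hp2 hp3 hcp e ⟨(e.1.1, M₁), e.2.1, b1⟩ ⟨(e.1.1, M₂), e.2.1, b2⟩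
        ⟨(e.1.1, M₃), e.2.1, b3⟩ ?_
      intro n
      have hn := hfstn n e
      have hbl := ((c ^ n) e).2.2
      rw [hn] at hbl
      rcases (hall _).1 hbl with hh | hh | hh
      · exact Or.inl (Subtype.ext (Prod.ext hn hh))
      · exact Or.inr (Or.inl (Subtype.ext (Prod.ext hn hh)))
      · exact Or.inr (Or.inr (Subtype.ext (Prod.ext hn hh)))
    rw [hcd] at hc1
    rwa [mul_inv_eq_one] at hc1
  -- the triangle
  have hfin := hone (-1, s⁻¹) (1, 0)
  have v1 : V (-1, s⁻¹) = u' - u := by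
    simp only [hV]
    rw [smul_smul s⁻¹, inv_mul_cancel₀ hs0]
    module
  have v2 : V (1, 0) = u := by
    simp only [hV]
    module
  have v3 : V ((-1, s⁻¹) + (1, 0)) = u' := by
    rw [hVadd, v1, v2]
    abel
  have happ := congrArg (fun g : Equiv.Perm (EF S ψ) => (g ⟨(w, M), h, hM⟩).1.2) hfin
  simp only [Equiv.Perm.mul_apply] at happ
  rw [hX2, hX1, hX2, hX2, v3, v2, v1] at happ
  have e3 : w + u + (u' - u) = w + u' := by abel
  change tr S (u' - u) (w + u + (u' - u)) ψ (tr S u (w + u) ψ M) = tr S u' (w + u') ψ M at happ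
  rw [e3] at happ
  exact happ

end B

end Pool.Agent.Lib.MP_6b0fe3_coP
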