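import Mathlib

/-! MP_6b0fe3_co, odd order: abstract lemma on an `F_p`-plane of 3-sets -/

namespace Pool.Agent.Lib.MP_6b0fe3_coP

/-- the data of the plane lemma -/
structure PD (P X : Type*) [AddCommGroup P] where
  p : ℕ
  hp : p % 3 ≠ 0
  hper : ∀ x : P, p • x = 0
  G : P → Prop
  U : P → P → P → Prop
  Upt : ∀ {x y z}, U x y z → G x
  rot : ∀ {x y z}, U x y z → U y z x
  next : ∀ {x y z}, U x y z → U x z (z + (z - y))
  par : ∀ {x y z}, U x y z → U (x + (z - y)) y z
  quad : ∀ {x y z}, U x y z → U x z (x + (z - y))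
  B : P → X → Prop
  τ : P → P → X → X
  C : P → X → X
  τ_mem : ∀ {x y M}, G x → G y → B x M → B y (τ x y M)
  τ_id : ∀ {x M}, G x → B x M → τ x x M = M
  τ_back : ∀ {x y M}, G x → G y → B x M → τ y x (τ x y M) = M
  τ_line : ∀ {x a M} (m n : ℕ), G x → G (x + a) → B x M →
      τ (x + m • a) (x + n • a) (τ x (x + m • a) M) = τ x (x + n • a) M
  line : ∀ {x a} (n : ℕ), G x → G (x + a) → G (x + n • a)
  C_mem : ∀ {x M}, G x → B x M → B x (C x M)
  C_ne : ∀ {x M}, G x → B x M → C x M ≠ M
  C_three : ∀ {x M}, G x → B x M → C x (C x (C x M)) = M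
  C_all : ∀ {x M N}, G x → B x M → B x N → N = M ∨ N = C x M ∨ N = C x (C x M)
  A1 : ∀ {x y z M}, U x y z → B x M → τ y z (C y (τ x y M)) ≠ τ x z M
  A2 : ∀ {x y z M}, U x y z → B x M → τ x z M ≠ C z (τ y z (τ x y M))
  A3 : ∀ {x y z M}, U x y z → B x M →
      τ x (z + (z - y)) M ≠ C (z + (z - y)) (τ y (z + (z - y)) (C y (τ x y M)))

namespace PD
variable {P X : Type*} [AddCommGroup P] (D : PD P X)

/-- same orientation -/
def Same (y z : P) : Prop := ∀ M, D.B y M → D.τ y z (D.C y M) = D.C z (D.τ y z M)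

/-- opposite orientation -/
def Opp (y z : P) : Prop := ∀ M, D.B y M → D.τ y z (D.C y M) = D.C z (D.C z (D.τ y z M))

/-- the line `y, y + a, ...` has constant orientation -/
def Const (y a : P) : Prop := ∀ n : ℕ, D.Same (y + n • a) (y + (n + 1) • a)

variable {D}

theorem Uy {x y z : P} (h : D.U x y z) : D.G y := D.Upt (D.rot h)
theorem Uz {x y z : P} (h : D.U x y z) : D.G z := D.Upt (D.rot (D.rot h))

theorem C_two {x : P} {M : X} (hx : D.G x) (hM : D.B x M) : D.C x (D.C x M) ≠ M := by
  intro h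
  have h1 := D.C_three hx hM
  rw [h] at h1
  exact D.C_ne hx hM h1

theorem C_inj {x : P} {M N : X} (hx : D.G x) (hM : D.B x M) (hN : D.B x N)
    (h : D.C x M = D.C x N) : M = N := by
  rw [← D.C_three hx hM, ← D.C_three hx hN, h]

theorem τ_inj {x y : P} {M N : X} (hx : D.G x) (hy : D.G y) (hM : D.B x M) (hN : D.B x N)
    (h : D.τ x y M = D.τ x y N) : M = N := by
  rw [← D.τ_back hx hy hM, ← D.τ_back hx hy hN, h]

theorem other {x : P} {M N : X} (hx : D.G x) (hM : D.B x M) (hN : D.B x N) (h : N ≠ M) :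
    N = D.C x M ∨ N = D.C x (D.C x M) :=
  (D.C_all hx hM hN).resolve_left h

/-- two 3-cycles are equal or inverse -/
theorem same_or_opp {y z : P} (hy : D.G y) (hz : D.G z) : D.Same y z ∨ D.Opp y z := by
  -- the value at one point decides
  have key : ∀ M, D.B y M → D.τ y z (D.C y M) = D.C z (D.τ y z M) → D.Same y z := by
    intro M hM h
    have hCM := D.C_mem hy hM
    have hCCM := D.C_mem hy hCM
    have m0 := D.τ_mem hy hz hM
    have m1 := D.τ_mem hy hz hCM
    have m2 := D.τ_mem hy hz hCCM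
    have h2 : D.τ y z (D.C y (D.C y M)) = D.C z (D.C z (D.τ y z M)) := by
      rcases D.C_all hz m0 m2 with e | e | e
      · exact absurd (τ_inj hy hz hCCM hM e) (C_two hy hM)
      · rw [← h] at e
        exact absurd (τ_inj hy hz hCCM hCM e) (D.C_ne hy hCM)
      · exact e
    intro N hN
    rcases D.C_all hy hM hN with e | e | e
    · rw [e]; exact h
    · rw [e, h2, h]
    · rw [e, D.C_three hy hM, h2, D.C_three hz m0]
  by_cases hs : D.Same y z
  · exact Or.inl hs
  · right
    intro M hM
    have m0 := D.τ_mem hy hz hM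
    have m1 := D.τ_mem hy hz (D.C_mem hy hM)
    rcases D.C_all hz m0 m1 with e | e | e
    · exact absurd (τ_inj hy hz (D.C_mem hy hM) hM e) (D.C_ne hy hM)
    · exact absurd (key M hM e) hs
    · exact e

theorem Same.symm {y z : P} (hy : D.G y) (hz : D.G z) (h : D.Same y z) : D.Same z y := by
  intro M hM
  have m1 := D.τ_mem hz hy hM
  have h1 := h _ m1
  rw [D.τ_back hz hy hM] at h1
  rw [← h1, D.τ_back hy hz (D.C_mem hy m1)]

/-- a bad triangle: value and orientation -/
theorem bad_val {x y z : P} {M : X} (hU : D.U x y z) (hM : D.B x M)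
    (hb : D.τ y z (D.τ x y M) ≠ D.τ x z M) :
    D.Same y z ∧ D.τ x z M = D.C z (D.C z (D.τ y z (D.τ x y M))) := by
  have hx := D.Upt hU
  have hy := Uy hU
  have hz := Uz hU
  have my := D.τ_mem hx hy hM
  have mz := D.τ_mem hx hz hM
  have mf := D.τ_mem hy hz my
  have h1 : D.τ x z M = D.C z (D.C z (D.τ y z (D.τ x y M))) := by
    rcases D.C_all hz mf mz with e | e | e
    · exact absurd e.symm hb
    · exact absurd e (D.A2 hU hM)
    · exact e
  refine ⟨?_, h1⟩
  rcases same_or_opp hy hz with h | h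
  · exact h
  · exfalso
    apply D.A1 hU hM
    rw [h _ my, h1]

theorem rot_bad {x y z : P} {M : X} (hU : D.U x y z) (hM : D.B x M)
    (hb : D.τ y z (D.τ x y M) ≠ D.τ x z M) :
    D.τ z x (D.τ y z (D.τ x y M)) ≠ D.τ y x (D.τ x y M) := by
  have hx := D.Upt hU
  have hy := Uy hU
  have hz := Uz hU
  rw [D.τ_back hx hy hM]
  intro h
  apply hb
  rw [← D.τ_back hz hx (D.τ_mem hy hz (D.τ_mem hx hy hM)), h]

theorem U_line {x y a : P} (h : D.U x y (y + a)) (n : ℕ) :
    D.U x (y + n • a) (y + (n + 1) • a) := by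
  induction n with
  | zero => simpa using h
  | succ n ih =>
    have h1 := D.next ih
    have e1 : y + (n + 1) • a + (y + (n + 1) • a - (y + n • a)) = y + (n + 1 + 1) • a := by
      rw [add_smul (n + 1) 1 a, add_smul n 1 a, one_smul]
      abel
    rwa [e1] at h1

/-- two consecutive triangles -/
theorem two_step {x y z v : P} {M : X} (hU : D.U x y z) (hU' : D.U x z v)
    (hv : v = z + (z - y)) (hM : D.B x M)
    (hl : ∀ N, D.B y N → D.τ z v (D.τ y z N) = D.τ y v N) :
    (D.Same y z → ¬ D.Same z v → D.τ y z (D.τ x y M) ≠ D.τ x z M) ∧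
    (¬ D.Same y z → D.Same z v → D.τ z v (D.τ x z M) ≠ D.τ x v M) ∧
    (D.Same y z → D.Same z v → (D.τ y z (D.τ x y M) ≠ D.τ x z M ↔
      D.τ z v (D.τ x z M) ≠ D.τ x v M)) := by
  have hx := D.Upt hU
  have hy := Uy hU
  have hz := Uz hU
  have hvv := Uz hU'
  have my := D.τ_mem hx hy hM
  have mz := D.τ_mem hx hz hM
  have mf := D.τ_mem hy hz my
  have mg := D.τ_mem hz hvv mf
  have mCy := D.C_mem hy my
  have h3 := D.A3 hU hM
  rw [← hv, ← hl _ mCy] at h3
  refine ⟨?_, ?_, ?_⟩
  · intro s1 s2 e1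
    have o2 : D.Opp z v := (same_or_opp hz hvv).resolve_left s2
    have e2 : D.τ z v (D.τ x z M) = D.τ x v M := by
      by_contra hb
      exact s2 (bad_val hU' hM hb).1
    apply h3
    rw [s1 _ my, o2 _ mf, D.C_three hvv mg, e1, e2]
  · intro s1 s2 e2
    have o1 : D.Opp y z := (same_or_opp hy hz).resolve_left s1
    have e1 : D.τ y z (D.τ x y M) = D.τ x z M := by
      by_contra hb
      exact s1 (bad_val hU hM hb).1
    apply h3
    rw [o1 _ my, s2 _ (D.C_mem hz mf), s2 _ mf, D.C_three hvv mg, e1, e2]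
  · intro s1 s2
    constructor
    · intro hb e2
      have h1 := (bad_val hU hM hb).2
      apply h3
      rw [s1 _ my, s2 _ mf, ← e2, h1, s2 _ (D.C_mem hz mf), s2 _ mf]
    · intro hb e1
      have h1 := (bad_val hU' hM hb).2
      apply h3
      rw [s1 _ my, s2 _ mf, h1, e1]

/-- consistency on a line -/
theorem line_two {x y a : P} (h : D.U x y (y + a)) (n : ℕ) (N : X) (hN : D.B (y + n • a) N) :
    D.τ (y + (n + 1) • a) (y + (n + 1 + 1) • a) (D.τ (y + n • a) (y + (n + 1) • a) N) =
      D.τ (y + n • a) (y + (n + 1 + 1) • a) N := by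
  have hn := Uy (U_line h n)
  have hn1 := Uz (U_line h n)
  have e1 : y + (n + 1) • a = y + n • a + 1 • a := by
    rw [add_smul n 1 a]
    abel
  have e2 : y + (n + 1 + 1) • a = y + n • a + 2 • a := by
    rw [add_smul (n + 1) 1 a, add_smul n 1 a, two_smul, one_smul]
    abel
  have hg : D.G (y + n • a + a) := by
    rw [e1, one_smul] at hn1
    exact hn1
  have := D.τ_line (x := y + n • a) (a := a) 1 2 hn hg hN
  rw [e1, e2]
  exact this

/-- `bad` iff `same` at one place of the line implies it everywhere -/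
theorem kappa {x y a : P} {M : X} (h : D.U x y (y + a)) (hM : D.B x M) (n : ℕ) :
    (D.Same (y + n • a) (y + (n + 1) • a) →
      D.τ (y + n • a) (y + (n + 1) • a) (D.τ x (y + n • a) M) ≠ D.τ x (y + (n + 1) • a) M) ↔
    (D.Same y (y + a) → D.τ y (y + a) (D.τ x y M) ≠ D.τ x (y + a) M) := by
  induction n with
  | zero => simp
  | succ n ih =>
    rw [← ih]
    have hU := U_line h n
    have hU' := U_line h (n + 1)
    have hv : y + (n + 1 + 1) • a = y + (n + 1) • a + (y + (n + 1) • a - (y + n • a)) := by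
      rw [add_smul (n + 1) 1 a, add_smul n 1 a, one_smul]
      abel
    obtain ⟨t1, t2, t3⟩ := two_step hU hU' hv hM (line_two h n)
    constructor
    · intro hk s
      by_cases s' : D.Same (y + (n + 1) • a) (y + (n + 1 + 1) • a)
      · exact (t3 s s').2 (hk s')
      · exact t1 s s'
    · intro hk s'
      by_cases s : D.Same (y + n • a) (y + (n + 1) • a)
      · exact (t3 s s').1 (hk s)
      · exact t2 s s'

theorem iter_mem {x : P} {M : X} (hx : D.G x) (hM : D.B x M) (k : ℕ) :
    D.B x ((D.C x)^[k] M) := by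
  induction k with
  | zero => exact hM
  | succ k ih =>
    rw [Function.iterate_succ', Function.comp]
    exact D.C_mem hx ih

theorem iter_same {y z : P} {M : X} (hy : D.G y) (hM : D.B y M) (h : D.Same y z) (k : ℕ) :
    D.τ y z ((D.C y)^[k] M) = (D.C z)^[k] (D.τ y z M) := by
  induction k with
  | zero => rfl
  | succ k ih =>
    rw [Function.iterate_succ', Function.comp, Function.iterate_succ', Function.comp,
      h _ (iter_mem hy hM k), ih]

theorem iter_three {x : P} {M : X} (hx : D.G x) (hM : D.B x M) (k : ℕ) :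
    (D.C x)^[k] M = (D.C x)^[k % 3] M := by
  induction k using Nat.strong_induction_on with
  | _ k ih =>
    by_cases hk : k < 3
    · rw [Nat.mod_eq_of_lt hk]
    · obtain ⟨j, rfl⟩ : ∃ j, k = j + 3 := ⟨k - 3, by omega⟩
      have h3 : (D.C x)^[3] M = M := D.C_three hx hM
      rw [Function.iterate_add_apply, h3, ih j (by omega), Nat.add_mod_right]

theorem iter_ne {x : P} {M : X} (hx : D.G x) (hM : D.B x M) {k : ℕ} (hk : k % 3 ≠ 0) :
    (D.C x)^[k] M ≠ M := by
  rw [iter_three hx hM k]
  have : k % 3 = 1 ∨ k % 3 = 2 := by omega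
  rcases this with h | h
  · rw [h]; exact D.C_ne hx hM
  · rw [h]; exact C_two hx hM

/-- on a constant line no triangle is bad -/
theorem good_of_const {x y a : P} {M : X} (h : D.U x y (y + a)) (hM : D.B x M)
    (hc : D.Const y a) : D.τ y (y + a) (D.τ x y M) = D.τ x (y + a) M := by
  by_contra hb
  have hk : ∀ n : ℕ, D.τ (y + n • a) (y + (n + 1) • a) (D.τ x (y + n • a) M) ≠
      D.τ x (y + (n + 1) • a) M := fun n => (kappa h hM n).2 (fun _ => hb) (hc n)
  have hx := D.Upt h
  have hy := Uy h
  have hya := Uz h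
  have my := D.τ_mem hx hy hM
  have key : ∀ n : ℕ, D.τ x (y + n • a) M = (D.C (y + n • a))^[2 * n]
      (D.τ y (y + n • a) (D.τ x y M)) := by
    intro n
    induction n with
    | zero => simp [D.τ_id hy my]
    | succ n ih =>
      have hU := U_line h n
      have h1 := (bad_val hU hM (hk n)).2
      rw [h1, ih, iter_same (Uy hU) (D.τ_mem hy (Uy hU) my) (hc n),
        D.τ_line n (n + 1) hy hya my]
      have e : 2 * (n + 1) = 2 * n + 1 + 1 := by ring
      rw [e, Function.iterate_succ', Function.iterate_succ']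
      rfl
  have h1 := key D.p
  rw [D.hper, add_zero, D.τ_id hy my] at h1
  have hp := D.hp
  exact iter_ne hy my (k := 2 * D.p) (by omega) h1.symm

/-- on a non-constant line a triangle with equal orientations is bad -/
theorem bad_of_not_const {x y a : P} {M : X} (h : D.U x y (y + a)) (hM : D.B x M)
    (hc : ¬ D.Const y a) (hs : D.Same y (y + a)) :
    D.τ y (y + a) (D.τ x y M) ≠ D.τ x (y + a) M := by
  unfold Const at hc
  push Not at hc
  obtain ⟨n, hn⟩ := hc
  exact (kappa h hM n).1 (fun h' => absurd h' hn) hs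

theorem neg_smul_eq (D : PD P X) (a : P) (n : ℕ) : n • (-a) = (n * (D.p - 1)) • a := by
  have hp : 1 ≤ D.p := by
    have := D.hp
    omega
  have h1 : (D.p - 1) • a = -a := by
    have := D.hper a
    obtain ⟨q, hq⟩ : ∃ q, D.p = q + 1 := ⟨D.p - 1, by omega⟩
    rw [hq, add_smul, one_smul] at this
    rw [hq, Nat.add_sub_cancel]
    exact eq_neg_of_add_eq_zero_left this
  rw [mul_smul, h1]

/-- reversing a line -/
theorem Const.rev {y a : P} (hy : D.G y) (hya : D.G (y + a)) (h : D.Const y a) :
    D.Const (y + a) (-a) := by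
  intro n
  have hm := h (n * (D.p - 1))
  have e1 : y + a + n • (-a) = y + (n * (D.p - 1) + 1) • a := by
    rw [neg_smul_eq D, add_smul, one_smul]
    abel
  have e2 : y + a + (n + 1) • (-a) = y + (n * (D.p - 1)) • a := by
    rw [← neg_smul_eq D, add_smul, one_smul]
    abel
  rw [e1, e2]
  exact hm.symm (D.line _ hy hya) (D.line _ hy hya)

/-- no bad unit triangle -/
theorem good {x y z : P} {M : X} (hU : D.U x y z) (hM : D.B x M) :
    D.τ y z (D.τ x y M) = D.τ x z M := by
  by_contra hb
  have hx := D.Upt hU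
  have hy := Uy hU
  have hz := Uz hU
  obtain ⟨a, rfl⟩ : ∃ a, z = y + a := ⟨z - y, by abel⟩
  have hza : y + a - y = a := by abel
  have hnc : ¬ D.Const y a := fun hc => hb (good_of_const hU hM hc)
  have hs := (bad_val hU hM hb).1
  -- rotate
  have my := D.τ_mem hx hy hM
  have hb1 := rot_bad hU hM hb
  have hU1 := D.rot hU
  have hs1 := (bad_val hU1 my hb1).1
  obtain ⟨c, hc⟩ : ∃ c, x = y + a + c := ⟨x - (y + a), by abel⟩
  have hnc1 : ¬ D.Const (y + a) c := by
    intro h0
    rw [hc] at hU1 hb1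
    have hx' : D.τ x y M = D.τ (y + a + c) y M := by rw [← hc]
    exact hb1 (by
      have := good_of_const hU1 (M := D.τ x y M) my h0
      rw [hx'] at this
      exact this)
  -- all points of the parallel line
  have hpar : ∀ n : ℕ, D.U (x + n • a) y (y + a) := by
    intro n
    induction n with
    | zero => simpa using hU
    | succ n ih =>
      have := D.par ih
      rw [hza] at this
      rw [add_smul, one_smul, ← add_assoc]
      exact this
  have hsame : ∀ n : ℕ, D.Same (y + a) (x + n • a) := by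
    intro n
    have hUn := hpar n
    have hn := D.Upt hUn
    have mn := D.τ_mem hx hn hM
    have hbn := bad_of_not_const hUn mn hnc hs
    exact (bad_val (D.rot hUn) (D.τ_mem hn hy mn) (rot_bad hUn mn hbn)).1
  -- the parallel line is constant
  have hquad : ∀ n : ℕ, D.U (y + a) (x + (n + 1) • a) (x + n • a) := by
    intro n
    have := D.rot (D.quad (hpar n))
    rw [hza] at this
    rw [add_smul, one_smul, ← add_assoc]
    exact this
  have hcon : ∀ n : ℕ, D.Same (x + (n + 1) • a) (x + n • a) := by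
    intro n
    by_contra hno
    have hUn := hquad n
    have hn := Uy hUn
    have hn' := Uz hUn
    have hg : ∀ N, D.B (y + a) N → D.τ (x + (n + 1) • a) (x + n • a)
        (D.τ (y + a) (x + (n + 1) • a) N) = D.τ (y + a) (x + n • a) N := by
      intro N hN
      by_contra hbb
      exact hno (bad_val hUn hN hbb).1
    apply hno
    intro N' hN'
    have mN := D.τ_mem hn hz hN'
    have e := D.τ_back hn hz hN'
    rw [← e, ← hsame (n + 1) _ mN, hg _ (D.C_mem hz mN), hg _ mN, hsame n _ mN]
  have hconst : D.Const (x + a) (-a) := by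
    intro n
    have e1 : x + a + n • (-a) = x + (n * (D.p - 1) + 1) • a := by
      rw [neg_smul_eq D, add_smul, one_smul]
      abel
    have e2 : x + a + (n + 1) • (-a) = x + (n * (D.p - 1)) • a := by
      rw [← neg_smul_eq D, add_smul, one_smul]
      abel
    rw [e1, e2]
    exact hcon _
  -- the triangle (x', x, z)
  have hUz : D.U (y + a) (x + a) x := by
    have := hquad 0
    simpa using this
  have hU' : D.U (x + a) x (y + a) := D.rot hUz
  have hx' := D.Upt hU'
  have mx' := D.τ_mem hx hx' hM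
  have hb2 : D.τ x (y + a) (D.τ (x + a) x (D.τ x (x + a) M)) ≠
      D.τ (x + a) (y + a) (D.τ x (x + a) M) := by
    have e : y + a = x + (-c) := by rw [hc]; abel
    have hncr : ¬ D.Const x (-c) := by
      intro h0
      apply hnc1
      have hxc : D.G (x + -c) := by rw [← e]; exact hz
      have := h0.rev hx hxc
      rwa [neg_neg, ← e] at this
    have hsx : D.Same x (x + -c) := by
      rw [← e]
      exact hs1.symm hz hx
    have hU2 : D.U (x + a) x (x + -c) := by
      rw [← e]
      exact hU'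
    have := bad_of_not_const hU2 mx' hncr hsx
    rwa [← e] at this
  -- rotate twice
  have hb3 := rot_bad hU' mx' hb2
  have mx := D.τ_mem hx' hx mx'
  have hb4 := rot_bad (D.rot hU') mx hb3
  have mz := D.τ_mem hx hz mx
  have hfin : D.τ (x + a) (x + a + -a) (D.τ (y + a) (x + a)
      (D.τ x (y + a) (D.τ (x + a) x (D.τ x (x + a) M)))) =
      D.τ (y + a) (x + a + -a) (D.τ x (y + a) (D.τ (x + a) x (D.τ x (x + a) M))) := by
    have hU3 : D.U (y + a) (x + a) (x + a + -a) := by
      have e : x + a + -a = x := by abel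
      rw [e]
      exact hUz
    exact good_of_const hU3 mz hconst
  have e : x + a + -a = x := by abel
  rw [e] at hfin
  exact hb4 hfin

end PD

/-- Abstract plane lemma. `P` is a vector group of exponent `p`, `G` the set of points considered,
`B x` a set for every `x ∈ G`, `τ x y : B x → B y` transports, consistent on lines, `C x` a 3-cycle
on `B x`; `U x y z`: the unit triangles. -/
theorem plane_lemma {P X : Type*} [AddCommGroup P] (p : ℕ) (hp : p % 3 ≠ 0)
    (hper : ∀ x : P, p • x = 0) (G : P → Prop) (U : P → P → P → Prop)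
    (Upt : ∀ {x y z}, U x y z → G x)
    (rot : ∀ {x y z}, U x y z → U y z x)
    (next : ∀ {x y z}, U x y z → U x z (z + (z - y)))
    (par : ∀ {x y z}, U x y z → U (x + (z - y)) y z)
    (quad : ∀ {x y z}, U x y z → U x z (x + (z - y)))
    (B : P → X → Prop) (τ : P → P → X → X) (C : P → X → X)
    (τ_mem : ∀ {x y M}, G x → G y → B x M → B y (τ x y M))
    (τ_id : ∀ {x M}, G x → B x M → τ x x M = M)
    (τ_back : ∀ {x y M}, G x → G y → B x M → τ y x (τ x y M) = M)
    (τ_line : ∀ {x a M} (m n : ℕ), G x → G (x + a) → B x M →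
      τ (x + m • a) (x + n • a) (τ x (x + m • a) M) = τ x (x + n • a) M)
    (line : ∀ {x a} (n : ℕ), G x → G (x + a) → G (x + n • a))
    (C_mem : ∀ {x M}, G x → B x M → B x (C x M))
    (C_ne : ∀ {x M}, G x → B x M → C x M ≠ M)
    (C_three : ∀ {x M}, G x → B x M → C x (C x (C x M)) = M)
    (C_all : ∀ {x M N}, G x → B x M → B x N → N = M ∨ N = C x M ∨ N = C x (C x M))
    (A1 : ∀ {x y z M}, U x y z → B x M → τ y z (C y (τ x y M)) ≠ τ x z M)
    (A2 : ∀ {x y z M}, U x y z → B x M → τ x z M ≠ C z (τ y z (τ x y M)))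
    (A3 : ∀ {x y z M}, U x y z → B x M →
      τ x (z + (z - y)) M ≠ C (z + (z - y)) (τ y (z + (z - y)) (C y (τ x y M))))
    {x y z : P} {M : X} (hU : U x y z) (hM : B x M) : τ y z (τ x y M) = τ x z M :=
  PD.good (D := ⟨p, hp, hper, G, U, Upt, rot, next, par, quad, B, τ, C, τ_mem, τ_id, τ_back,
    τ_line, line, C_mem, C_ne, C_three, C_all, A1, A2, A3⟩) hU hM

end Pool.Agent.Lib.MP_6b0fe3_coP
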