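import Pool.Agent.Lib.MP_6b0fe3_coP.LatC
import Pool.Agent.Lib.MP_6b0fe3_coP.ConC
import Pool.Agent.Lib.MP_6b0fe3_coP.PlaneC

/-! MP_6b0fe3_co, odd order: the triangles of area `3 δ` have no monodromy -/

namespace Pool.Agent.Lib.MP_6b0fe3_coP

open Matrix Pool.Agent.Lib.MP_6b0fe3_coR

section B
variable {K : Type*} [Field K] [Fintype K] {Pt Ln : Type*} {I : Pt → Ln → Prop}
variable (H : Hex I (Fintype.card K)) {S : Sub K I}
variable (hstd : ∀ M, BLine S M → ∃ w ψ, Std S M w ψ)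
variable {ψ : Fin 3 → K}
include H hstd

/-- membership of the transport between labels `(x,ψ)` and `(y,ψ)` -/
theorem trv_mem {x y v : Fin 3 → K} {M : Ln} {c : K} (h : ψ ⬝ᵥ x = 1) (hv : ψ ⬝ᵥ v = 0)
    (hy : y = x + c • v) (hM : BL S M x ψ) : BL S (tr S v y ψ M) y ψ := by
  by_cases v0 : v = 0
  · rw [v0, tr_zero, hy, v0, smul_zero, add_zero]
    exact hM
  · subst hy
    have hA : InA v (x ⨯₃ v) x ψ := ⟨v0, h, hv, rfl⟩
    have hA' : InA v (x ⨯₃ v) (x + c • v) ψ := by
      refine ⟨v0, ?_, hv, ?_⟩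
      · rw [dotProduct_add, dotProduct_smul, h, hv, smul_zero, add_zero]
      · rw [map_add, LinearMap.add_apply, map_smul, LinearMap.smul_apply, cross_self, smul_zero,
          add_zero]
    exact tr_mem H hstd hM hA hA'

theorem trv_trv {x y z v : Fin 3 → K} {M : Ln} {c d : K} (h : ψ ⬝ᵥ x = 1) (hv : ψ ⬝ᵥ v = 0)
    (hy : y = x + c • v) (hz : z = x + d • v) (hM : BL S M x ψ) :
    tr S v z ψ (tr S v y ψ M) = tr S v z ψ M := by
  by_cases v0 : v = 0
  · rw [v0, tr_zero, tr_zero, tr_zero]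
  · subst hy
    subst hz
    have hA : ∀ e : K, InA v (x ⨯₃ v) (x + e • v) ψ := by
      intro e
      refine ⟨v0, ?_, hv, ?_⟩
      · rw [dotProduct_add, dotProduct_smul, h, hv, smul_zero, add_zero]
      · rw [map_add, LinearMap.add_apply, map_smul, LinearMap.smul_apply, cross_self, smul_zero,
          add_zero]
    have hA0 : InA v (x ⨯₃ v) x ψ := ⟨v0, h, hv, rfl⟩
    exact tr_tr H hstd hM hA0 (hA c) (hA d)

theorem trv_self {x v : Fin 3 → K} {M : Ln} (h : ψ ⬝ᵥ x = 1) (hv : ψ ⬝ᵥ v = 0)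
    (hM : BL S M x ψ) : tr S v x ψ M = M := by
  by_cases v0 : v = 0
  · rw [v0, tr_zero]
  · exact tr_self H hstd hM (⟨v0, h, hv, rfl⟩ : InA v (x ⨯₃ v) x ψ)

omit [Fintype K] H hstd in
/-- the difference of two points `x + m a`, `x + n a` is a multiple of `a` -/
theorem diff_smul {x a : Fin 3 → K} (m n : ℕ) :
    (x + n • a) - (x + m • a) = ((n : K) - (m : K)) • a := by
  rw [← Nat.cast_smul_eq_nsmul K n a, ← Nat.cast_smul_eq_nsmul K m a]
  module

theorem tr_line {x a : Fin 3 → K} {M : Ln} (m n : ℕ) (h : ψ ⬝ᵥ x = 1) (ha : ψ ⬝ᵥ a = 0)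
    (hM : BL S M x ψ) :
    tr S ((x + n • a) - (x + m • a)) (x + n • a) ψ (tr S ((x + m • a) - x) (x + m • a) ψ M) =
      tr S ((x + n • a) - x) (x + n • a) ψ M := by
  -- every transport is the transport along `a`
  have key : ∀ (k l : ℕ) {N : Ln}, BL S N (x + k • a) ψ →
      tr S ((x + l • a) - (x + k • a)) (x + l • a) ψ N = tr S a (x + l • a) ψ N := by
    intro k l N hN
    have hk : ψ ⬝ᵥ (x + k • a) = 1 := by
      rw [← Nat.cast_smul_eq_nsmul K k a, dotProduct_add, dotProduct_smul, ha, h, smul_zero,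
        add_zero]
    rw [diff_smul k l]
    by_cases hkl : (l : K) - (k : K) = 0
    · have e : x + l • a = x + k • a := by
        have := diff_smul (x := x) (a := a) k l
        rw [hkl, zero_smul] at this
        exact sub_eq_zero.1 this
      rw [hkl, zero_smul, tr_zero, e, trv_self H hstd hk ha hN]
    · exact tr_smul hkl
  have key0 : ∀ (l : ℕ), tr S ((x + l • a) - x) (x + l • a) ψ M = tr S a (x + l • a) ψ M := by
    intro l
    have := key 0 l (N := M) (by rw [zero_smul, add_zero]; exact hM)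
    rwa [zero_smul, add_zero] at this
  have hm : BL S (tr S a (x + m • a) ψ M) (x + m • a) ψ :=
    trv_mem H hstd (c := (m : K)) h ha (by rw [Nat.cast_smul_eq_nsmul]) hM
  rw [key0 m, key0 n, key m n hm]
  exact trv_trv H hstd (c := (m : K)) (d := (n : K)) h ha (by rw [Nat.cast_smul_eq_nsmul])
    (by rw [Nat.cast_smul_eq_nsmul]) hM

variable {ω υ : K} (hc : Cub ω υ) (h3 : Three S)
variable {w : Fin 3 → K} {M : Ln}
include hc h3

/-- no monodromy in the triangles of area `3 δ` -/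
theorem unit_tri' {u u' : Fin 3 → K} (h : ψ ⬝ᵥ w = 1) (hu : ψ ⬝ᵥ u = 0) (hu' : ψ ⬝ᵥ u' = 0)
    (huu : w ⬝ᵥ (u ⨯₃ u') = 3 * (υ - ω)) (hM : BL S M w ψ) :
    tr S (u' - u) (w + u') ψ (tr S u (w + u) ψ M) = tr S u' (w + u') ψ M := by
  have hadd := hc.add
  have hmul := hc.mul
  have hδ := hc.sub_ne
  set δ : K := υ - ω with hδd
  have hδ2 : δ ^ 2 = -3 := by
    rw [hδd]
    linear_combination (υ + ω - 1) * hadd - 4 * hmul
  obtain ⟨p, hp⟩ := CharP.exists K
  have hpp : Fact p.Prime := ⟨CharP.char_is_prime K p⟩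
  have hp3 : p % 3 ≠ 0 := by
    intro h0
    have h1 : 3 ∣ p := Nat.dvd_of_mod_eq_zero h0
    have h2 : 3 = p := (Nat.prime_dvd_prime_iff_eq Nat.prime_three hpp.out).1 h1
    apply hc.three
    have := CharP.cast_eq_zero K p
    rw [← h2] at this
    exact_mod_cast this
  -- the frame
  set b : Fin 3 → K := δ⁻¹ • u with hb
  set a : Fin 3 → K := δ⁻¹ • (u' - u) with ha
  have hbu : u = δ • b := by rw [hb, smul_smul, mul_inv_cancel₀ hδ, one_smul]
  have hau : u' = δ • (b + a) := by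
    rw [hb, ha, ← smul_add, smul_smul, mul_inv_cancel₀ hδ, one_smul]; abel
  have F0 : Frame w ψ a b δ := by
    refine ⟨h, ?_, ?_, ?_, hδ⟩
    · rw [ha, dotProduct_smul, dotProduct_sub, hu, hu', sub_zero, smul_zero]
    · rw [hb, dotProduct_smul, hu, smul_zero]
    · have e : a ⨯₃ b = -(δ⁻¹ ^ 2) • (u ⨯₃ u') := by
        have h1 : u' ⨯₃ u = - (u ⨯₃ u') := (cross_anticomm u u').symm
        rw [ha, hb]
        simp only [map_sub, LinearMap.sub_apply, map_smul, LinearMap.smul_apply, cross_self, h1]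
        module
      rw [e, dotProduct_smul, huu, smul_eq_mul]
      field_simp
      rw [hδ2]
  set G : (Fin 3 → K) → Prop := fun x => ∃ i j : ℤ, x = w + ((i : K) • u + (j : K) • u') with hG
  have G_dot : ∀ {x}, G x → ψ ⬝ᵥ x = 1 := by
    rintro x ⟨i, j, rfl⟩
    rw [dotProduct_add, dotProduct_add, dotProduct_smul, dotProduct_smul, h, hu, hu', smul_zero,
      smul_zero, add_zero, add_zero]
  have G_frame : ∀ {x}, G x → Frame x ψ a b δ := by
    rintro x ⟨i, j, rfl⟩
    have hx : ψ ⬝ᵥ (w + ((i : K) • u + (j : K) • u')) = 1 := G_dot ⟨i, j, rfl⟩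
    refine ⟨hx, F0.da, F0.da', ?_, hδ⟩
    have hcr := F0.cross
    rw [hcr, dotProduct_smul, dotProduct_comm, hx, smul_eq_mul, mul_one]
  have G_sub : ∀ {x y}, G x → G y → ψ ⬝ᵥ (y - x) = 0 := by
    intro x y hx hy
    rw [dotProduct_sub, G_dot hx, G_dot hy, sub_self]
  have G_add : ∀ {x} (i j : ℤ), G x → G (x + ((i : K) • u + (j : K) • u')) := by
    rintro x i j ⟨i', j', rfl⟩
    refine ⟨i' + i, j' + j, ?_⟩
    push_cast
    module
  have lat : ∀ {t : Fin 3 → K} {N : Ln} (i j k l : ℤ), G t → ((i * l - j * k : ℤ) : K) = 1 →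
      BL S N t ψ → PP S ω υ t ψ ((i : K) • a + (j : K) • b) ((k : K) • a + (l : K) • b) N =
        PP S ω υ t ψ a b N := by
    intro t N i j k l ht hd hN
    exact PP_lat H hstd hc h3 (p := p) (G_frame ht) i j k l hd hN
  set U : (Fin 3 → K) → (Fin 3 → K) → (Fin 3 → K) → Prop := fun x y z => G x ∧
    ∃ i j k l : ℤ, y = x + ((i : K) • u + (j : K) • u') ∧ z = x + ((k : K) • u + (l : K) • u') ∧
      ((i * l - j * k : ℤ) : K) = 1 with hU
  -- data of a triangle
  have tri : ∀ {x y z M}, U x y z → BL S M x ψ → ∃ a₁ b₁ : Fin 3 → K, Frame x ψ a₁ b₁ δ ∧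
      G x ∧ G y ∧ G z ∧ y = x + δ • b₁ ∧ z = x + δ • (b₁ + a₁) ∧
      (∀ N, BL S N y ψ → PP S ω υ y ψ a₁ b₁ N = PP S ω υ y ψ a b N) ∧
      (∀ N, BL S N z ψ → PP S ω υ z ψ a₁ (b₁ + a₁) N = PP S ω υ z ψ a b N) ∧
      (∀ v N, G v → BL S N v ψ → PP S ω υ v ψ a₁ (b₁ + a₁ + a₁) N = PP S ω υ v ψ a b N) := by
    rintro x y z M ⟨hx, i, j, k, l, hy, hz, hd⟩ hM
    have hdK : (i : K) * l - j * k = 1 := by
      have := hd
      push_cast at this
      exact this
    have hGy : G y := by rw [hy]; exact G_add i j hx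
    have hGz : G z := by rw [hz]; exact G_add k l hx
    refine ⟨((l - j : ℤ) : K) • a + ((k - i + l - j : ℤ) : K) • b,
      ((j : ℤ) : K) • a + ((i + j : ℤ) : K) • b, ?_, hx, hGy, hGz, ?_, ?_, ?_, ?_, ?_⟩
    · apply (G_frame hx).comb
      push_cast
      linear_combination hdK
    · rw [hy, hau, hbu]
      push_cast
      module
    · rw [hz, hau, hbu]
      push_cast
      module
    · intro N hN
      apply lat _ _ _ _ hGy _ hN
      push_cast
      linear_combination hdK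
    · intro N hN
      have e : ((j : ℤ) : K) • a + ((i + j : ℤ) : K) • b +
          (((l - j : ℤ) : K) • a + ((k - i + l - j : ℤ) : K) • b) =
          ((l : ℤ) : K) • a + ((k + l : ℤ) : K) • b := by
        push_cast
        module
      rw [e]
      apply lat _ _ _ _ hGz _ hN
      push_cast
      linear_combination hdK
    · intro v N hv hN
      have e : ((j : ℤ) : K) • a + ((i + j : ℤ) : K) • b +
          (((l - j : ℤ) : K) • a + ((k - i + l - j : ℤ) : K) • b) +
          (((l - j : ℤ) : K) • a + ((k - i + l - j : ℤ) : K) • b) =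
          ((2 * l - j : ℤ) : K) • a + ((2 * k + 2 * l - i - j : ℤ) : K) • b := by
        push_cast
        module
      rw [e]
      apply lat _ _ _ _ hv _ hN
      push_cast
      linear_combination hdK
  have mem : ∀ {x y M}, G x → G y → BL S M x ψ → BL S (tr S (y - x) y ψ M) y ψ := by
    intro x y M hx hy hM
    exact trv_mem H hstd (c := 1) (G_dot hx) (G_sub hx hy) (by rw [one_smul]; abel) hM
  have fin : U w (w + u) (w + u') := by
    refine ⟨⟨0, 0, by simp⟩, 1, 0, 0, 1, by simp, by simp, by simp⟩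
  have res := plane_lemma (X := Ln) p hp3 (fun x => by
      rw [← Nat.cast_smul_eq_nsmul K, CharP.cast_eq_zero, zero_smul]) G U
    (fun {x y z} hT => hT.1) ?_ ?_ ?_ ?_ (fun x M => BL S M x ψ) (fun x y => tr S (y - x) y ψ)
    (fun x => PP S ω υ x ψ a b) mem ?_ ?_ ?_ ?_ (fun {x M} hx hM => PP_mem H hstd hc (G_frame hx) hM)
    (fun {x M} hx hM => PP_ne H hstd hc (G_frame hx) hM)
    (fun {x M} hx hM => (PP_cyc H hstd hc h3 (G_frame hx) hM).2.1)
    (fun {x M N} hx hM hN => (PP_cyc H hstd hc h3 (G_frame hx) hM).2.2 N hN) ?_ ?_ ?_ fin hM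
  · change tr S ((w + u') - (w + u)) (w + u') ψ (tr S ((w + u) - w) (w + u) ψ M) =
      tr S ((w + u') - w) (w + u') ψ M at res
    rw [add_sub_add_left_eq_sub, add_sub_cancel_left, add_sub_cancel_left] at res
    exact res
  · -- rot
    rintro x y z ⟨hx, i, j, k, l, hy, hz, hd⟩
    refine ⟨by rw [hy]; exact G_add i j hx, k - i, l - j, -i, -j, ?_, ?_, ?_⟩
    · rw [hy, hz]; push_cast; module
    · rw [hy]; push_cast; module
    · rw [← hd]; push_cast; ring
  · -- next
    rintro x y z ⟨hx, i, j, k, l, hy, hz, hd⟩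
    refine ⟨hx, k, l, 2 * k - i, 2 * l - j, hz, ?_, ?_⟩
    · rw [hy, hz]; push_cast; module
    · rw [← hd]; push_cast; ring
  · -- par
    rintro x y z ⟨hx, i, j, k, l, hy, hz, hd⟩
    refine ⟨?_, 2 * i - k, 2 * j - l, i, j, ?_, ?_, ?_⟩
    · have e : x + (z - y) = x + (((k - i : ℤ) : K) • u + ((l - j : ℤ) : K) • u') := by
        rw [hy, hz]; push_cast; module
      rw [e]
      exact G_add _ _ hx
    · rw [hy, hz]; push_cast; module
    · rw [hy, hz]; push_cast; module
    · rw [← hd]; push_cast; ring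
  · -- quad
    rintro x y z ⟨hx, i, j, k, l, hy, hz, hd⟩
    refine ⟨hx, k, l, k - i, l - j, hz, ?_, ?_⟩
    · rw [hy, hz]; push_cast; module
    · rw [← hd]; push_cast; ring
  · -- τ_id
    intro x M hx hM
    change tr S (x - x) x ψ M = M
    rw [sub_self, tr_zero]
  · -- τ_back
    intro x y M hx hy hM
    change tr S (x - y) x ψ (tr S (y - x) y ψ M) = M
    have e : x - y = (-1 : K) • (y - x) := by module
    rw [e, tr_smul (neg_ne_zero.2 one_ne_zero), trv_trv H hstd (c := 1) (d := 0) (G_dot hx)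
      (G_sub hx hy) (by rw [one_smul]; abel) (by rw [zero_smul, add_zero]) hM,
      trv_self H hstd (G_dot hx) (G_sub hx hy) hM]
  · -- τ_line
    intro x a₁ M m n hx hxa hM
    have ha1 : ψ ⬝ᵥ a₁ = 0 := by
      have := G_sub hx hxa
      rwa [add_sub_cancel_left] at this
    exact tr_line H hstd m n (G_dot hx) ha1 hM
  · -- line
    rintro x a₁ n ⟨i, j, hx⟩ ⟨i', j', hxa⟩
    refine ⟨i + n * (i' - i), j + n * (j' - j), ?_⟩
    have e : a₁ = ((i' - i : ℤ) : K) • u + ((j' - j : ℤ) : K) • u' := by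
      have : a₁ = (x + a₁) - x := by abel
      rw [this, hxa, hx]
      push_cast
      module
    rw [← Nat.cast_smul_eq_nsmul K, e, hx]
    push_cast
    module
  · -- A1
    intro x y z M hT hM
    obtain ⟨a₁, b₁, F1, hx, hy, hz, ey, ez, c1, c2, c3⟩ := tri hT hM
    have h1 := con1 H hstd hc F1 hM ey ez
    change tr S (z - y) z ψ (PP S ω υ y ψ a b (tr S (y - x) y ψ M)) ≠ tr S (z - x) z ψ M
    have e1 : z - y = δ • a₁ := by rw [ey, ez]; module
    have e2 : y - x = δ • b₁ := by rw [ey]; abel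
    have e3 : z - x = δ • (b₁ + a₁) := by rw [ez]; abel
    have m1 := mem hx hy hM
    rw [e2, tr_smul hδ] at m1
    rw [e1, e2, e3, tr_smul hδ, tr_smul hδ, tr_smul hδ, ← c1 _ m1]
    exact h1
  · -- A2
    intro x y z M hT hM
    obtain ⟨a₁, b₁, F1, hx, hy, hz, ey, ez, c1, c2, c3⟩ := tri hT hM
    have h1 := con2 H hstd hc h3 F1 hM ey ez
    change tr S (z - x) z ψ M ≠ PP S ω υ z ψ a b (tr S (z - y) z ψ (tr S (y - x) y ψ M))
    have e1 : z - y = δ • a₁ := by rw [ey, ez]; module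
    have e2 : y - x = δ • b₁ := by rw [ey]; abel
    have e3 : z - x = δ • (b₁ + a₁) := by rw [ez]; abel
    have m1 := mem hx hy hM
    have m2 := mem hy hz m1
    rw [e2, tr_smul hδ, e1, tr_smul hδ] at m2
    rw [e1, e2, e3, tr_smul hδ, tr_smul hδ, tr_smul hδ, ← c2 _ m2]
    exact h1
  · -- A3
    intro x y z M hT hM
    obtain ⟨a₁, b₁, F1, hx, hy, hz, ey, ez, c1, c2, c3⟩ := tri hT hM
    have ev : z + (z - y) = x + δ • (b₁ + a₁ + a₁) := by rw [ey, ez]; module
    have h1 := con3 H hstd hc h3 F1 hM ey ev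
    have hv : G (z + (z - y)) := by
      obtain ⟨hx', i, j, k, l, hy', hz', hd⟩ := hT
      have e : z + (z - y) = x + (((2 * k - i : ℤ) : K) • u + ((2 * l - j : ℤ) : K) • u') := by
        rw [hy', hz']; push_cast; module
      rw [e]
      exact G_add _ _ hx
    set v := z + (z - y) with hvdef
    change tr S (v - x) v ψ M ≠
      PP S ω υ v ψ a b (tr S (v - y) v ψ (PP S ω υ y ψ a b (tr S (y - x) y ψ M)))
    have e1 : v - y = (2 * δ) • a₁ := by rw [ev, ey]; module
    have e2 : y - x = δ • b₁ := by rw [ey]; abel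
    have e3 : v - x = δ • (b₁ + a₁ + a₁) := by rw [ev]; abel
    have m1 := mem hx hy hM
    have m1' := PP_mem H hstd hc (G_frame hy) m1
    have m2 := mem hy hv m1'
    have e4 : ∀ {N}, BL S N y ψ → tr S ((2 * δ) • a₁) v ψ N = tr S a₁ v ψ N := by
      intro N hN
      by_cases h2 : 2 * δ = 0
      · have hvy : v = y := by
          rw [h2, zero_smul] at e1
          exact sub_eq_zero.1 e1
        rw [h2, zero_smul, tr_zero, hvy, trv_self H hstd (G_dot hy) F1.da hN]
      · exact tr_smul h2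
    rw [e1, e4 m1'] at m2
    rw [e2, tr_smul hδ] at m2 m1 m1'
    rw [← c1 _ m1] at m2
    rw [e1, e2, e3, tr_smul hδ, tr_smul hδ, e4 m1', ← c1 _ m1, ← c3 _ _ hv m2]
    exact h1

end B

end Pool.Agent.Lib.MP_6b0fe3_coP
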