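import Pool.Agent.Lib.MP_6b0fe3_coR.Vec

/-! MP_6b0fe3_co, prime fields: a local system without monodromy has a section (abstract) -/

namespace Pool.Agent.Lib.MP_6b0fe3_coP

open Matrix Pool.Agent.Lib.MP_6b0fe3_coR

namespace SecC

section vec
variable {K : Type*} [Field K]

theorem triple (a b c : Fin 3 → K) : a ⬝ᵥ (b ⨯₃ c) =
    a 0 * (b 1 * c 2 - b 2 * c 1) + a 1 * (b 2 * c 0 - b 0 * c 2)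
      + a 2 * (b 0 * c 1 - b 1 * c 0) := by
  rw [dot3, cross_apply']; rfl

theorem common3 {a b c : Fin 3 → K} (h : a ⬝ᵥ (b ⨯₃ c) ≠ 0) :
    ∃ ψ : Fin 3 → K, ψ ⬝ᵥ a = 1 ∧ ψ ⬝ᵥ b = 1 ∧ ψ ⬝ᵥ c = 1 := by
  have e1 : (b ⨯₃ c + c ⨯₃ a + a ⨯₃ b) ⬝ᵥ a = a ⬝ᵥ (b ⨯₃ c) := by
    rw [triple, dot3, cross_apply', cross_apply', cross_apply']; simp; ring
  have e2 : (b ⨯₃ c + c ⨯₃ a + a ⨯₃ b) ⬝ᵥ b = a ⬝ᵥ (b ⨯₃ c) := by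
    rw [triple, dot3, cross_apply', cross_apply', cross_apply']; simp; ring
  have e3 : (b ⨯₃ c + c ⨯₃ a + a ⨯₃ b) ⬝ᵥ c = a ⬝ᵥ (b ⨯₃ c) := by
    rw [triple, dot3, cross_apply', cross_apply', cross_apply']; simp; ring
  refine ⟨(a ⬝ᵥ (b ⨯₃ c))⁻¹ • (b ⨯₃ c + c ⨯₃ a + a ⨯₃ b), ?_, ?_, ?_⟩
  · rw [smul_dotProduct, e1, smul_eq_mul, inv_mul_cancel₀ h]
  · rw [smul_dotProduct, e2, smul_eq_mul, inv_mul_cancel₀ h]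
  · rw [smul_dotProduct, e3, smul_eq_mul, inv_mul_cancel₀ h]

theorem ind_of_triple {a b c : Fin 3 → K} (h : a ⬝ᵥ (b ⨯₃ c) ≠ 0) :
    a ⨯₃ b ≠ 0 ∧ a ⨯₃ c ≠ 0 ∧ b ⨯₃ c ≠ 0 := by
  refine ⟨fun h0 => h ?_, fun h0 => h ?_, fun h0 => h ?_⟩
  · obtain ⟨h1, h2, h3⟩ := (cross_zero_iff' _ _).1 h0
    rw [triple]
    linear_combination c 0 * h1 + c 1 * h2 + c 2 * h3
  · obtain ⟨h1, h2, h3⟩ := (cross_zero_iff' _ _).1 h0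
    rw [triple]
    linear_combination - b 0 * h1 - b 1 * h2 - b 2 * h3
  · rw [h0]; simp

theorem single_dot (i : Fin 3) (n : Fin 3 → K) :
    (Pi.single i (1 : K) : Fin 3 → K) ⬝ᵥ n = n i := by
  simp

theorem exists_ne {n : Fin 3 → K} (h : n ≠ 0) : ∃ i, n i ≠ 0 := by
  by_contra h'
  push Not at h'
  exact h (funext h')

theorem par_lemma {a b c : Fin 3 → K} {i : Fin 3} (h : a ⬝ᵥ (b ⨯₃ c) = 0)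
    (hi : (b ⨯₃ c) i ≠ 0) (hab : a ⨯₃ b ≠ 0) : (a ⨯₃ b) i ≠ 0 := by
  intro h0
  apply hab
  rw [triple] at h
  have key : ∀ j, (a ⨯₃ b) j * (b ⨯₃ c) i = (a ⨯₃ b) i * (b ⨯₃ c) j := by
    intro j
    rw [cross_apply', cross_apply']
    fin_cases i <;> fin_cases j <;> simp <;>
      first
      | ring1
      | linear_combination (b 0) * h
      | linear_combination (-b 0) * h
      | linear_combination (b 1) * h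
      | linear_combination (-b 1) * h
      | linear_combination (b 2) * h
      | linear_combination (-b 2) * h
  ext j
  have := key j
  rw [h0, zero_mul] at this
  simpa using (mul_eq_zero.1 this).resolve_right hi

theorem triple_swap (a b c : Fin 3 → K) : a ⬝ᵥ (c ⨯₃ b) = - (a ⬝ᵥ (b ⨯₃ c)) := by
  rw [triple, triple]; ring

theorem cross_swap_apply (b c : Fin 3 → K) (i : Fin 3) : (c ⨯₃ b) i = - (b ⨯₃ c) i := by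
  rw [← cross_anticomm b c]; rfl

theorem par_lemma' {a b c : Fin 3 → K} {i : Fin 3} (h : a ⬝ᵥ (b ⨯₃ c) = 0)
    (hi : (b ⨯₃ c) i ≠ 0) (hac : a ⨯₃ c ≠ 0) : (a ⨯₃ c) i ≠ 0 := by
  apply par_lemma (c := b) _ _ hac
  · rw [triple_swap, h, neg_zero]
  · rw [cross_swap_apply]; exact neg_ne_zero.2 hi

theorem ind_symm {a b : Fin 3 → K} (h : a ⨯₃ b ≠ 0) : b ⨯₃ a ≠ 0 :=
  fun h' => h (cross_zero_symm h')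

theorem exists_ind {a : Fin 3 → K} (h : a ≠ 0) : ∃ u : Fin 3 → K, a ⨯₃ u ≠ 0 := by
  obtain ⟨i, hi⟩ := exists_ne h
  fin_cases i
  · refine ⟨![0, 1, 0], fun h0 => hi ?_⟩
    have := ((cross_zero_iff' _ _).1 h0).2.2
    simpa using this
  · refine ⟨![0, 0, 1], fun h0 => hi ?_⟩
    have := ((cross_zero_iff' _ _).1 h0).1
    simpa using this
  · refine ⟨![1, 0, 0], fun h0 => hi ?_⟩
    have := ((cross_zero_iff' _ _).1 h0).2.1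
    simpa using this

theorem common2 {a b : Fin 3 → K} (h : a ⨯₃ b ≠ 0) :
    ∃ ψ : Fin 3 → K, ψ ⬝ᵥ a = 1 ∧ ψ ⬝ᵥ b = 1 := by
  obtain ⟨i, hi⟩ := exists_ne h
  obtain ⟨ψ, -, h1, h2⟩ := common3 (a := Pi.single i 1) (b := a) (c := b)
    (by rw [single_dot]; exact hi)
  exact ⟨ψ, h1, h2⟩

theorem ne_zero_of_dot {ψ a : Fin 3 → K} (h : ψ ⬝ᵥ a = 1) : a ≠ 0 := by
  rintro rfl
  simp at h

theorem eq_of_par {ψ a b : Fin 3 → K} (ha : ψ ⬝ᵥ a = 1) (hb : ψ ⬝ᵥ b = 1) (h : a ⨯₃ b = 0) :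
    b = a := by
  obtain ⟨c, -, rfl⟩ := (cross_eq_zero_iff (ne_zero_of_dot ha) (ne_zero_of_dot hb)).1 h
  rw [dotProduct_smul, ha, smul_eq_mul, mul_one] at hb
  rw [hb, one_smul]

theorem par_trans {a b c : Fin 3 → K} (hb : b ≠ 0) (h1 : a ⨯₃ b = 0) (h2 : b ⨯₃ c = 0) :
    a ⨯₃ c = 0 := by
  by_cases ha : a = 0
  · rw [ha]; simp
  by_cases hc : c = 0
  · rw [hc]; simp
  obtain ⟨s, hs, rfl⟩ := (cross_eq_zero_iff ha hb).1 h1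
  obtain ⟨t, -, rfl⟩ := (cross_eq_zero_iff hb hc).1 h2
  rw [smul_smul]
  exact cross_smul_right _ _

end vec

/-- a local system of sets -/
structure LS (K : Type*) [Field K] (X : Type*) where
  B : (Fin 3 → K) → (Fin 3 → K) → X → Prop
  V : (Fin 3 → K) → (Fin 3 → K) → (Fin 3 → K) → X → X
  Hh : (Fin 3 → K) → (Fin 3 → K) → (Fin 3 → K) → X → X
  V_mem : ∀ ψ w w' M, ψ ⬝ᵥ w = 1 → ψ ⬝ᵥ w' = 1 → B w ψ M → B w' ψ (V ψ w w' M)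
  V_id : ∀ ψ w M, ψ ⬝ᵥ w = 1 → B w ψ M → V ψ w w M = M
  V_comp : ∀ ψ w w' w'' M, ψ ⬝ᵥ w = 1 → ψ ⬝ᵥ w' = 1 → ψ ⬝ᵥ w'' = 1 → B w ψ M →
      V ψ w' w'' (V ψ w w' M) = V ψ w w'' M
  H_mem : ∀ w ψ ψ' M, ψ ⬝ᵥ w = 1 → ψ' ⬝ᵥ w = 1 → B w ψ M → B w ψ' (Hh w ψ ψ' M)
  H_id : ∀ w ψ M, ψ ⬝ᵥ w = 1 → B w ψ M → Hh w ψ ψ M = M
  H_comp : ∀ w ψ ψ' ψ'' M, ψ ⬝ᵥ w = 1 → ψ' ⬝ᵥ w = 1 → ψ'' ⬝ᵥ w = 1 → B w ψ M →
      Hh w ψ' ψ'' (Hh w ψ ψ' M) = Hh w ψ ψ'' M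
  sq : ∀ w w' ψ ψ' M, ψ ⬝ᵥ w = 1 → ψ ⬝ᵥ w' = 1 → ψ' ⬝ᵥ w = 1 → ψ' ⬝ᵥ w' = 1 → B w ψ M →
      Hh w' ψ ψ' (V ψ w w' M) = V ψ' w w' (Hh w ψ ψ' M)

namespace LS
variable {K : Type*} [Field K] {X : Type*} (L : LS K X)

/-- sections over `w` -/
structure Sec (w : Fin 3 → K) (σ : (Fin 3 → K) → X) : Prop where
  mem : ∀ ψ, ψ ⬝ᵥ w = 1 → L.B w ψ (σ ψ)
  tr : ∀ ψ ψ', ψ ⬝ᵥ w = 1 → ψ' ⬝ᵥ w = 1 → σ ψ' = L.Hh w ψ ψ' (σ ψ)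

/-- compatible sections -/
def C (w : Fin 3 → K) (σ : (Fin 3 → K) → X) (w' : Fin 3 → K) (σ' : (Fin 3 → K) → X) : Prop :=
  ∀ ψ, ψ ⬝ᵥ w = 1 → ψ ⬝ᵥ w' = 1 → σ' ψ = L.V ψ w w' (σ ψ)

variable {L} {w w' w'' : Fin 3 → K} {σ σ' σ'' : (Fin 3 → K) → X}

theorem one_enough (hσ : L.Sec w σ) (hσ' : L.Sec w' σ') {ψ : Fin 3 → K} (h1 : ψ ⬝ᵥ w = 1)
    (h2 : ψ ⬝ᵥ w' = 1) (h : σ' ψ = L.V ψ w w' (σ ψ)) : L.C w σ w' σ' := by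
  intro ψ' h1' h2'
  rw [hσ'.tr ψ ψ' h2 h2', h, L.sq w w' ψ ψ' (σ ψ) h1 h2 h1' h2' (hσ.mem ψ h1),
    ← hσ.tr ψ ψ' h1 h1']

theorem C_symm (hσ : L.Sec w σ) (h : L.C w σ w' σ') : L.C w' σ' w σ := by
  intro ψ h1 h2
  rw [h ψ h2 h1, L.V_comp ψ w w' w (σ ψ) h2 h1 h2 (hσ.mem ψ h2), L.V_id ψ w _ h2 (hσ.mem ψ h2)]

theorem C_refl (hσ : L.Sec w σ) : L.C w σ w σ := by
  intro ψ h1 _
  rw [L.V_id ψ w _ h1 (hσ.mem ψ h1)]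

theorem C_trans (hσ : L.Sec w σ) (hσ'' : L.Sec w'' σ'')
    (h : L.C w σ w' σ') (h' : L.C w' σ' w'' σ'') {ψ : Fin 3 → K} (h1 : ψ ⬝ᵥ w = 1)
    (h2 : ψ ⬝ᵥ w' = 1) (h3 : ψ ⬝ᵥ w'' = 1) : L.C w σ w'' σ'' := by
  refine one_enough hσ hσ'' h1 h3 ?_
  rw [h' ψ h2 h3, h ψ h1 h2, L.V_comp ψ w w' w'' (σ ψ) h1 h2 h3 (hσ.mem ψ h1)]

theorem exists_tr (hσ : L.Sec w σ) {ψ : Fin 3 → K} (h1 : ψ ⬝ᵥ w = 1) (h2 : ψ ⬝ᵥ w' = 1) :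
    ∃ σ', L.Sec w' σ' ∧ L.C w σ w' σ' := by
  have hB := L.V_mem ψ w w' _ h1 h2 (hσ.mem ψ h1)
  have hS : L.Sec w' (fun ψ' => L.Hh w' ψ ψ' (L.V ψ w w' (σ ψ))) :=
    ⟨fun ψ' h' => L.H_mem w' ψ ψ' _ h2 h' hB,
      fun ψ' ψ'' h' h'' => (L.H_comp w' ψ ψ' ψ'' _ h2 h' h'' hB).symm⟩
  exact ⟨_, hS, one_enough hσ hS h1 h2 (L.H_id w' ψ _ h2 hB)⟩

theorem exists_tr' (hσ : L.Sec w σ) (h : w ⨯₃ w' ≠ 0) :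
    ∃ σ', L.Sec w' σ' ∧ L.C w σ w' σ' := by
  obtain ⟨ψ, h1, h2⟩ := common2 h
  exact exists_tr hσ h1 h2

theorem caseA {w₀ : Fin 3 → K} {σ₀ : (Fin 3 → K) → X} (h₀ : L.Sec w₀ σ₀) (hσ : L.Sec w σ)
    (hσ' : L.Sec w' σ') (i1 : w₀ ⨯₃ w ≠ 0) (i2 : w₀ ⨯₃ w' ≠ 0) (i3 : w ⨯₃ w' ≠ 0)
    (c1 : L.C w₀ σ₀ w σ) (c2 : L.C w₀ σ₀ w' σ') : L.C w σ w' σ' := by
  by_cases hD : w₀ ⬝ᵥ (w ⨯₃ w') = 0
  · obtain ⟨i, hi⟩ := exists_ne i3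
    have j1 := par_lemma hD hi i1
    have j2 := par_lemma' hD hi i2
    set v : Fin 3 → K := Pi.single i 1 with hv
    have d1 : v ⬝ᵥ (w₀ ⨯₃ w) ≠ 0 := by rw [hv, single_dot]; exact j1
    have d2 : v ⬝ᵥ (w₀ ⨯₃ w') ≠ 0 := by rw [hv, single_dot]; exact j2
    have d3 : v ⬝ᵥ (w ⨯₃ w') ≠ 0 := by rw [hv, single_dot]; exact hi
    obtain ⟨σv, hv1, hv2⟩ := exists_tr' h₀ (ind_symm (ind_of_triple d1).1)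
    have e1 : L.C w σ v σv := by
      obtain ⟨ψ, p1, p2, p3⟩ := common3 d1
      exact C_trans hσ hv1 (C_symm h₀ c1) hv2 p3 p2 p1
    have e2 : L.C v σv w' σ' := by
      obtain ⟨ψ, p1, p2, p3⟩ := common3 d2
      exact C_trans hv1 hσ' (C_symm h₀ hv2) c2 p1 p2 p3
    obtain ⟨ψ, p1, p2, p3⟩ := common3 d3
    exact C_trans hσ hσ' e1 e2 p2 p1 p3
  · obtain ⟨ψ, p1, p2, p3⟩ := common3 hD
    exact C_trans hσ hσ' (C_symm h₀ c1) c2 p2 p1 p3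

theorem caseB {w₀ u : Fin 3 → K} {σ₀ τ : (Fin 3 → K) → X} (h₀ : L.Sec w₀ σ₀) (hτ : L.Sec u τ)
    (iu : w₀ ⨯₃ u ≠ 0) (cu : L.C w₀ σ₀ u τ) (hσ : L.Sec w σ) (hσ' : L.Sec w' σ')
    (hw : w ≠ 0) (i1 : w₀ ⨯₃ w = 0) (i2 : w₀ ⨯₃ w' ≠ 0)
    (c1 : L.C u τ w σ) (c2 : L.C w₀ σ₀ w' σ') : L.C w σ w' σ' := by
  have hw₀ : w₀ ≠ 0 := by rintro rfl; simp at iu
  have i3 : w ⨯₃ w' ≠ 0 := fun h => i2 (par_trans hw i1 h)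
  have i4 : u ⨯₃ w ≠ 0 := fun h => iu (cross_zero_symm (par_trans hw h (cross_zero_symm i1)))
  by_cases hD : u ⬝ᵥ (w ⨯₃ w') = 0
  · obtain ⟨i, hi⟩ := exists_ne i3
    have j1 := par_lemma hD hi i4
    set v : Fin 3 → K := Pi.single i 1 with hv
    have d1 : v ⬝ᵥ (u ⨯₃ w) ≠ 0 := by rw [hv, single_dot]; exact j1
    have d3 : v ⬝ᵥ (w ⨯₃ w') ≠ 0 := by rw [hv, single_dot]; exact hi
    have i5 : w₀ ⨯₃ v ≠ 0 := fun h =>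
      (ind_of_triple d3).1 (cross_zero_symm (par_trans hw₀ (cross_zero_symm i1) h))
    obtain ⟨σv, hv1, hv2⟩ := exists_tr' h₀ i5
    have e0 : L.C u τ v σv :=
      caseA h₀ hτ hv1 iu i5 (ind_symm (ind_of_triple d1).1) cu hv2
    have e1 : L.C w σ v σv := by
      obtain ⟨ψ, p1, p2, p3⟩ := common3 d1
      exact C_trans hσ hv1 (C_symm hτ c1) e0 p3 p2 p1
    have e2 : L.C v σv w' σ' :=
      caseA h₀ hv1 hσ' i5 i2 (ind_of_triple d3).2.1 hv2 c2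
    obtain ⟨ψ, p1, p2, p3⟩ := common3 d3
    exact C_trans hσ hσ' e1 e2 p2 p1 p3
  · obtain ⟨ψ, p1, p2, p3⟩ := common3 hD
    have e0 : L.C u τ w' σ' := caseA h₀ hτ hσ' iu i2 (ind_of_triple hD).2.1 cu c2
    exact C_trans hσ hσ' (C_symm hτ c1) e0 p2 p1 p3

end LS

end SecC

open SecC SecC.LS in
/-- Abstract lemma. `B w ψ` (for `ψ·w = 1`) is a set, `V ψ w w'` and `Hh w ψ ψ'` are transports,
without monodromy for fixed `ψ` and for fixed `w`, and squares commute. Then there is a section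
through every element. -/
theorem exists_section {K : Type*} [Field K] {X : Type*}
    (B : (Fin 3 → K) → (Fin 3 → K) → X → Prop)
    (V : (Fin 3 → K) → (Fin 3 → K) → (Fin 3 → K) → X → X)
    (Hh : (Fin 3 → K) → (Fin 3 → K) → (Fin 3 → K) → X → X)
    (V_mem : ∀ ψ w w' M, ψ ⬝ᵥ w = 1 → ψ ⬝ᵥ w' = 1 → B w ψ M → B w' ψ (V ψ w w' M))
    (V_id : ∀ ψ w M, ψ ⬝ᵥ w = 1 → B w ψ M → V ψ w w M = M)
    (V_comp : ∀ ψ w w' w'' M, ψ ⬝ᵥ w = 1 → ψ ⬝ᵥ w' = 1 → ψ ⬝ᵥ w'' = 1 → B w ψ M →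
      V ψ w' w'' (V ψ w w' M) = V ψ w w'' M)
    (H_mem : ∀ w ψ ψ' M, ψ ⬝ᵥ w = 1 → ψ' ⬝ᵥ w = 1 → B w ψ M → B w ψ' (Hh w ψ ψ' M))
    (H_id : ∀ w ψ M, ψ ⬝ᵥ w = 1 → B w ψ M → Hh w ψ ψ M = M)
    (H_comp : ∀ w ψ ψ' ψ'' M, ψ ⬝ᵥ w = 1 → ψ' ⬝ᵥ w = 1 → ψ'' ⬝ᵥ w = 1 → B w ψ M →
      Hh w ψ' ψ'' (Hh w ψ ψ' M) = Hh w ψ ψ'' M)
    (sq : ∀ w w' ψ ψ' M, ψ ⬝ᵥ w = 1 → ψ ⬝ᵥ w' = 1 → ψ' ⬝ᵥ w = 1 → ψ' ⬝ᵥ w' = 1 → B w ψ M →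
      Hh w' ψ ψ' (V ψ w w' M) = V ψ' w w' (Hh w ψ ψ' M))
    {w₀ ψ₀ : Fin 3 → K} {M₀ : X} (h0 : ψ₀ ⬝ᵥ w₀ = 1) (hM0 : B w₀ ψ₀ M₀) :
    ∃ T : (Fin 3 → K) → (Fin 3 → K) → X, (∀ w ψ, ψ ⬝ᵥ w = 1 → B w ψ (T w ψ)) ∧
      (∀ w w' ψ, ψ ⬝ᵥ w = 1 → ψ ⬝ᵥ w' = 1 → T w' ψ = V ψ w w' (T w ψ)) ∧
      (∀ w ψ ψ', ψ ⬝ᵥ w = 1 → ψ' ⬝ᵥ w = 1 → T w ψ' = Hh w ψ ψ' (T w ψ)) := by
  let L : LS K X := ⟨B, V, Hh, V_mem, V_id, V_comp, H_mem, H_id, H_comp, sq⟩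
  have h₀ : L.Sec w₀ (fun ψ => Hh w₀ ψ₀ ψ M₀) :=
    ⟨fun ψ h => H_mem w₀ ψ₀ ψ _ h0 h hM0,
      fun ψ ψ' h h' => (H_comp w₀ ψ₀ ψ ψ' _ h0 h h' hM0).symm⟩
  set σ₀ : (Fin 3 → K) → X := fun ψ => Hh w₀ ψ₀ ψ M₀ with hσ₀
  obtain ⟨u, iu⟩ := exists_ind (ne_zero_of_dot h0)
  obtain ⟨τ, hτ, cu⟩ := exists_tr' h₀ iu
  have ex : ∀ w : Fin 3 → K, ∃ σ, L.Sec w σ ∧ (w₀ ⨯₃ w ≠ 0 → L.C w₀ σ₀ w σ) ∧
      (w₀ ⨯₃ w = 0 → L.C u τ w σ) := by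
    intro w
    by_cases hw : w = 0
    · subst hw
      refine ⟨fun _ => M₀, ⟨fun ψ h => ?_, fun ψ ψ' h _ => ?_⟩, fun h => ?_, fun _ ψ _ h => ?_⟩
      · exact absurd h (by simp)
      · exact absurd h (by simp)
      · exact absurd (by simp) h
      · exact absurd h (by simp)
    · by_cases hi : w₀ ⨯₃ w = 0
      · have i4 : u ⨯₃ w ≠ 0 := fun h => iu (cross_zero_symm (par_trans hw h (cross_zero_symm hi)))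
        obtain ⟨σ, h1, h2⟩ := exists_tr' hτ i4
        exact ⟨σ, h1, fun h => absurd hi h, fun _ => h2⟩
      · obtain ⟨σ, h1, h2⟩ := exists_tr' h₀ hi
        exact ⟨σ, h1, fun _ => h2, fun h => absurd h hi⟩
  choose T hT hT1 hT2 using ex
  refine ⟨T, fun w ψ h => (hT w).mem ψ h, ?_, fun w ψ ψ' h h' => (hT w).tr ψ ψ' h h'⟩
  intro w w' ψ h h'
  suffices hC : L.C w (T w) w' (T w') from hC ψ h h'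
  by_cases hp : w ⨯₃ w' = 0
  · have := eq_of_par h h' hp
    subst this
    exact C_refl (hT w')
  by_cases i1 : w₀ ⨯₃ w = 0
  · by_cases i2 : w₀ ⨯₃ w' = 0
    · exact absurd (par_trans (ne_zero_of_dot h0) (cross_zero_symm i1) i2) hp
    · exact caseB h₀ hτ iu cu (hT w) (hT w') (ne_zero_of_dot h) i1 i2 (hT2 w i1) (hT1 w' i2)
  · by_cases i2 : w₀ ⨯₃ w' = 0
    · exact C_symm (hT w')
        (caseB h₀ hτ iu cu (hT w') (hT w) (ne_zero_of_dot h') i2 i1 (hT2 w' i2) (hT1 w i1))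
    · exact caseA h₀ (hT w) (hT w') i1 i2 hp (hT1 w i1) (hT1 w' i2)

end Pool.Agent.Lib.MP_6b0fe3_coP
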