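import Pool.Agent.Lib.MP_6b0fe3_coP.PenC
import Pool.Agent.Lib.MP_6b0fe3_coP.SecC
import Pool.Agent.Lib.MP_6b0fe3_coR.LabL
import Pool.Agent.Lib.MP_6b0fe3_coR.CountM

/-! MP_6b0fe3_co, prime fields: the coherent labelling -/

namespace Pool.Agent.Lib.MP_6b0fe3_coP

open Matrix Pool.Agent.Lib.MP_6b0fe3_coR

namespace LabCaux

open CountM

section A
variable {K : Type*} [Field K]

theorem inA_self {v w ψ : Fin 3 → K} (h : ψ ⬝ᵥ w = 1) (hv : ψ ⬝ᵥ v = 0) (hv0 : v ≠ 0) :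
    InA v (w ⨯₃ v) w ψ := ⟨hv0, h, hv, rfl⟩

theorem cross_add_smul (w v : Fin 3 → K) (α : K) : (w + α • v) ⨯₃ v = w ⨯₃ v := by
  rw [map_add, LinearMap.add_apply, map_smul, LinearMap.smul_apply, cross_self, smul_zero,
    add_zero]

theorem inA_V {v w w' ψ φ : Fin 3 → K} (α : K) (h : InA v φ w ψ) (e : w' = w + α • v) :
    InA v φ w' ψ := by
  refine ⟨h.v0, ?_, h.dv, ?_⟩
  · rw [e, dotProduct_add, dotProduct_smul, h.dw, h.dv, smul_zero, add_zero]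
  · rw [e, cross_add_smul]
    exact h.cr

theorem inA_H {v w ψ ψ' φ : Fin 3 → K} (β : K) (h : InA v φ w ψ) (e : ψ' = ψ + β • φ) :
    InA v φ w ψ' := by
  have h1 : φ ⬝ᵥ w = 0 := by
    rw [← h.cr]
    exact uniqL_cross_self_left w v
  have h2 : φ ⬝ᵥ v = 0 := by
    rw [← h.cr]
    exact uniqL_cross_self_right w v
  refine ⟨h.v0, ?_, ?_, h.cr⟩
  · rw [e, add_dotProduct, smul_dotProduct, h.dw, h1, smul_zero, add_zero]
  · rw [e, add_dotProduct, smul_dotProduct, h.dv, h2, smul_zero, add_zero]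

theorem inA_ne {v w ψ φ : Fin 3 → K} (h : InA v φ w ψ) : φ ≠ 0 := by
  rw [← h.cr]
  exact cross_w_ne h.dw h.dv h.v0

/-- two labels of one class differ by multiples of `v` and `φ` -/
theorem inA_decomp {v φ w ψ w' ψ' : Fin 3 → K} (h : InA v φ w ψ) (h' : InA v φ w' ψ') :
    ∃ α β : K, w' = w + α • v ∧ ψ' = ψ + β • φ := by
  have h1 : w' ⨯₃ v = (1 : K) • (w ⨯₃ v) := by
    rw [one_smul, h.cr, h'.cr]
  obtain ⟨α, hα⟩ := uniqL_factor h.v0 h1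
  rw [one_smul] at hα
  have h2 : (ψ' - ψ) ⬝ᵥ w = 0 := by
    have h3 := h'.dw
    rw [hα, dotProduct_add, dotProduct_smul, h'.dv, smul_zero, add_zero] at h3
    rw [sub_dotProduct, h3, h.dw, sub_self]
  have h3 : (ψ' - ψ) ⬝ᵥ v = 0 := by
    rw [sub_dotProduct, h'.dv, h.dv, sub_self]
  have h4 : φ ⨯₃ (ψ' - ψ) = 0 := by
    rw [← h.cr, cross_cross_left, h2, h3, zero_smul, zero_smul, sub_zero]
  obtain ⟨β, hβ⟩ := uniqL_parallel (inA_ne h) h4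
  refine ⟨α, β, hα, ?_⟩
  rw [← hβ]
  abel

/-- the direction of a step with fixed vector -/
theorem dir_H {v φ w ψ : Fin 3 → K} (h : InA v φ w ψ) (β : K) :
    (β • φ) ⨯₃ ψ = β • v := by
  rw [map_smul, LinearMap.smul_apply, ← h.cr, cross_cross_left, h.dw, h.dv, one_smul, zero_smul,
    sub_zero]

/-- the class of a step with fixed vector -/
theorem inA_of_H {w ψ φ : Fin 3 → K} (h : ψ ⬝ᵥ w = 1) (hφ : φ ⬝ᵥ w = 0) (h0 : φ ≠ 0) :
    InA (φ ⨯₃ ψ) φ w ψ := by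
  refine ⟨?_, h, ?_, ?_⟩
  · intro h1
    obtain ⟨c, hc⟩ := uniqL_parallel h0 h1
    rw [hc, smul_dotProduct, hφ, smul_zero] at h
    exact zero_ne_one h
  · rw [dot_cross_self]
  · rw [cross_cross_right, dotProduct_comm w ψ, h, dotProduct_comm w φ, hφ, one_smul, zero_smul,
      sub_zero]

end A

section B
variable {K : Type*} [Field K] [Fintype K] {Pt Ln : Type*} {I : Pt → Ln → Prop}
variable (H : Hex I (Fintype.card K)) {S : Sub K I}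
variable (hstd : ∀ M, BLine S M → ∃ w ψ, Std S M w ψ)
include H hstd

theorem trA {M : Ln} {v φ w ψ w' ψ' : Fin 3 → K} (hM : BL S M w ψ) (hA : InA v φ w ψ) (α : K)
    (h0 : α = 0 → w' = w ∧ ψ' = ψ) : tr S (α • v) w' ψ' M = tr S v w' ψ' M := by
  by_cases hα : α = 0
  · obtain ⟨rfl, rfl⟩ := h0 hα
    rw [hα, zero_smul, tr_zero, tr_self H hstd hM hA]
  · exact tr_smul hα

theorem V_comp {w w' w'' ψ : Fin 3 → K} {M : Ln}
    (hV : ∀ w ψ u u' : Fin 3 → K, ∀ M : Ln, ψ ⬝ᵥ w = 1 → ψ ⬝ᵥ u = 0 → ψ ⬝ᵥ u' = 0 →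
      u ⨯₃ u' ≠ 0 → BL S M w ψ →
      tr S (u' - u) (w + u') ψ (tr S u (w + u) ψ M) = tr S u' (w + u') ψ M)
    (h : ψ ⬝ᵥ w = 1) (h' : ψ ⬝ᵥ w' = 1) (h'' : ψ ⬝ᵥ w'' = 1) (hM : BL S M w ψ) :
    tr S (w'' - w') w'' ψ (tr S (w' - w) w' ψ M) = tr S (w'' - w) w'' ψ M := by
  have hu : ψ ⬝ᵥ (w' - w) = 0 := by rw [dotProduct_sub, h, h', sub_self]
  have hu' : ψ ⬝ᵥ (w'' - w) = 0 := by rw [dotProduct_sub, h, h'', sub_self]
  by_cases hx : (w' - w) ⨯₃ (w'' - w) = 0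
  · by_cases hw : w' - w = 0
    · have e : w' = w := sub_eq_zero.1 hw
      subst e
      rw [sub_self, tr_zero]
    · obtain ⟨β, hβ⟩ := uniqL_parallel hw hx
      set v := w' - w with hv
      have hA : InA v (w ⨯₃ v) w ψ := inA_self h hu hw
      have hA' : InA v (w ⨯₃ v) w' ψ := inA_V 1 hA (by rw [hv, one_smul]; abel)
      have hA'' : InA v (w ⨯₃ v) w'' ψ := inA_V β hA (by rw [← hβ]; abel)
      have e1 : w'' - w' = (β - 1) • v := by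
        rw [sub_smul, one_smul, ← hβ, hv]
        abel
      rw [e1, hβ, trA H hstd (tr_mem H hstd hM hA hA') hA' (β - 1), tr_tr H hstd hM hA hA' hA'',
        trA H hstd hM hA β]
      · intro h0
        rw [h0, zero_smul] at hβ
        exact ⟨sub_eq_zero.1 hβ, rfl⟩
      · intro h0
        rw [h0, zero_smul] at e1
        exact ⟨sub_eq_zero.1 e1, rfl⟩
  · have h1 := hV w ψ (w' - w) (w'' - w) M h hu hu' hx hM
    rw [sub_sub_sub_cancel_right, add_sub_cancel, add_sub_cancel] at h1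
    exact h1

theorem H_comp {w ψ ψ' ψ'' : Fin 3 → K} {M : Ln}
    (hH : ∀ w ψ φ φ' : Fin 3 → K, ∀ M : Ln, ψ ⬝ᵥ w = 1 → φ ⬝ᵥ w = 0 → φ' ⬝ᵥ w = 0 →
      φ ⨯₃ φ' ≠ 0 → BL S M w ψ →
      tr S ((φ' - φ) ⨯₃ (ψ + φ)) w (ψ + φ') (tr S (φ ⨯₃ ψ) w (ψ + φ) M) =
        tr S (φ' ⨯₃ ψ) w (ψ + φ') M)
    (h : ψ ⬝ᵥ w = 1) (h' : ψ' ⬝ᵥ w = 1) (h'' : ψ'' ⬝ᵥ w = 1) (hM : BL S M w ψ) :
    tr S ((ψ'' - ψ') ⨯₃ ψ') w ψ'' (tr S ((ψ' - ψ) ⨯₃ ψ) w ψ' M) =
      tr S ((ψ'' - ψ) ⨯₃ ψ) w ψ'' M := by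
  have hu : (ψ' - ψ) ⬝ᵥ w = 0 := by rw [sub_dotProduct, h, h', sub_self]
  have hu' : (ψ'' - ψ) ⬝ᵥ w = 0 := by rw [sub_dotProduct, h, h'', sub_self]
  by_cases hx : (ψ' - ψ) ⨯₃ (ψ'' - ψ) = 0
  · by_cases hw : ψ' - ψ = 0
    · have e : ψ' = ψ := sub_eq_zero.1 hw
      subst e
      rw [sub_self, map_zero, LinearMap.zero_apply, tr_zero]
    · obtain ⟨β, hβ⟩ := uniqL_parallel hw hx
      set φ := ψ' - ψ with hφ
      set v := φ ⨯₃ ψ with hv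
      have hA : InA v φ w ψ := inA_of_H h hu hw
      have hA' : InA v φ w ψ' := inA_H 1 hA (by rw [hφ, one_smul]; abel)
      have hA'' : InA v φ w ψ'' := inA_H β hA (by rw [← hβ]; abel)
      have e0 : ψ'' - ψ' = (β - 1) • φ := by
        rw [sub_smul, one_smul, ← hβ, hφ]
        abel
      rw [e0, hβ, dir_H hA', dir_H hA, trA H hstd (tr_mem H hstd hM hA hA') hA' (β - 1),
        tr_tr H hstd hM hA hA' hA'', trA H hstd hM hA β]
      · intro h0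
        rw [h0, zero_smul] at hβ
        exact ⟨rfl, sub_eq_zero.1 hβ⟩
      · intro h0
        rw [h0, zero_smul] at e0
        exact ⟨rfl, sub_eq_zero.1 e0⟩
  · have h1 := hH w ψ (ψ' - ψ) (ψ'' - ψ) M h hu hu' hx hM
    rw [sub_sub_sub_cancel_right, add_sub_cancel, add_sub_cancel] at h1
    exact h1

theorem sq {w w' ψ ψ' : Fin 3 → K} {M : Ln} (h : ψ ⬝ᵥ w = 1) (h1 : ψ ⬝ᵥ w' = 1)
    (h2 : ψ' ⬝ᵥ w = 1) (h3 : ψ' ⬝ᵥ w' = 1) (hM : BL S M w ψ) :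
    tr S ((ψ' - ψ) ⨯₃ ψ) w' ψ' (tr S (w' - w) w' ψ M) =
      tr S (w' - w) w' ψ' (tr S ((ψ' - ψ) ⨯₃ ψ) w ψ' M) := by
  have hu : (ψ' - ψ) ⬝ᵥ w = 0 := by rw [sub_dotProduct, h, h2, sub_self]
  by_cases hw : ψ' - ψ = 0
  · have e : ψ' = ψ := sub_eq_zero.1 hw
    subst e
    rw [sub_self, map_zero, LinearMap.zero_apply, tr_zero, tr_zero]
  · set φ := ψ' - ψ with hφ
    set v := φ ⨯₃ ψ with hv
    have hA : InA v φ w ψ := inA_of_H h hu hw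
    have hA2 : InA v φ w ψ' := inA_H 1 hA (by rw [hφ, one_smul]; abel)
    have h4 : v ⨯₃ (w' - w) = 0 := by
      rw [hv, cross_cross_left, dotProduct_comm (w' - w) φ, dotProduct_comm (w' - w) ψ,
        dotProduct_sub ψ, h, h1, sub_self, zero_smul, sub_zero, hφ, dotProduct_sub,
        sub_dotProduct, sub_dotProduct, h, h1, h2, h3, sub_self, zero_smul]
    obtain ⟨α, hα⟩ := uniqL_parallel hA.v0 h4
    have e : w' = w + α • v := by
      rw [← hα]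
      abel
    have hA1 : InA v φ w' ψ := inA_V α hA e
    have hA3 : InA v φ w' ψ' := inA_V α hA2 e
    have h5 : α = 0 → w' = w := by
      intro h0
      rw [h0, zero_smul, add_zero] at e
      exact e
    rw [hα, trA H hstd hM hA α (fun h0 => ⟨h5 h0, rfl⟩),
      trA H hstd (tr_mem H hstd hM hA hA2) hA2 α (fun h0 => ⟨h5 h0, rfl⟩),
      tr_tr H hstd hM hA hA1 hA3, tr_tr H hstd hM hA hA2 hA3]

/-- a section is compatible with every A-step -/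
theorem T_step {T : (Fin 3 → K) → (Fin 3 → K) → Ln}
    (T_mem : ∀ w ψ, ψ ⬝ᵥ w = 1 → BL S (T w ψ) w ψ)
    (T_V : ∀ w w' ψ, ψ ⬝ᵥ w = 1 → ψ ⬝ᵥ w' = 1 → T w' ψ = tr S (w' - w) w' ψ (T w ψ))
    (T_H : ∀ w ψ ψ', ψ ⬝ᵥ w = 1 → ψ' ⬝ᵥ w = 1 →
      T w ψ' = tr S ((ψ' - ψ) ⨯₃ ψ) w ψ' (T w ψ))
    {v φ w ψ w' ψ' : Fin 3 → K} (hA : InA v φ w ψ) (hA' : InA v φ w' ψ') :
    T w' ψ' = tr S v w' ψ' (T w ψ) := by
  obtain ⟨α, β, hα, hβ⟩ := inA_decomp hA hA'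
  have hA1 : InA v φ w' ψ := inA_V α hA hα
  have e1 : w' - w = α • v := by
    rw [hα]
    abel
  have e2 : ψ' - ψ = β • φ := by
    rw [hβ]
    abel
  have hM := T_mem w ψ hA.dw
  have hM1 := T_mem w' ψ hA1.dw
  have h1 : T w' ψ = tr S v w' ψ (T w ψ) := by
    rw [T_V w w' ψ hA.dw hA1.dw, e1]
    refine trA H hstd hM hA α ?_
    intro h0
    rw [h0, zero_smul, add_zero] at hα
    exact ⟨hα, rfl⟩
  have h2 : T w' ψ' = tr S v w' ψ' (T w' ψ) := by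
    rw [T_H w' ψ ψ' hA1.dw hA'.dw, e2, dir_H hA1]
    refine trA H hstd hM1 hA1 β ?_
    intro h0
    rw [h0, zero_smul, add_zero] at hβ
    exact ⟨rfl, hβ⟩
  rw [h2, h1, tr_tr H hstd hM hA hA1 hA']

variable {ω υ : K} (hc : Cub ω υ)
include hc

omit [Fintype K] H hstd in
theorem exists_frame {w ψ : Fin 3 → K} (h : ψ ⬝ᵥ w = 1) :
    ∃ a a' : Fin 3 → K, Frame w ψ a a' (υ - ω) := by
  obtain ⟨v, r, hv, hr, hvr⟩ := exists_ker (ne_of_dot h).1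
  have hd := det_ne h hv hr hvr
  refine ⟨((υ - ω) / (w ⬝ᵥ (v ⨯₃ r))) • v, r, h, ?_, hr, ?_, hc.sub_ne⟩
  · rw [dotProduct_smul, hv, smul_zero]
  · rw [map_smul, LinearMap.smul_apply, dotProduct_smul, smul_eq_mul, div_mul_cancel₀ _ hd]

theorem T_PP {T : (Fin 3 → K) → (Fin 3 → K) → Ln}
    (T_mem : ∀ w ψ, ψ ⬝ᵥ w = 1 → BL S (T w ψ) w ψ)
    (T_V : ∀ w w' ψ, ψ ⬝ᵥ w = 1 → ψ ⬝ᵥ w' = 1 → T w' ψ = tr S (w' - w) w' ψ (T w ψ))
    (T_H : ∀ w ψ ψ', ψ ⬝ᵥ w = 1 → ψ' ⬝ᵥ w = 1 →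
      T w ψ' = tr S ((ψ' - ψ) ⨯₃ ψ) w ψ' (T w ψ))
    {w ψ a a' : Fin 3 → K} (F : Frame w ψ a a' (υ - ω)) :
    T (ω • w) (υ • ψ) = PP S ω υ w ψ a a' (T w ψ) := by
  obtain ⟨d1, d2, d3, d4, d5, d6⟩ := F.dots
  have ha0 : a ≠ 0 := by
    rintro rfl
    apply F.ne
    rw [← F.det, map_zero, LinearMap.zero_apply, dotProduct_zero]
  have ha'0 : a' ≠ 0 := by
    rintro rfl
    apply F.ne
    rw [← F.det, map_zero, dotProduct_zero]
  have h1 := hc.add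
  have h2 := hc.mul
  -- first step
  have A1 : InA a' (w ⨯₃ a') w ψ := inA_self F.dw F.da' ha'0
  have A2 : InA a' (w ⨯₃ a') (w + ω • a') (ψ + υ • (w ⨯₃ a')) :=
    inA_H υ (inA_V ω A1 rfl) rfl
  -- second step
  have A3 : InA ((ω - 1) • w + a - ω • a') ((w + ω • a') ⨯₃ ((ω - 1) • w + a - ω • a'))
      (w + ω • a') (ψ + υ • (w ⨯₃ a')) := by
    refine ⟨?_, A2.dw, ?_, rfl⟩
    · intro h0
      have h3 : ψ ⬝ᵥ ((ω - 1) • w + a - ω • a') = 0 := by rw [h0, dotProduct_zero]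
      rw [dotProduct_sub, dotProduct_add, dotProduct_smul, dotProduct_smul, F.dw, F.da, F.da',
        smul_zero, add_zero, sub_zero, smul_eq_mul, mul_one] at h3
      exact hc.ne_one (sub_eq_zero.1 h3)
    · simp only [dotProduct_sub, dotProduct_add, add_dotProduct, dotProduct_smul,
        smul_dotProduct, smul_eq_mul, F.dw, F.da, F.da', d4, d5, d6]
      linear_combination (1 - υ) * h1 + 2 * h2
  have A4 : InA ((ω - 1) • w + a - ω • a') ((w + ω • a') ⨯₃ ((ω - 1) • w + a - ω • a'))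
      (ω • w + a) (υ • ψ + w ⨯₃ a) := by
    refine ⟨A3.v0, ?_, ?_, ?_⟩
    · simp only [dotProduct_add, add_dotProduct, dotProduct_smul,
        smul_dotProduct, smul_eq_mul, F.dw, F.da, d1, d2]
      linear_combination h2
    · simp only [dotProduct_sub, dotProduct_add, add_dotProduct, dotProduct_smul,
        smul_dotProduct, smul_eq_mul, F.dw, F.da, F.da', d1, d2, d3]
      linear_combination (ω - 1) * h1 - h2
    · have e : ω • w + a = (w + ω • a') + (1 : K) • ((ω - 1) • w + a - ω • a') := by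
        module
      rw [e, cross_add_smul]
  -- third step
  have A5 : InA a ((ω • w + a) ⨯₃ a) (ω • w + a) (υ • ψ + w ⨯₃ a) := by
    refine ⟨ha0, A4.dw, ?_, rfl⟩
    simp only [add_dotProduct, smul_dotProduct, smul_eq_mul, F.da, d2]
    ring
  have A6 : InA a ((ω • w + a) ⨯₃ a) (ω • w) (υ • ψ) := by
    refine ⟨ha0, ?_, ?_, ?_⟩
    · rw [smul_dotProduct, dotProduct_smul, F.dw, smul_eq_mul, smul_eq_mul]
      linear_combination h2
    · rw [smul_dotProduct, F.da, smul_zero]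
    · rw [map_add, LinearMap.add_apply, cross_self, add_zero]
  have s1 := T_step H hstd T_mem T_V T_H A1 A2
  have s2 := T_step H hstd T_mem T_V T_H A3 A4
  have s3 := T_step H hstd T_mem T_V T_H A5 A6
  rw [s3, ← hc.sq, tr_zeta hc.cube, hc.sq, s2, s1]
  rfl

theorem T_ne {T : (Fin 3 → K) → (Fin 3 → K) → Ln}
    (T_mem : ∀ w ψ, ψ ⬝ᵥ w = 1 → BL S (T w ψ) w ψ)
    (T_V : ∀ w w' ψ, ψ ⬝ᵥ w = 1 → ψ ⬝ᵥ w' = 1 → T w' ψ = tr S (w' - w) w' ψ (T w ψ))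
    (T_H : ∀ w ψ ψ', ψ ⬝ᵥ w = 1 → ψ' ⬝ᵥ w = 1 →
      T w ψ' = tr S ((ψ' - ψ) ⨯₃ ψ) w ψ' (T w ψ))
    {w ψ : Fin 3 → K} (h : ψ ⬝ᵥ w = 1) : T (ω • w) (υ • ψ) ≠ T w ψ := by
  obtain ⟨a, a', F⟩ := exists_frame hc h
  rw [T_PP H hstd hc T_mem T_V T_H F]
  exact PP_ne H hstd hc F (T_mem w ψ h)

omit [Fintype K] H hstd in
theorem dot_zeta {w ψ : Fin 3 → K} (h : ψ ⬝ᵥ w = 1) : (υ • ψ) ⬝ᵥ (ω • w) = 1 := by
  rw [smul_dotProduct, dotProduct_smul, h, smul_eq_mul, smul_eq_mul, mul_one, mul_comm, hc.mul]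

omit [Fintype K] H hstd in
theorem root_cases {c : K} (h : c ^ 3 = 1) (h1 : c ≠ 1) : c = ω ∨ c = υ := by
  have h2 : (c - 1) * ((c - ω) * (c - υ)) = 0 := by
    have h3 := hc.add
    have h4 := hc.mul
    linear_combination h + (-c ^ 2 + c) * h3 + (c - 1) * h4
  rcases mul_eq_zero.1 h2 with h5 | h5
  · exact absurd (sub_eq_zero.1 h5) h1
  · rcases mul_eq_zero.1 h5 with h6 | h6
    · exact Or.inl (sub_eq_zero.1 h6)
    · exact Or.inr (sub_eq_zero.1 h6)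

theorem T_ne' {T : (Fin 3 → K) → (Fin 3 → K) → Ln}
    (T_mem : ∀ w ψ, ψ ⬝ᵥ w = 1 → BL S (T w ψ) w ψ)
    (T_V : ∀ w w' ψ, ψ ⬝ᵥ w = 1 → ψ ⬝ᵥ w' = 1 → T w' ψ = tr S (w' - w) w' ψ (T w ψ))
    (T_H : ∀ w ψ ψ', ψ ⬝ᵥ w = 1 → ψ' ⬝ᵥ w = 1 →
      T w ψ' = tr S ((ψ' - ψ) ⨯₃ ψ) w ψ' (T w ψ))
    {w ψ : Fin 3 → K} (h : ψ ⬝ᵥ w = 1) : T (υ • w) (ω • ψ) ≠ T w ψ := by
  have h1 := T_ne H hstd hc T_mem T_V T_H (dot_zeta hc.symm h)
  rw [smul_smul, smul_smul, hc.mul, mul_comm υ ω, hc.mul, one_smul, one_smul] at h1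
  exact h1.symm

end B

end LabCaux

section B
variable {K : Type*} [Field K] [Fintype K] {Pt Ln : Type*} {I : Pt → Ln → Prop}
variable (H : Hex I (Fintype.card K)) {S : Sub K I}
variable (hstd : ∀ M, BLine S M → ∃ w ψ, Std S M w ψ)
variable {ω υ : K} (hc : Cub ω υ) (h3 : Three S)
include H hstd hc h3

theorem exists_labC
    (hV : ∀ w ψ u u' : Fin 3 → K, ∀ M : Ln, ψ ⬝ᵥ w = 1 → ψ ⬝ᵥ u = 0 → ψ ⬝ᵥ u' = 0 →
      u ⨯₃ u' ≠ 0 → BL S M w ψ →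
      tr S (u' - u) (w + u') ψ (tr S u (w + u) ψ M) = tr S u' (w + u') ψ M)
    (hH : ∀ w ψ φ φ' : Fin 3 → K, ∀ M : Ln, ψ ⬝ᵥ w = 1 → φ ⬝ᵥ w = 0 → φ' ⬝ᵥ w = 0 →
      φ ⨯₃ φ' ≠ 0 → BL S M w ψ →
      tr S ((φ' - φ) ⨯₃ (ψ + φ)) w (ψ + φ') (tr S (φ ⨯₃ ψ) w (ψ + φ) M) =
        tr S (φ' ⨯₃ ψ) w (ψ + φ') M) : Nonempty (Lab S) := by
  classical
  -- an initial element
  have h00 : (Pi.single 0 1 : Fin 3 → K) ⬝ᵥ (Pi.single 0 1 : Fin 3 → K) = 1 := by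
    simp
  obtain ⟨M₀, hM₀⟩ : ∃ M₀, BL S M₀ (Pi.single 0 1 : Fin 3 → K) (Pi.single 0 1) := by
    obtain ⟨M₁, M₂, M₃, -, -, -, hB⟩ := h3 _ _ h00
    exact ⟨M₁, (hB M₁).2 (Or.inl rfl)⟩
  obtain ⟨T, T_mem, T_V, T_H⟩ := exists_section (fun w ψ M => BL S M w ψ)
    (fun ψ w w' M => tr S (w' - w) w' ψ M) (fun w ψ ψ' M => tr S ((ψ' - ψ) ⨯₃ ψ) w ψ' M)
    (by
      intro ψ w w' M h h' hM
      by_cases hw : w' - w = 0
      · have e : w' = w := sub_eq_zero.1 hw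
        subst e
        show BL S (tr S (w' - w') w' ψ M) w' ψ
        rw [sub_self, tr_zero]
        exact hM
      · have hu : ψ ⬝ᵥ (w' - w) = 0 := by rw [dotProduct_sub, h, h', sub_self]
        have hA := LabCaux.inA_self h hu hw
        exact tr_mem H hstd hM hA (LabCaux.inA_V 1 hA (by rw [one_smul]; abel)))
    (by
      intro ψ w M h hM
      show tr S (w - w) w ψ M = M
      rw [sub_self, tr_zero])
    (by
      intro ψ w w' w'' M h h' h'' hM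
      exact LabCaux.V_comp H hstd hV h h' h'' hM)
    (by
      intro w ψ ψ' M h h' hM
      by_cases hw : ψ' - ψ = 0
      · have e : ψ' = ψ := sub_eq_zero.1 hw
        subst e
        show BL S (tr S ((ψ' - ψ') ⨯₃ ψ') w ψ' M) w ψ'
        rw [sub_self, map_zero, LinearMap.zero_apply, tr_zero]
        exact hM
      · have hu : (ψ' - ψ) ⬝ᵥ w = 0 := by rw [sub_dotProduct, h, h', sub_self]
        have hA := LabCaux.inA_of_H h hu hw
        exact tr_mem H hstd hM hA (LabCaux.inA_H 1 hA (by rw [one_smul]; abel)))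
    (by
      intro w ψ M h hM
      show tr S ((ψ - ψ) ⨯₃ ψ) w ψ M = M
      rw [sub_self, map_zero, LinearMap.zero_apply, tr_zero])
    (by
      intro w ψ ψ' ψ'' M h h' h'' hM
      exact LabCaux.H_comp H hstd hH h h' h'' hM)
    (by
      intro w w' ψ ψ' M h h1 h2 h4 hM
      exact LabCaux.sq H hstd h h1 h2 h4 hM)
    h00 hM₀
  refine ⟨⟨fun M w ψ => ψ ⬝ᵥ w = 1 ∧ M = T w ψ, ?_, ?_, ?_⟩⟩
  · rintro M w ψ ⟨h, rfl⟩
    exact (T_mem w ψ h).2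
  · intro M hM
    obtain ⟨w, ψ, hs⟩ := hstd M hM
    have h : ψ ⬝ᵥ w = 1 := hs.1
    have hMB : BL S M w ψ := ⟨hM, hs⟩
    have hdA := LabCaux.dot_zeta hc h
    have hdB := LabCaux.dot_zeta hc.symm h
    have hA := T_mem w ψ h
    have hB : BL S (T (ω • w) (υ • ψ)) w ψ := by
      have h1 := BL.zeta (T_mem _ _ hdA) hc.symm.cube
      rw [smul_smul, smul_smul, mul_comm υ ω, hc.mul, one_smul, ← pow_succ, hc.symm.cube,
        one_smul] at h1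
      exact h1
    have hC : BL S (T (υ • w) (ω • ψ)) w ψ := by
      have h1 := BL.zeta (T_mem _ _ hdB) hc.cube
      rw [smul_smul, smul_smul, hc.mul, one_smul, ← pow_succ, hc.cube, one_smul] at h1
      exact h1
    have n1 : T (ω • w) (υ • ψ) ≠ T w ψ := LabCaux.T_ne H hstd hc T_mem T_V T_H h
    have n2 : T (υ • w) (ω • ψ) ≠ T w ψ := LabCaux.T_ne' H hstd hc T_mem T_V T_H h
    have n3 : T (υ • w) (ω • ψ) ≠ T (ω • w) (υ • ψ) := by
      have h1 := LabCaux.T_ne H hstd hc T_mem T_V T_H hdA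
      rw [smul_smul, smul_smul, ← pow_two, ← pow_two, hc.sq, hc.symm.sq] at h1
      exact h1
    obtain ⟨M₁, M₂, M₃, h12, h13, h23, hB3⟩ := h3 w ψ h
    have c1 := (hB3 _).1 hA
    have c2 := (hB3 _).1 hB
    have c3 := (hB3 _).1 hC
    have c4 := (hB3 _).1 hMB
    have h5 : M = T w ψ ∨ M = T (ω • w) (υ • ψ) ∨ M = T (υ • w) (ω • ψ) := by
      rcases c1 with e1 | e1 | e1 <;> rcases c2 with e2 | e2 | e2 <;>
        rcases c3 with e3 | e3 | e3 <;> rcases c4 with e4 | e4 | e4 <;>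
        first
          | exact absurd (e2.trans e1.symm) n1
          | exact absurd (e3.trans e1.symm) n2
          | exact absurd (e3.trans e2.symm) n3
          | exact Or.inl (e4.trans e1.symm)
          | exact Or.inr (Or.inl (e4.trans e2.symm))
          | exact Or.inr (Or.inr (e4.trans e3.symm))
    rcases h5 with h5 | h5 | h5
    · exact ⟨w, ψ, h, h5⟩
    · exact ⟨ω • w, υ • ψ, hdA, h5⟩
    · exact ⟨υ • w, ω • ψ, hdB, h5⟩
  · rintro v k t x y M N w ψ w' ψ' ht hox hoy hxt hyt hM hN hxM hyN ⟨h, hMT⟩ ⟨h', hNT⟩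
    have hMB : BL S M w ψ := by
      rw [hMT]
      exact T_mem w ψ h
    have hNB : BL S N w' ψ' := by
      rw [hNT]
      exact T_mem w' ψ' h'
    have hxv := (out_of_aline H S ht hxt (hox v k ht.1)).2
    have hyv := (out_of_aline H S ht hyt (hoy v k ht.1)).2
    obtain ⟨hv, hrep⟩ := rep_of_std H S hM hMB.2 hxM hxv
    obtain ⟨hv', hrep'⟩ := rep_of_std H S hN hNB.2 hyN hyv
    obtain ⟨c, hc3, hcv⟩ := rep_aline3 H S ht hxt hyt hox hoy hrep hrep'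
    have hv0 : v ≠ 0 := ht.1.1
    by_cases hc1 : c = 1
    · rw [hcv, hc1, one_smul]
    exfalso
    have hd3 : (c ^ 2) ^ 3 = 1 := by
      rw [← pow_mul, show 2 * 3 = 3 * 2 by norm_num, pow_mul, hc3, one_pow]
    have hd1 : c ^ 2 ≠ 1 := by
      intro e
      apply hc1
      calc c = c ^ 3 := by rw [pow_succ, e, one_mul]
        _ = 1 := hc3
    have A1 : InA v (w ⨯₃ v) w ψ := LabCaux.inA_self h hv hv0
    have A2 : InA v (w ⨯₃ v) ((c ^ 2) • w') ((c ^ 2) ^ 2 • ψ') := by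
      refine ⟨hv0, ?_, ?_, ?_⟩
      · rw [smul_dotProduct, dotProduct_smul, h', smul_eq_mul, smul_eq_mul, mul_one, ← pow_succ]
        exact hd3
      · rw [smul_dotProduct, hv', smul_zero]
      · rw [map_smul, LinearMap.smul_apply, hcv, smul_smul, ← pow_succ, hc3, one_smul]
    have hN2 : BL S N ((c ^ 2) • w') ((c ^ 2) ^ 2 • ψ') := BL.zeta hNB hd3
    have haa : AA S v M N := ⟨k, t, x, y, ht, hxt, hyt, hxM, hyN⟩
    have e1 := tr_eq H hstd hMB A1 A2 hN2 haa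
    have e2 := LabCaux.T_step H hstd T_mem T_V T_H A1 A2
    rw [← hMT, e1, hNT] at e2
    rcases LabCaux.root_cases hc hd3 hd1 with e | e
    · rw [e, hc.sq] at e2
      exact LabCaux.T_ne H hstd hc T_mem T_V T_H h' e2
    · rw [e, hc.symm.sq] at e2
      exact LabCaux.T_ne' H hstd hc T_mem T_V T_H h' e2

end B

end Pool.Agent.Lib.MP_6b0fe3_coP
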