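import Pool.Agent.Lib.MP_6b0fe3_coP.PenT

/-! MP_6b0fe3_co, odd order: `PP` depends on the lattice of the frame only -/

namespace Pool.Agent.Lib.MP_6b0fe3_coP

open Matrix Pool.Agent.Lib.MP_6b0fe3_coR

section abs
variable {K : Type*} [Field K]

/-- linear combinations of a frame -/
theorem Frame.comb {w ψ a a' : Fin 3 → K} {δ : K} (F : Frame w ψ a a' δ) {i j k l : K}
    (h : i * l - j * k = 1) : Frame w ψ (i • a + j • a') (k • a + l • a') δ := by
  refine ⟨F.dw, ?_, ?_, ?_, F.ne⟩
  · rw [dotProduct_add, dotProduct_smul, dotProduct_smul, F.da, F.da', smul_zero, smul_zero,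
      add_zero]
  · rw [dotProduct_add, dotProduct_smul, dotProduct_smul, F.da, F.da', smul_zero, smul_zero,
      add_zero]
  · have e : (i • a + j • a') ⨯₃ (k • a + l • a') = (i * l - j * k) • (a ⨯₃ a') := by
      have h1 : a' ⨯₃ a = - (a ⨯₃ a') := (cross_anticomm a a').symm
      simp only [map_add, LinearMap.add_apply, map_smul, LinearMap.smul_apply, cross_self, h1]
      module
    rw [e, h, one_smul, F.det]

section fc
variable {w ψ : Fin 3 → K} {δ : K} {X : Type*} {f : (Fin 3 → K) → (Fin 3 → K) → X}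
variable (hT : ∀ a a', Frame w ψ a a' δ → f a (a' + a) = f a a')
variable (hW : ∀ a a', Frame w ψ a a' δ → f (-a') a = f a a')
include hT hW

theorem fc_up_nat (n : ℕ) {a a' : Fin 3 → K} (F : Frame w ψ a a' δ) :
    f a (a' + (n : K) • a) = f a a' := by
  induction n with
  | zero => rw [Nat.cast_zero, zero_smul, add_zero]
  | succ n ih =>
    have F' : Frame w ψ a (a' + (n : K) • a) δ := by
      have h := F.comb (i := 1) (j := 0) (k := (n : K)) (l := 1) (by ring)
      rw [one_smul, zero_smul, add_zero, one_smul, add_comm] at h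
      exact h
    have h := hT a (a' + (n : K) • a) F'
    rw [← ih, ← h, Nat.cast_succ, add_smul, one_smul, add_assoc]

theorem fc_down_nat (n : ℕ) {a a' : Fin 3 → K} (F : Frame w ψ a a' δ) :
    f (a + (n : K) • a') a' = f a a' := by
  induction n with
  | zero => rw [Nat.cast_zero, zero_smul, add_zero]
  | succ n ih =>
    have F' : Frame w ψ (a + (n : K) • a') a' δ := by
      have h := F.comb (i := 1) (j := (n : K)) (k := 0) (l := 1) (by ring)
      rw [one_smul, zero_smul, zero_add, one_smul] at h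
      exact h
    have F'' : Frame w ψ (a + ((n + 1 : ℕ) : K) • a') a' δ := by
      have h := F.comb (i := 1) (j := ((n + 1 : ℕ) : K)) (k := 0) (l := 1) (by ring)
      rw [one_smul, zero_smul, zero_add, one_smul] at h
      exact h
    have G : Frame w ψ (-a') (a + ((n + 1 : ℕ) : K) • a') δ := by
      have h := F.comb (i := 0) (j := -1) (k := 1) (l := ((n + 1 : ℕ) : K)) (by ring)
      rw [neg_smul, one_smul, zero_smul, zero_add, one_smul] at h
      exact h
    rw [← ih, ← hW _ _ F', ← hW _ _ F'', ← hT _ _ G]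
    rw [Nat.cast_succ, add_smul, one_smul, ← add_assoc, add_neg_cancel_right]

end fc

/-- abstract: a function on frames invariant under `(a,a') → (a,a'+a)` and `(a,a') → (-a',a)` is
invariant under all changes of the frame with coefficients in the prime field -/
theorem frame_const {p : ℕ} [Fact p.Prime] [CharP K p] {w ψ : Fin 3 → K} {δ : K} {X : Type*}
    (f : (Fin 3 → K) → (Fin 3 → K) → X)
    (hT : ∀ a a', Frame w ψ a a' δ → f a (a' + a) = f a a')
    (hW : ∀ a a', Frame w ψ a a' δ → f (-a') a = f a a')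
    {a a' : Fin 3 → K} (F : Frame w ψ a a' δ) (i j k l : ℤ)
    (h : ((i * l - j * k : ℤ) : K) = 1) :
    f ((i : K) • a + (j : K) • a') ((k : K) • a + (l : K) • a') = f a a' := by
  -- integers are natural numbers in `K`
  have hnat : ∀ c : ZMod p, ∃ n : ℕ, (n : K) = ZMod.castHom (dvd_refl p) K c := by
    intro c
    refine ⟨c.val, ?_⟩
    rw [← map_natCast (ZMod.castHom (dvd_refl p) K), ZMod.natCast_zmod_val]
  set φ : ZMod p →+* K := ZMod.castHom (dvd_refl p) K with hφ
  have up : ∀ (c : ZMod p) {b b' : Fin 3 → K}, Frame w ψ b b' δ →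
      f b (b' + φ c • b) = f b b' := by
    intro c b b' Fb
    obtain ⟨n, hn⟩ := hnat c
    rw [← hn]
    exact fc_up_nat hT hW n Fb
  have down : ∀ (c : ZMod p) {b b' : Fin 3 → K}, Frame w ψ b b' δ →
      f (b + φ c • b') b' = f b b' := by
    intro c b b' Fb
    obtain ⟨n, hn⟩ := hnat c
    rw [← hn]
    exact fc_down_nat hT hW n Fb
  -- the statement over the prime field
  have main1 : ∀ i j k l : ZMod p, i * l - j * k = 1 → k ≠ 0 →
      f (φ i • a + φ j • a') (φ k • a + φ l • a') = f a a' := by
    intro i j k l h hk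
    have h' : φ i * φ l - φ j * φ k = 1 := by rw [← map_mul, ← map_mul, ← map_sub, h, map_one]
    have F1 := F.comb h'
    -- first step: make the coefficient `i` equal to one
    rw [← down ((1 - i) / k) F1]
    have e1 : φ i • a + φ j • a' + φ ((1 - i) / k) • (φ k • a + φ l • a') =
        a + φ (j + (1 - i) / k * l) • a' := by
      have h1 : φ ((1 - i) / k) * φ k = 1 - φ i := by
        rw [← map_mul, div_mul_cancel₀ _ hk, map_sub, map_one]
      rw [smul_add, smul_smul, smul_smul, h1, map_add, map_mul]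
      module
    rw [e1]
    have h2 : (1 : ZMod p) * l - (j + (1 - i) / k * l) * k = 1 := by
      have : (1 - i) / k * l * k = (1 - i) * l := by field_simp
      rw [add_mul, this, ← h]
      ring
    have h2' : (1 : K) * φ l - φ (j + (1 - i) / k * l) * φ k = 1 := by
      rw [← map_mul, ← map_one φ, ← map_mul, ← map_sub, h2]
    have F2 : Frame w ψ (a + φ (j + (1 - i) / k * l) • a') (φ k • a + φ l • a') δ := by
      have := F.comb h2'
      rwa [one_smul] at this
    rw [← up (-k) F2]
    have e2 : φ k • a + φ l • a' + φ (-k) • (a + φ (j + (1 - i) / k * l) • a') = a' := by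
      have h3 : φ l + φ (-k) * φ (j + (1 - i) / k * l) = 1 := by
        rw [map_neg]
        linear_combination h2'
      rw [smul_add, smul_smul]
      calc φ k • a + φ l • a' + (φ (-k) • a + (φ (-k) * φ (j + (1 - i) / k * l)) • a')
          = (φ k + φ (-k)) • a + (φ l + φ (-k) * φ (j + (1 - i) / k * l)) • a' := by module
        _ = a' := by rw [h3, map_neg, add_neg_cancel, zero_smul, zero_add, one_smul]
    rw [e2]
    exact down _ F
  have main2 : ∀ i j k l : ZMod p, i * l - j * k = 1 →
      f (φ i • a + φ j • a') (φ k • a + φ l • a') = f a a' := by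
    intro i j k l h
    by_cases hk : k = 0
    · have hi : i ≠ 0 := by
        rintro rfl
        rw [hk] at h
        simp at h
      have h' : φ i * φ l - φ j * φ k = 1 := by rw [← map_mul, ← map_mul, ← map_sub, h, map_one]
      have F1 := F.comb h'
      rw [← hT _ _ F1]
      have e : φ k • a + φ l • a' + (φ i • a + φ j • a') = φ (k + i) • a + φ (l + j) • a' := by
        rw [map_add, map_add]; module
      rw [e]
      apply main1
      · rw [← h]; ring
      · rw [hk, zero_add]; exact hi
    · exact main1 i j k l h hk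
  have e : ∀ n : ℤ, (n : K) = φ (n : ZMod p) := fun n => (map_intCast φ n).symm
  rw [e i, e j, e k, e l]
  apply main2
  have h' := h
  rw [e] at h'
  have : φ ((i * l - j * k : ℤ) : ZMod p) = φ 1 := by rw [h', map_one]
  have h3 := φ.injective this
  push_cast at h3
  exact h3

/-- every non-zero vector is in a frame -/
theorem frame_exists {w ψ a : Fin 3 → K} {δ : K} (hδ : δ ≠ 0) (h : ψ ⬝ᵥ w = 1) (ha0 : a ≠ 0)
    (ha : ψ ⬝ᵥ a = 0) : ∃ a', Frame w ψ a a' δ := by
  obtain ⟨i, hi⟩ : ∃ i, a i ≠ 0 := by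
    by_contra hne
    push Not at hne
    exact ha0 (funext hne)
  refine ⟨ψ ⨯₃ Pi.single i (δ / a i), h, ha, ?_, ?_, hδ⟩
  · exact dot_self_cross _ _
  · have e : w ⬝ᵥ (a ⨯₃ (ψ ⨯₃ Pi.single i (δ / a i))) =
        (ψ ⬝ᵥ w) * (a ⬝ᵥ Pi.single i (δ / a i)) - (ψ ⬝ᵥ a) * (w ⬝ᵥ Pi.single i (δ / a i)) := by
      simp only [cross_apply, dotProduct, Fin.sum_univ_three, Matrix.cons_val_zero,
        Matrix.cons_val_one, Matrix.cons_val]
      ring
    rw [e, h, ha, zero_mul, sub_zero, one_mul, dotProduct_single, mul_div_cancel₀ _ hi]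

end abs

section B
variable {K : Type*} [Field K] [Fintype K] {Pt Ln : Type*} {I : Pt → Ln → Prop}
variable (H : Hex I (Fintype.card K)) {S : Sub K I}
variable (hstd : ∀ M, BLine S M → ∃ w ψ, Std S M w ψ)
variable {ω υ : K} (hc : Cub ω υ) (h3 : Three S)
variable {w ψ a a' : Fin 3 → K} {M : Ln}
include H hstd hc h3

theorem PP_lat {p : ℕ} [Fact p.Prime] [CharP K p] (F : Frame w ψ a a' (υ - ω)) (i j k l : ℤ)
    (h : ((i * l - j * k : ℤ) : K) = 1) (hM : BL S M w ψ) :
    PP S ω υ w ψ ((i : K) • a + (j : K) • a') ((k : K) • a + (l : K) • a') M =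
      PP S ω υ w ψ a a' M :=
  frame_const (p := p) (δ := υ - ω) (w := w) (ψ := ψ) (fun a a' => PP S ω υ w ψ a a' M)
    (fun _ _ F => PP_T H hstd hc h3 F hM) (fun _ _ F => PP_W H hstd hc h3 F hM) F i j k l h

end B

end Pool.Agent.Lib.MP_6b0fe3_coP
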