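import Pool.Agent.Lib.MP_6b0fe3_coR.BasisC
import Pool.Agent.Lib.MP_6b0fe3_coR.OddO

/-! MP_6b0fe3_co, odd order: standard coordinates after a change of basis, from LB alone -/

namespace Pool.Agent.Lib.MP_6b0fe3_coP

open Matrix Pool.Agent.Lib.MP_6b0fe3_coR

section L
variable {K : Type*} [Field K] [Fintype K] [DecidableEq K] {Pt Ln : Type*} {I : Pt → Ln → Prop}
variable (H : Hex I (Fintype.card K)) (S : Sub K I) (hodd : Odd (Fintype.card K)) (hLB : LB S)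
include H hodd hLB

/-- every B-line has coordinates with some parameter -/
theorem tau_blineO {M : Ln} (hM : BLine S M) : ∃ (w ψ : Fin 3 → K) (σ : K), σ ≠ 0 ∧
    ψ ⬝ᵥ w = 1 ∧ (∀ v, v ≠ 0 → ψ ⬝ᵥ v = 0 → ∃ x, I x M ∧ Over S x v (w ⨯₃ v)) ∧
    ∀ x v k, I x M → Over S x v k → RepT S σ x v w ψ := by
  obtain ⟨w, ψ, hψ, hb⟩ := base_exists H S hLB hM
  obtain ⟨σ, hσ, hc⟩ := sigma_constO H S hodd hLB hM hψ hb
  have hnear := near_iffG H S hLB hM hψ hb hσ hc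
  refine ⟨w, ψ, σ, hσ, hψ, hb, ?_⟩
  intro x v k hx hv
  obtain ⟨hψv, hkw⟩ := base_only H S hM hψ hb hx hv
  obtain ⟨y, hy, hoy⟩ := hb v hv.1.1 hψv
  have hxy : x = y := by
    by_contra hne
    have := (opp_of_bline H S hM hx hy hne hv hoy).1
    rw [dot_cross_self] at this
    exact this rfl
  subst hxy
  exact ⟨hψ, hψv, hoy, fun r m hf ho => hnear v x hv.1.1 hψv hx hoy r m hf ho⟩

/-- one parameter `τ` for all B-lines -/
theorem tau_constO : ∃ τ : K, τ ≠ 0 ∧ ∀ M, BLine S M → ∃ w ψ, StdT S τ M w ψ := by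
  -- a start
  have hf0 : IsFlag (K := K) ![1, 0, 0] ![0, 1, 0] := by
    refine ⟨?_, ?_, ?_⟩
    · intro h
      exact one_ne_zero (congrFun h 0)
    · intro h
      exact one_ne_zero (congrFun h 1)
    · simp [dotProduct, Fin.sum_univ_three]
  obtain ⟨-, x0, -, -, hx0, -⟩ := exists_over H S hf0
  obtain ⟨M0, hM0, hxM0⟩ := bline_exists H S hx0
  obtain ⟨w0, ψ0, τ, hτ, -, -, hr0⟩ := tau_blineO H S hodd hLB hM0
  let P : Pt → Prop := fun x => ∀ v w ψ τ', RepT S τ' x v w ψ → ∃ c : K, c ≠ 0 ∧ τ' = c ^ 3 * τ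
  have hmul : ∀ {a b : K}, (∃ c : K, c ≠ 0 ∧ a = c ^ 3 * τ) → (∃ c : K, c ≠ 0 ∧ b = c ^ 3 * a) →
      ∃ c : K, c ≠ 0 ∧ b = c ^ 3 * τ := by
    rintro a b ⟨c, hc, rfl⟩ ⟨d, hd, rfl⟩
    exact ⟨d * c, mul_ne_zero hd hc, by ring⟩
  -- two points of the same B-line
  have hB : ∀ {x y : Pt} {l : Ln}, Out S x → Out S y → I x l → I y l → BLine S l → P x → P y := by
    intro x y l hx hy hxl hyl hl hPx
    obtain ⟨w, ψ, σ, -, -, -, hr⟩ := tau_blineO H S hodd hLB hl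
    obtain ⟨v, k, hv⟩ := over_exists H S hx
    have h1 := hPx v w ψ σ (hr x v k hxl hv)
    intro v' w' ψ' τ' h'
    exact hmul h1 (repT_unique H S hy (hr y v' _ hyl h'.2.2.1) h')
  have hP : ∀ x y, Out S x → Out S y → Coll I x y → P x → P y := by
    rintro x y hx hy ⟨l, hxl, hyl⟩ hPx
    by_cases hl : BLine S l
    · exact hB hx hy hxl hyl hl hPx
    · obtain ⟨v, k, ht, hxo⟩ := aline_of_not_bline H S hx hxl hl
      have hyo := (out_of_aline H S ht hyl (hy v k ht.1)).2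
      obtain ⟨M, hM, hxM⟩ := bline_exists H S hx
      obtain ⟨w, ψ, σ, -, -, -, hr⟩ := tau_blineO H S hodd hLB hM
      have hrx := hr x v k hxM hxo
      have h1 := hPx v w ψ σ hrx
      intro v' w' ψ' τ' h'
      obtain ⟨c, hc0, hc⟩ := (cross_eq_zero_iff h'.2.2.1.1.1 hyo.1.1).1
        (over_unique H S hy h'.2.2.1 hyo).1
      have h2 := repT_smul S h' hc0
      rw [← hc] at h2
      exact hmul h1 (repT_aline H S ht hxl hyl hx hy hrx h2)
  have hP0 : P x0 := by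
    intro v w ψ τ' h'
    exact repT_unique H S hx0 (hr0 x0 v _ hxM0 h'.2.2.1) h'
  refine ⟨τ, hτ, ?_⟩
  intro M hM
  obtain ⟨w, ψ, σ, hσ, hψ, hb, hr⟩ := tau_blineO H S hodd hLB hM
  -- a point of `M`
  have hcard := H.lineCard M
  have hpos : 0 < {x | I x M}.ncard := by omega
  obtain ⟨x, hx⟩ := (Set.ncard_pos (Set.finite_of_ncard_pos hpos)).1 hpos
  have hx' : I x M := hx
  have hox := out_of_bline H S hM hx'
  obtain ⟨v1, k1, hv1⟩ := over_exists H S hox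
  obtain ⟨c, hc0, hc⟩ := conn H S hP hx0 hP0 hox v1 w ψ σ (hr x v1 k1 hx' hv1)
  -- rescale
  set l : K := c⁻¹ with hl
  have hl0 : l ≠ 0 := inv_ne_zero hc0
  have hl3 : l * l * l * σ = τ := by
    rw [hc, hl]
    field_simp
  have hcr : ∀ v, (l • w) ⨯₃ v = l • (w ⨯₃ v) := by
    intro v
    rw [map_smul, LinearMap.smul_apply]
  refine ⟨l • w, l⁻¹ • ψ, ?_, ?_⟩
  · rw [smul_dotProduct, dotProduct_smul, hψ, smul_eq_mul, smul_eq_mul, mul_one,
      inv_mul_cancel₀ hl0]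
  · intro v hv0 hv
    have hv' : ψ ⬝ᵥ v = 0 := by
      rw [smul_dotProduct, smul_eq_mul] at hv
      exact (mul_eq_zero.1 hv).resolve_left (inv_ne_zero hl0)
    obtain ⟨x, hx, hxo⟩ := hb v hv0 hv'
    have p1 := pt_smul' S hxo.1 (a := 1) (b := l) one_ne_zero hl0
    rw [one_smul, ← hcr] at p1
    refine ⟨x, hx, over_of_pt_eq S hxo p1.1 p1.2, ?_⟩
    intro r m hf hopp
    have hopp' : Opp v (w ⨯₃ v) r m := by
      refine ⟨hopp.1, ?_⟩
      have := hopp.2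
      rw [hcr, dotProduct_smul, smul_eq_mul] at this
      exact right_ne_zero_of_mul this
    rw [(hr x v _ hx hxo).2.2.2 r m hf hopp', hcr, smul_dotProduct, smul_dotProduct,
      dotProduct_smul, smul_eq_mul, smul_eq_mul, smul_eq_mul]
    have hll : l * l⁻¹ = 1 := mul_inv_cancel₀ hl0
    constructor
    · intro h
      apply mul_left_cancel₀ hl0
      linear_combination (l * l * l) * h + (ψ ⬝ᵥ r * (m ⬝ᵥ v)) * hl3
        - τ * (ψ ⬝ᵥ r * (m ⬝ᵥ v)) * hll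
    · intro h
      apply mul_left_cancel₀ (mul_ne_zero (mul_ne_zero hl0 hl0) hl0)
      linear_combination l * h - (ψ ⬝ᵥ r * (m ⬝ᵥ v)) * hl3
        + τ * (ψ ⬝ᵥ r * (m ⬝ᵥ v)) * hll

end L

theorem exists_std_basisO {K : Type*} [Field K] [Fintype K] [DecidableEq K] {Pt Ln : Type*}
    {I : Pt → Ln → Prop} (H : Hex I (Fintype.card K)) (S : Sub K I)
    (hodd : Odd (Fintype.card K)) (hLB : LB S) :
    ∃ S' : Sub K I, ∀ M, BLine S' M → ∃ w ψ, Std S' M w ψ := by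
  obtain ⟨τ, hτ, hstd⟩ := tau_constO H S hodd hLB
  refine ⟨S.tw hτ, ?_⟩
  intro M hM
  obtain ⟨w, ψ, h⟩ := hstd M ((tw_bline S hτ).1 hM)
  exact tw_std S hτ h

end Pool.Agent.Lib.MP_6b0fe3_coP
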