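import Pool.Agent.Lib.MP_6b0fe3_coP.StepA
import Pool.Agent.Lib.MP_6b0fe3_coR.CountL

/-! MP_6b0fe3_co, prime fields: every class has exactly three B-lines -/

namespace Pool.Agent.Lib.MP_6b0fe3_coP

open Matrix Pool.Agent.Lib.MP_6b0fe3_coR

theorem exists_cub {K : Type*} [Field K] [Fintype K] (hq : Fintype.card K % 3 = 1) :
    ∃ ω υ : K, Cub ω υ := by
  obtain ⟨ω, h1, h2⟩ := exists_omega hq
  have h3 : ω ^ 2 + ω + 1 = 0 := by
    have : (ω - 1) * (ω ^ 2 + ω + 1) = 0 := by linear_combination h1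
    exact (mul_eq_zero.1 this).resolve_left (sub_ne_zero.2 h2)
  refine ⟨ω, ω ^ 2, ?_, ?_, ?_⟩
  · linear_combination h3
  · linear_combination h1
  · intro h
    have h0 : ω ≠ 0 := by
      rintro rfl
      simp at h1
    have h4 : ω * (ω - 1) = 0 := by linear_combination -h
    exact h2 (sub_eq_zero.1 ((mul_eq_zero.1 h4).resolve_left h0))

namespace ThreeC

open CountM

section B
variable {K : Type*} [Field K] [Fintype K] {Pt Ln : Type*} {I : Pt → Ln → Prop}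
variable (H : Hex I (Fintype.card K)) {S : Sub K I}
variable (hstd : ∀ M, BLine S M → ∃ w ψ, Std S M w ψ)

omit [Fintype K] in
/-- the cube roots of a cube -/
theorem card_cube {ω υ : K} (hc : Cub ω υ) {a : K} (ha : a ≠ 0) :
    {c : K | c ^ 3 = a ^ 3}.ncard = 3 := by
  have h1 : {c : K | c ^ 3 = a ^ 3} = {a, ω * a, υ * a} := by
    ext c
    simp only [Set.mem_ofPred_eq, Set.mem_insert_iff, Set.mem_singleton_iff]
    constructor
    · intro h
      have h2 : (c - a) * ((c - ω * a) * (c - υ * a)) = 0 := by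
        have h3 := hc.add
        have h4 := hc.mul
        linear_combination h + (-c ^ 2 * a + c * a ^ 2) * h3 + (c * a ^ 2 - a ^ 3) * h4
      rcases mul_eq_zero.1 h2 with h5 | h5
      · exact Or.inl (sub_eq_zero.1 h5)
      · rcases mul_eq_zero.1 h5 with h6 | h6
        · exact Or.inr (Or.inl (sub_eq_zero.1 h6))
        · exact Or.inr (Or.inr (sub_eq_zero.1 h6))
    · rintro (rfl | rfl | rfl)
      · rfl
      · rw [mul_pow, hc.cube, one_mul]
      · rw [mul_pow, hc.symm.cube, one_mul]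
  have h2 : a ≠ ω * a := by
    intro h
    apply hc.ne_one
    have : (ω - 1) * a = 0 := by linear_combination -h
    exact sub_eq_zero.1 ((mul_eq_zero.1 this).resolve_right ha)
  have h3 : a ≠ υ * a := by
    intro h
    apply hc.symm.ne_one
    have : (υ - 1) * a = 0 := by linear_combination -h
    exact sub_eq_zero.1 ((mul_eq_zero.1 this).resolve_right ha)
  have h4 : ω * a ≠ υ * a := fun h => hc.ne (mul_right_cancel₀ ha h)
  rw [h1]
  exact Set.ncard_eq_three.2 ⟨a, ω * a, υ * a, h2, h3, h4, rfl⟩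

include H hstd

/-- the B-lines with label `(w, ψ)` correspond to the A-lines with label `w × v` over `v` -/
theorem ncard_SA_eq {w ψ v : Fin 3 → K} (h : ψ ⬝ᵥ w = 1)
    (hv : ψ ⬝ᵥ v = 0) (hv0 : v ≠ 0) : (SA S w ψ).ncard = (ST S v (w ⨯₃ v)).ncard := by
  obtain ⟨r, hr, hvr⟩ := exists_ker' (ne_of_dot h).1 hv0
  have hr0 : r ≠ 0 := by
    rintro rfl
    simp at hvr
  refine ncard_eq_of_rel (fun M t => ∃ x, I x M ∧ I x t ∧ Over S x v (w ⨯₃ v)) ?_ ?_ ?_ ?_
  · rintro M ⟨hM, hMs⟩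
    obtain ⟨x, hx, ho, -⟩ := hMs.2 v hv0 hv
    have hxo := out_of_bline H S hM hx
    obtain ⟨t, ht, hxt⟩ := aline_exists H S hxo ho
    exact ⟨t, ⟨ht, x, w, ψ, hxt, hxo, rep_of_std H S hM hMs hx ho, rfl⟩, x, hx, hxt, ho⟩
  · rintro t ⟨ht, x0, w0, ψ0, hx0, hox0, hrep0, hw0⟩
    obtain ⟨M, x, hM, hb, hxM, hxt, hox, hoxv⟩ :=
      exists_bline H S hstd ht h hv (cross_self (w ⨯₃ v))
    obtain ⟨w1, ψ1, hs⟩ := hstd M hM
    obtain ⟨z, hzM, hzo⟩ := hb.2 r hr0 hr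
    have hb1 := base_of_std H S hM hs hxM hoxv
    have hb2 := base_of_std H S hM hs hzM hzo
    obtain ⟨a, ha0, ha, ha'⟩ := prop_pair h hv hr hvr hs.1 hb1.1 hb2.1 hb1.2 hb2.2
    have hrep := rep_of_std H S hM hs hxM hoxv
    obtain ⟨c, hc3, hcv⟩ := rep_aline3 H S ht hx0 hxt hox0 hox hrep0 hrep
    rw [hw0, ha, smul_cross'] at hcv
    have h5 : a = c := by
      have h6 : (a - c) • (w ⨯₃ v) = 0 := by
        rw [sub_smul, hcv, sub_self]
      exact sub_eq_zero.1 ((smul_eq_zero.1 h6).resolve_right (cross_w_ne h hv hv0))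
    subst h5
    have h7 : (a ^ 2) ^ 3 = 1 := by
      rw [← pow_mul, show 2 * 3 = 3 * 2 by norm_num, pow_mul, hc3, one_pow]
    have h8 : BL S M (a ^ 2 • w1) ((a ^ 2) ^ 2 • ψ1) := BL.zeta ⟨hM, hs⟩ h7
    have e1 : a ^ 2 • w1 = w := by
      rw [ha, smul_smul, ← pow_succ, hc3, one_smul]
    have e2 : (a ^ 2) ^ 2 • ψ1 = ψ := by
      rw [ha', smul_smul]
      have : (a ^ 2) ^ 2 * a⁻¹ = 1 := by
        field_simp
        linear_combination hc3
      rw [this, one_smul]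
    rw [e1, e2] at h8
    exact ⟨M, h8, x, hxM, hxt, hoxv⟩
  · rintro M ⟨hM, hMs⟩ t ⟨ht, -⟩ t' ⟨ht', -⟩ ⟨x, hx, hxt, ho⟩ ⟨x', hx', hxt', ho'⟩
    have h1 : x = x' := eq_of_over H S hM hx hx' ho ho'
    subst h1
    refine H.uniq hxt ht.2.1 hxt' ht'.2.1 ?_
    exact out_of_bline H S hM hx v _ ho.1
  · rintro t ⟨ht, -⟩ M ⟨hM, hMs⟩ M' ⟨hM', hMs'⟩ ⟨x, hx, hxt, ho⟩ ⟨x', hx', hxt', ho'⟩
    exact bline_unique H S ht hM hM' hMs.bas hMs'.bas hx hxt hx' hxt'

theorem ncard_SA_form {w ψ ψ' : Fin 3 → K} (h : ψ ⬝ᵥ w = 1)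
    (h' : ψ' ⬝ᵥ w = 1) : (SA S w ψ).ncard = (SA S w ψ').ncard := by
  by_cases h0 : ψ ⨯₃ ψ' = 0
  · obtain ⟨c, hc⟩ := exists_smul_of_cross (ne_of_dot h).1 h0
    rw [hc, smul_dotProduct, h, smul_eq_mul, mul_one] at h'
    rw [hc, h', one_smul]
  · rw [ncard_SA_eq H hstd h (dot_self_cross ψ ψ') h0,
      ncard_SA_eq H hstd h' (dot_cross_self ψ ψ') h0]

theorem ncard_SA_vec {w w' ψ : Fin 3 → K} (h : ψ ⬝ᵥ w = 1)
    (h' : ψ ⬝ᵥ w' = 1) : (SA S w ψ).ncard = (SA S w' ψ).ncard := by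
  by_cases h0 : w' - w = 0
  · rw [sub_eq_zero.1 h0]
  · have h1 : ψ ⬝ᵥ (w' - w) = 0 := by
      rw [dotProduct_sub, h, h', sub_self]
    have h2 : w' ⨯₃ (w' - w) = w ⨯₃ (w' - w) := by
      rw [map_sub, map_sub, cross_self, cross_self, zero_sub, sub_zero, cross_anticomm]
    rw [ncard_SA_eq H hstd h h1 h0, ncard_SA_eq H hstd h' h1 h0, h2]

theorem ncard_SA_indep {w ψ w' ψ' : Fin 3 → K} (h : ψ ⬝ᵥ w = 1)
    (h' : ψ' ⬝ᵥ w' = 1) (hw : w ⨯₃ w' ≠ 0) :
    (SA S w ψ).ncard = (SA S w' ψ').ncard := by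
  obtain ⟨ψ2, h1, h2⟩ := exists_form' hw
  rw [ncard_SA_form H hstd h h1, ncard_SA_vec H hstd h1 h2, ncard_SA_form H hstd h2 h']

theorem ncard_SA_smul {w ψ : Fin 3 → K} (h : ψ ⬝ᵥ w = 1) {c : K}
    (hc : c ≠ 0) : (SA S (c • w) (c⁻¹ • ψ)).ncard = (SA S w ψ).ncard := by
  obtain ⟨w', hw'⟩ := exists_cross_ne (ne_of_dot h).2
  have h1 : (c⁻¹ • ψ) ⬝ᵥ (c • w) = 1 := by
    rw [smul_dotProduct, dotProduct_smul, h, smul_eq_mul, smul_eq_mul, mul_one,
      inv_mul_cancel₀ hc]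
  obtain ⟨ψ', h2, h2'⟩ := exists_form' hw'
  rw [ncard_SA_indep H hstd h h2' hw']
  refine ncard_SA_indep H hstd h1 h2' ?_
  rw [smul_cross']
  exact smul_ne_zero hc hw'

theorem ncard_SA_three {ω υ : K} (hcub : Cub ω υ) {w ψ : Fin 3 → K} (h : ψ ⬝ᵥ w = 1) :
    (SA S w ψ).ncard = 3 := by
  classical
  obtain ⟨v, r, hv, -, hvr⟩ := exists_ker (ne_of_dot h).1
  have hv0 : v ≠ 0 := by
    rintro rfl
    simp at hvr
  have hf : IsFlag v (w ⨯₃ v) := ⟨hv0, cross_w_ne h hv hv0, dot_cross_self w v⟩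
  have hcard := aline_card H S hf
  have hq : 1 < Fintype.card K := Fintype.one_lt_card
  have hfin : {t | ALine S v (w ⨯₃ v) t}.Finite := Set.finite_of_ncard_ne_zero (by omega)
  -- all the classes have the same size
  have hn : ∀ c : Kˣ, (ST S v ((c : K) • (w ⨯₃ v))).ncard = (SA S w ψ).ncard := by
    intro c
    rw [← ncard_SA_smul H hstd h c.ne_zero, ncard_SA_eq H hstd (v := v) _ _ hv0,
      smul_cross']
    · rw [smul_dotProduct, dotProduct_smul, h, smul_eq_mul, smul_eq_mul, mul_one,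
        inv_mul_cancel₀ c.ne_zero]
    · rw [smul_dotProduct, hv, smul_zero]
  have hmem : ∀ (c : Kˣ) (t : Ln), t ∈ ST S v ((c : K) • (w ⨯₃ v)) ↔
      ALine S v (w ⨯₃ v) t ∧ LabA S v (w ⨯₃ v) t (c : K) := by
    intro c t
    constructor
    · rintro ⟨h1, h2⟩
      exact ⟨(aline_smul S hf c.ne_zero).1 h1, h2⟩
    · rintro ⟨h1, h2⟩
      exact ⟨(aline_smul S hf c.ne_zero).2 h1, h2⟩
  -- double counting
  have h1 := Finset.sum_card_bipartiteAbove_eq_sum_card_bipartiteBelow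
    (s := hfin.toFinset) (t := (Finset.univ : Finset Kˣ))
    (fun (t : Ln) (c : Kˣ) => LabA S v (w ⨯₃ v) t (c : K))
  have h2 : ∀ t ∈ hfin.toFinset, (Finset.bipartiteAbove
      (fun (t : Ln) (c : Kˣ) => LabA S v (w ⨯₃ v) t (c : K)) Finset.univ t).card = 3 := by
    intro t ht
    rw [Set.Finite.mem_toFinset] at ht
    obtain ⟨a, ha⟩ := LabA.exists H S hstd ht
    have ha0 := ha.ne_zero
    refine Eq.trans ?_ (card_cube hcub ha0)
    rw [← Set.ncard_coe_finset]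
    refine Set.ncard_congr (fun (c : Kˣ) _ => (c : K)) ?_ ?_ ?_
    · intro c hc
      have hc' := (Finset.mem_filter.1 (Finset.mem_coe.1 hc)).2
      exact LabA.cube H S ht ha hc'
    · intro c c' _ _ he
      exact Units.ext he
    · intro c hc
      have hc3 : c ^ 3 = a ^ 3 := hc
      have hc0 : c ≠ 0 := by
        rintro rfl
        rw [zero_pow three_ne_zero] at hc3
        exact ha0 (pow_eq_zero_iff three_ne_zero |>.1 hc3.symm)
      have hz : (c / a) ^ 3 = 1 := by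
        rw [div_pow, hc3, div_self (pow_ne_zero 3 ha0)]
      have hl := ha.zeta hz
      rw [div_mul_cancel₀ c ha0] at hl
      exact ⟨Units.mk0 c hc0, Finset.mem_coe.2 (Finset.mem_filter.2 ⟨Finset.mem_univ _, hl⟩), rfl⟩
  have h3 : ∀ c ∈ (Finset.univ : Finset Kˣ), (Finset.bipartiteBelow
      (fun (t : Ln) (c : Kˣ) => LabA S v (w ⨯₃ v) t (c : K)) hfin.toFinset c).card =
        (SA S w ψ).ncard := by
    intro c _
    rw [← hn c, ← Set.ncard_coe_finset]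
    congr 1
    ext t
    rw [Finset.mem_coe, Finset.mem_bipartiteBelow, Set.Finite.mem_toFinset, hmem c t]
    exact Iff.rfl
  rw [Finset.sum_congr rfl h2, Finset.sum_congr rfl h3, Finset.sum_const, Finset.sum_const,
    Finset.card_univ, Fintype.card_units, smul_eq_mul, smul_eq_mul,
    ← Set.ncard_eq_toFinset_card _ hfin, hcard] at h1
  have h5 : 0 < Fintype.card K - 1 := by omega
  exact (Nat.eq_of_mul_eq_mul_left h5 h1).symm

end B

end ThreeC

section B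
variable {K : Type*} [Field K] [Fintype K] {Pt Ln : Type*} {I : Pt → Ln → Prop}
variable (H : Hex I (Fintype.card K)) {S : Sub K I}
variable (hstd : ∀ M, BLine S M → ∃ w ψ, Std S M w ψ)
variable {ω υ : K} (hc : Cub ω υ)
include H hstd hc

theorem three_of_std : Three S := by
  intro w ψ h
  obtain ⟨M₁, M₂, M₃, h12, h13, h23, hS⟩ :=
    Set.ncard_eq_three.1 (ThreeC.ncard_SA_three H hstd hc h)
  refine ⟨M₁, M₂, M₃, h12, h13, h23, fun N => ?_⟩
  have h1 : BL S N w ψ ↔ N ∈ CountM.SA S w ψ := Iff.rfl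
  rw [h1, hS]
  simp only [Set.mem_insert_iff, Set.mem_singleton_iff]

end B

end Pool.Agent.Lib.MP_6b0fe3_coP
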