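import Pool.Agent.Lib.MP_6b0fe3_coP.GlueC
import Pool.Agent.Lib.MP_6b0fe3_coP.DualC
import Pool.Agent.Lib.MP_6b0fe3_coP.LabC
import Pool.Agent.Lib.MP_6b0fe3_coP.ThreeC
import Pool.Agent.Lib.MP_6b0fe3_coP.TauO

/-! MP_6b0fe3_co: regular pairs, odd order, assembly -/

namespace Pool.Agent.Lib.MP_6b0fe3_coP

open Matrix Pool.Agent.Lib.MP_6b0fe3_coR

theorem two_ne_of_odd {K : Type*} [Field K] [Fintype K] (hodd : Odd (Fintype.card K)) :
    (2 : K) ≠ 0 := by
  intro h
  obtain ⟨n, hn⟩ := hodd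
  have h1 : ((Fintype.card K : ℕ) : K) = 0 := Nat.cast_card_eq_zero K
  rw [hn] at h1
  push_cast at h1
  rw [h, zero_mul, zero_add] at h1
  exact one_ne_zero h1

/-- coherent labelling, odd order 1 mod 3 -/
theorem exists_lab_odd {K : Type*} [Field K] [Fintype K] {Pt Ln : Type*} {I : Pt → Ln → Prop}
    (H : Hex I (Fintype.card K)) (S : Sub K I) (hodd : Odd (Fintype.card K))
    (hq : Fintype.card K % 3 = 1)
    (hstd : ∀ M, BLine S M → ∃ w ψ, Std S M w ψ) : Nonempty (Lab S) := by
  obtain ⟨ω, υ, hc⟩ := exists_cub hq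
  have h3 : Three S := three_of_std H hstd hc
  have h2 := two_ne_of_odd hodd
  refine exists_labC H hstd hc h3 ?_ ?_
  · intro w ψ u u' M h hu hu' huu hM
    exact split_tri H hstd hc h3 h2 h hu hu' huu hM
  · intro w ψ φ φ' M h hφ hφ' hne hM
    refine split_dual H hstd ?_ h hφ hφ' hne hM
    intro w ψ u u' M h hu hu' huu hM
    exact split_tri H (std_dual hstd) hc (three_dual h3) h2 h hu hu' huu hM

/-- regular pairs, odd order -/
theorem mainQ {K : Type*} [Field K] [Fintype K] [DecidableEq K] (hodd : Odd (Fintype.card K))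
    {Pt Ln : Type*} {I : Pt → Ln → Prop}
    (hI : IsGenHexagon (Fintype.card K) (Fintype.card K) I) (a : Flag K → Pt)
    (b : Projectivization K (Fin 3 → K) ⊕ Projectivization K (Fin 3 → K) → Ln)
    (ha : Function.Injective a) (hb : Function.Injective b)
    (hab : ∀ f e, I (a f) (b e) ↔ flagInc f e)
    (hreg : ∀ P L, ¬ Projectivization.orthogonal P L →
      Distance3Regular I (b (Sum.inl P)) (b (Sum.inr L))) :
    ∃ (e₁ : Pt ≃ HLine K) (e₂ : Ln ≃ HPoint K), ∀ x l, I x l ↔ (e₂ l).1 ≤ (e₁ x).1 := by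
  by_cases hq : Fintype.card K % 3 = 1
  · have H := hex_of_isGenHexagon hI
    obtain ⟨S, hlp, hll, -⟩ := exists_sub a b ha hb hab
    have hLB : LB S := by
      refine LB_of_regular H (dist_eq_three_iff hI) S ?_
      intro c N hcN
      have hc : c ≠ 0 := by
        rintro rfl
        exact hcN (zero_dotProduct _)
      have hN : N ≠ 0 := by
        rintro rfl
        exact hcN (dotProduct_zero _)
      rw [hlp c hc, hll N hN]
      apply hreg
      rw [Projectivization.orthogonal_mk]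
      exact hcN
    obtain ⟨S', hstd⟩ := exists_std_basisO H S hodd hLB
    obtain ⟨L⟩ := exists_lab_odd H S' hodd hq hstd
    exact iso_of_lab H L
  · exact mainO hodd hq hI a b ha hb hab hreg

end Pool.Agent.Lib.MP_6b0fe3_coP
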