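import Pool.Agent.Lib.MP_6b0fe3_coP.FrameC

/-! MP_6b0fe3_co, prime fields: the permutation `PP` -/

namespace Pool.Agent.Lib.MP_6b0fe3_coP

open Matrix Pool.Agent.Lib.MP_6b0fe3_coR

section L
variable {K : Type*} [Field K] {w ψ a a' : Fin 3 → K}

theorem v_w : vec w a a' 1 0 0 = w := by
  unfold vec; module

theorem c_w : cov w ψ a a' 1 0 0 = ψ := by
  unfold cov; module

theorem v_a : vec w a a' 0 1 0 = a := by
  unfold vec; module

theorem v_a' : vec w a a' 0 0 1 = a' := by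
  unfold vec; module

theorem v_R (x : K) : vec w a a' 1 0 x = w + x • a' := by
  unfold vec; module

theorem c_R (x : K) : cov w ψ a a' 1 0 x = ψ + x • (w ⨯₃ a') := by
  unfold cov; module

theorem v_D (x : K) : vec w a a' 1 x 0 = w + x • a := by
  unfold vec; module

theorem c_D (x : K) : cov w ψ a a' 1 x 0 = ψ + x • (w ⨯₃ a) := by
  unfold cov; module

theorem v_N (x : K) : vec w a a' x 1 0 = x • w + a := by
  unfold vec; module

theorem c_N (x : K) : cov w ψ a a' x 1 0 = x • ψ + w ⨯₃ a := by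
  unfold cov; module

theorem v_z (x : K) : vec w a a' (x - 1) 1 (-x) = (x - 1) • w + a - x • a' := by
  unfold vec; module

theorem vec_swap (x y z : K) : vec w a' a x y z = vec w a a' x z y := by
  unfold vec; module

theorem cov_swap (x y z : K) : cov w ψ a' a x y z = cov w ψ a a' x z y := by
  unfold cov; module

theorem vec_neg (x y z : K) : vec w a (-a') x y z = vec w a a' x y (-z) := by
  unfold vec; module

theorem cov_neg (x y z : K) : cov w ψ a (-a') x y z = cov w ψ a a' x y (-z) := by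
  unfold cov; rw [map_neg]; module

theorem vec_tv (x y z : K) : vec w a (a' + a) x y z = vec w a a' x (y + z) z := by
  unfold vec; module

theorem cov_tv (x y z : K) : cov w ψ a (a' + a) x y z = cov w ψ a a' x (y + z) z := by
  unfold cov; rw [map_add]; module

theorem Aq.aa {Pt Ln : Type*} {I : Pt → Ln → Prop} {S : Sub K I} {v : Fin 3 → K} {M N : Ln}
    (h : Aq S v M N) : AA S v M N := by
  obtain ⟨k, t, x, y, h1, h2, h3, h4, h5, -⟩ := h
  exact ⟨k, t, x, y, h1, h2, h3, h4, h5⟩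

theorem Aq.symm {Pt Ln : Type*} {I : Pt → Ln → Prop} {S : Sub K I} {v : Fin 3 → K} {M N : Ln}
    (h : Aq S v M N) : Aq S v N M := by
  obtain ⟨k, t, x, y, h1, h2, h3, h4, h5, h6⟩ := h
  exact ⟨k, t, y, x, h1, h3, h2, h5, h4, h6.symm⟩

theorem Bq.symm {Pt Ln : Type*} {I : Pt → Ln → Prop} {S : Sub K I} {v : Fin 3 → K} {M N : Ln}
    (h : Bq S v M N) : Bq S v N M := by
  obtain ⟨k, x, h1, h2, h3⟩ := h
  exact ⟨k, x, h1, h3, h2⟩

theorem Frame.swap {δ : K} (F : Frame w ψ a a' δ) : Frame w ψ a' a (-δ) := by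
  refine ⟨F.dw, F.da', F.da, ?_, neg_ne_zero.2 F.ne⟩
  rw [← cross_anticomm, dotProduct_neg, F.det]

theorem Frame.neg' {δ : K} (F : Frame w ψ a a' δ) : Frame w ψ a (-a') (-δ) := by
  refine ⟨F.dw, F.da, ?_, ?_, neg_ne_zero.2 F.ne⟩
  · rw [dotProduct_neg, F.da', neg_zero]
  · rw [map_neg, dotProduct_neg, F.det]

theorem Frame.tv {δ : K} (F : Frame w ψ a a' δ) : Frame w ψ a (a' + a) δ := by
  refine ⟨F.dw, F.da, ?_, ?_, F.ne⟩
  · rw [dotProduct_add, F.da', F.da, add_zero]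
  · rw [map_add, cross_self, add_zero, F.det]

/-- the path `PP` in coordinates -/
theorem PP_vec {Pt Ln : Type*} {I : Pt → Ln → Prop} (S : Sub K I) (ω υ : K) (M : Ln) :
    PP S ω υ w ψ a a' M = tr S (vec w a a' 0 1 0) (vec w a a' 1 0 0) (cov w ψ a a' 1 0 0)
      (tr S (vec w a a' (ω - 1) 1 (-ω)) (vec w a a' ω 1 0) (cov w ψ a a' υ 1 0)
        (tr S (vec w a a' 0 0 1) (vec w a a' 1 0 ω) (cov w ψ a a' 1 0 υ) M)) := by
  rw [v_w, c_w, v_a, v_a', v_R, c_R, v_N, c_N, v_z]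
  rfl

end L

theorem bline_quad {Pt Ln : Type*} {I : Pt → Ln → Prop} {q : ℕ} (H : Hex I q)
    {l1 l2 l3 l4 : Ln} {a b c d : Pt}
    (ha : I a l1) (hb : I b l1) (hb' : I b l2) (hc : I c l2) (hc' : I c l3) (hd : I d l3)
    (hd' : I d l4) (ha' : I a l4)
    (hab : a ≠ b) (hbc : b ≠ c) (hcd : c ≠ d)
    (h12 : l1 ≠ l2) (h23 : l2 ≠ l3) : False := by
  rcases H.quadr ⟨l1, ha, hb⟩ ⟨l2, hb', hc⟩ ⟨l3, hc', hd⟩ ⟨l4, hd', ha'⟩ with h | h
  · exact meetC_tri H ha hb hb' hc hab hbc h12 h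
  · exact meetC_tri H hb' hc hc' hd hbc hcd h23 h

section B
variable {K : Type*} [Field K] [Fintype K] {Pt Ln : Type*} {I : Pt → Ln → Prop}
variable (H : Hex I (Fintype.card K)) {S : Sub K I}

include H in
/-- a quadrangle or pentagon of type AA B B B -/
theorem no_xbbb {a z' y z : Fin 3 → K} {N N' R' R : Ln} (hN : BLine S N) (hN' : BLine S N')
    (hR' : BLine S R') (hR : BLine S R) (h1 : AA S a N N') (h2 : Bq S z' N' R') (h3 : Bq S y R' R)
    (h4 : Bq S z R N) (haz : a ⨯₃ z' ≠ 0) (hzy : z' ⨯₃ y ≠ 0) (hyz : y ⨯₃ z ≠ 0)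
    (hza : z ⨯₃ a ≠ 0) (e1 : N' ≠ R') (e2 : R' ≠ R) (e3 : R ≠ N) : False := by
  obtain ⟨k1, t1, x1, y1, ht1, hx1, hy1, hx1M, hy1M⟩ := h1
  by_cases hxy : x1 = y1
  · subst hxy
    have ox1 := over_of_aline H ht1 hx1 hN hx1M
    obtain ⟨k2, x2, ho2, hx2, hx2'⟩ := h2
    obtain ⟨k3, x3, ho3, hx3, hx3'⟩ := h3
    obtain ⟨k4, x4, ho4, hx4, hx4'⟩ := h4
    exact bline_quad H hy1M hx2 hx2' hx3 hx3' hx4 hx4' hx1M
      (ne_of_over H (out_of_bline H S hN hx1M) ox1 ho2 haz)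
      (ne_of_over H (out_of_bline H S hN' hx2) ho2 ho3 hzy)
      (ne_of_over H (out_of_bline H S hR' hx3) ho3 ho4 hyz) e1 e2
  · exact no_abbb H hN hN' hR' hR ⟨k1, t1, x1, y1, ht1, hx1, hy1, hx1M, hy1M, hxy⟩ h2 h3 h4 haz
      hzy hyz hza e1 e2 e3

variable (hstd : ∀ M, BLine S M → ∃ w ψ, Std S M w ψ)
variable {ω υ : K} (hc : Cub ω υ)
variable {w ψ a a' : Fin 3 → K} {M : Ln}

theorem bq_f (H : Hex I (Fintype.card K)) {δ : K} (F : Frame w ψ a a' δ) {M N : Ln}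
    {x y z x' y' z' : K}
    (hM : BL S M (vec w a a' x y z) (cov w ψ a a' x' y' z')) (v₁ v₂ v₃ α : K)
    (hv : v₁ ≠ 0 ∨ v₂ ≠ 0 ∨ v₃ ≠ 0) (hψ : x' * v₁ + δ * (y' * v₃ - z' * v₂) = 0)
    {X Y Z X' Y' Z' : K} (e1 : X = x + α * v₁) (e2 : Y = y + α * v₂) (e3 : Z = z + α * v₃)
    (e4 : X' = x' + α * (δ * (y * v₃ - z * v₂))) (e5 : Y' = y' + α * (x * v₂ - y * v₁))
    (e6 : Z' = z' + α * (x * v₃ - z * v₁))
    (hN : BL S N (vec w a a' X Y Z) (cov w ψ a a' X' Y' Z'))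
    (h : AA S (vec w a a' v₁ v₂ v₃) M N) : Bq S (vec w a a' v₁ v₂ v₃) M N := by
  obtain ⟨E1, E2, E3, E4, -, -⟩ := stepf_alg F hM.2.1 v₁ v₂ v₃ α α hv hψ e1 e2 e3 e4 e5 e6
  rw [E1, E2] at hN
  exact bq_of H hM hN E3 E4 h

theorem aq_f (H : Hex I (Fintype.card K)) {δ : K} (F : Frame w ψ a a' δ) {M N : Ln}
    {x y z x' y' z' : K}
    (hM : BL S M (vec w a a' x y z) (cov w ψ a a' x' y' z')) (v₁ v₂ v₃ α β : K)
    (hv : v₁ ≠ 0 ∨ v₂ ≠ 0 ∨ v₃ ≠ 0) (hψ : x' * v₁ + δ * (y' * v₃ - z' * v₂) = 0)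
    {X Y Z X' Y' Z' : K} (e1 : X = x + α * v₁) (e2 : Y = y + α * v₂) (e3 : Z = z + α * v₃)
    (e4 : X' = x' + β * (δ * (y * v₃ - z * v₂))) (e5 : Y' = y' + β * (x * v₂ - y * v₁))
    (e6 : Z' = z' + β * (x * v₃ - z * v₁)) (hαβ : α ≠ β)
    (hN : BL S N (vec w a a' X Y Z) (cov w ψ a a' X' Y' Z'))
    (h : AA S (vec w a a' v₁ v₂ v₃) M N) : Aq S (vec w a a' v₁ v₂ v₃) M N := by
  obtain ⟨E1, E2, E3, E4, -, -⟩ := stepf_alg F hM.2.1 v₁ v₂ v₃ α β hv hψ e1 e2 e3 e4 e5 e6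
  rw [E1, E2] at hN
  exact aq_of H hM hN E3 E4 hαβ h

omit [Fintype K] in
/-- second label of `N` -/
theorem BL.toD {N : Ln} (hc : Cub ω υ) (hN : BL S N (vec w a a' ω 1 0) (cov w ψ a a' υ 1 0)) :
    BL S N (vec w a a' 1 υ 0) (cov w ψ a a' 1 ω 0) := by
  have h := hN.zeta (c := υ) hc.symm.cube
  rw [vec_smul, cov_smul] at h
  have e1 : υ * ω = 1 := hc.symm.mul
  have e2 : υ ^ 2 = ω := hc.symm.sq
  rw [e2] at h
  simpa only [e1, hc.mul, mul_one, mul_zero] using h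

omit [Fintype K] in
theorem BL.ofD {N : Ln} (hc : Cub ω υ) (hN : BL S N (vec w a a' 1 υ 0) (cov w ψ a a' 1 ω 0)) :
    BL S N (vec w a a' ω 1 0) (cov w ψ a a' υ 1 0) := by
  have h := hN.zeta (c := ω) hc.cube
  rw [vec_smul, cov_smul] at h
  have e1 : υ * ω = 1 := hc.symm.mul
  have e2 : ω ^ 2 = υ := hc.sq
  rw [e2] at h
  simpa only [e1, hc.mul, mul_one, mul_zero] using h

include H hstd hc

/-- the first step -/
theorem st1 (F : Frame w ψ a a' (υ - ω)) (hM : BL S M w ψ) :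
    BL S (tr S (vec w a a' 0 0 1) (vec w a a' 1 0 ω) (cov w ψ a a' 1 0 υ) M)
      (vec w a a' 1 0 ω) (cov w ψ a a' 1 0 υ) ∧
    Aq S (vec w a a' 0 0 1) M
      (tr S (vec w a a' 0 0 1) (vec w a a' 1 0 ω) (cov w ψ a a' 1 0 υ) M) := by
  have hM' : BL S M (vec w a a' 1 0 0) (cov w ψ a a' 1 0 0) := by rwa [v_w, c_w]
  have h := stepf H hstd F hM' 0 0 1 ω υ (Or.inr (Or.inr one_ne_zero)) (by ring)
    (X := 1) (Y := 0) (Z := ω) (X' := 1) (Y' := 0) (Z' := υ)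
    (by ring) (by ring) (by ring) (by ring) (by ring) (by ring)
  exact ⟨h.1, h.2.2.2 hc.ne⟩

/-- the second step -/
theorem st2 (F : Frame w ψ a a' (υ - ω)) {R : Ln}
    (hR : BL S R (vec w a a' 1 0 ω) (cov w ψ a a' 1 0 υ)) :
    BL S (tr S (vec w a a' (ω - 1) 1 (-ω)) (vec w a a' ω 1 0) (cov w ψ a a' υ 1 0) R)
      (vec w a a' ω 1 0) (cov w ψ a a' υ 1 0) ∧
    Bq S (vec w a a' (ω - 1) 1 (-ω)) R
      (tr S (vec w a a' (ω - 1) 1 (-ω)) (vec w a a' ω 1 0) (cov w ψ a a' υ 1 0) R) := by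
  have h1 := hc.add
  have h2 := hc.mul
  have h := stepf H hstd F hR (ω - 1) 1 (-ω) 1 1 (Or.inr (Or.inl one_ne_zero))
    (by grind)
    (X := ω) (Y := 1) (Z := 0) (X' := υ) (Y' := 1) (Z' := 0)
    (by ring) (by ring) (by ring)
    (by grind)
    (by ring)
    (by grind)
  exact ⟨h.1, h.2.2.1 rfl⟩

/-- the third step -/
theorem st3 (F : Frame w ψ a a' (υ - ω)) {N : Ln}
    (hN : BL S N (vec w a a' 1 υ 0) (cov w ψ a a' 1 ω 0)) :
    BL S (tr S (vec w a a' 0 1 0) (vec w a a' 1 0 0) (cov w ψ a a' 1 0 0) N)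
      (vec w a a' 1 0 0) (cov w ψ a a' 1 0 0) ∧
    Aq S (vec w a a' 0 1 0) N
      (tr S (vec w a a' 0 1 0) (vec w a a' 1 0 0) (cov w ψ a a' 1 0 0) N) := by
  have h := stepf H hstd F hN 0 1 0 (-υ) (-ω) (Or.inr (Or.inl one_ne_zero)) (by ring)
    (X := 1) (Y := 0) (Z := 0) (X' := 1) (Y' := 0) (Z' := 0)
    (by ring) (by ring) (by ring) (by ring) (by ring) (by ring)
  refine ⟨h.1, h.2.2.2 ?_⟩
  intro h0
  exact hc.ne (neg_injective h0).symm

/-- the whole path -/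
theorem pp_path (F : Frame w ψ a a' (υ - ω)) (hM : BL S M w ψ) : ∃ R N,
    BL S R (vec w a a' 1 0 ω) (cov w ψ a a' 1 0 υ) ∧
    Aq S (vec w a a' 0 0 1) M R ∧
    BL S N (vec w a a' ω 1 0) (cov w ψ a a' υ 1 0) ∧
    Bq S (vec w a a' (ω - 1) 1 (-ω)) R N ∧
    BL S (PP S ω υ w ψ a a' M) w ψ ∧
    Aq S (vec w a a' 0 1 0) N (PP S ω υ w ψ a a' M) := by
  obtain ⟨r1, r2⟩ := st1 H hstd hc F hM
  obtain ⟨n1, n2⟩ := st2 H hstd hc F r1
  obtain ⟨m1, m2⟩ := st3 H hstd hc F (n1.toD hc)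
  refine ⟨_, _, r1, r2, n1, n2, ?_, ?_⟩
  · rw [PP_vec]
    rwa [v_w, c_w] at m1 ⊢
  · rw [PP_vec]
    exact m2

/-- a path gives the value of `PP` -/
theorem pp_eq (F : Frame w ψ a a' (υ - ω)) (hM : BL S M w ψ) {R N M' : Ln}
    (hR : BL S R (vec w a a' 1 0 ω) (cov w ψ a a' 1 0 υ))
    (h1 : AA S (vec w a a' 0 0 1) M R)
    (hN : BL S N (vec w a a' ω 1 0) (cov w ψ a a' υ 1 0))
    (h2 : AA S (vec w a a' (ω - 1) 1 (-ω)) R N)
    (hM' : BL S M' w ψ) (h3 : AA S (vec w a a' 0 1 0) N M') :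
    PP S ω υ w ψ a a' M = M' := by
  have hM0 : BL S M (vec w a a' 1 0 0) (cov w ψ a a' 1 0 0) := by rwa [v_w, c_w]
  have hM0' : BL S M' (vec w a a' 1 0 0) (cov w ψ a a' 1 0 0) := by rwa [v_w, c_w]
  rw [PP_vec]
  rw [stepf_eq H hstd F hM0 0 0 1 ω υ (Or.inr (Or.inr one_ne_zero)) (by ring)
    (by ring) (by ring) (by ring) (by ring) (by ring) (by ring) hR h1]
  have e1 := hc.add
  have e2 := hc.mul
  rw [stepf_eq H hstd F hR (ω - 1) 1 (-ω) 1 1 (Or.inr (Or.inl one_ne_zero)) (by grind)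
    (by ring) (by ring) (by ring) (by grind) (by ring) (by grind) hN h2]
  exact stepf_eq H hstd F (hN.toD hc) 0 1 0 (-υ) (-ω) (Or.inr (Or.inl one_ne_zero)) (by ring)
    (by ring) (by ring) (by ring) (by ring) (by ring) (by ring) hM0' h3

theorem PP_mem (F : Frame w ψ a a' (υ - ω)) (hM : BL S M w ψ) :
    BL S (PP S ω υ w ψ a a' M) w ψ := by
  obtain ⟨R, N, -, -, -, -, h, -⟩ := pp_path H hstd hc F hM
  exact h

theorem PP_ne (F : Frame w ψ a a' (υ - ω)) (hM : BL S M w ψ) : PP S ω υ w ψ a a' M ≠ M := by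
  intro h0
  obtain ⟨R, N, r1, r2, n1, n2, m1, m2⟩ := pp_path H hstd hc F hM
  rw [h0] at m2
  refine no_aab H n1.1 hM.1 r1.1 m2 r2 n2 (vec_cross_ne F (Or.inl ?_))
    (vec_cross_ne F (Or.inl ?_)) (vec_cross_ne F (Or.inl ?_)) ?_
  · simp
  · simp
  · simp
    exact hc.ne_zero
  · exact ne_of_lab H r1 n1 (vec_cross_ne F (Or.inr (Or.inl (by simp))))

theorem PP_rev (F : Frame w ψ a a' (υ - ω)) (hM : BL S M w ψ) :
    PP S υ ω w ψ a' a (PP S ω υ w ψ a a' M) = M := by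
  have F' : Frame w ψ a' a (ω - υ) := by
    have := F.swap
    rwa [neg_sub] at this
  have e1 := hc.add
  have e2 := hc.mul
  obtain ⟨R, N, r1, r2, n1, n2, m1, m2⟩ := pp_path H hstd hc F hM
  refine pp_eq H hstd hc.symm F' m1 (R := N) (N := R) ?_ ?_ ?_ ?_ hM ?_
  · rw [vec_swap, cov_swap]
    exact n1.toD hc
  · rw [vec_swap]
    exact m2.aa.symm
  · rw [vec_swap, cov_swap]
    have h := r1.zeta (c := υ) hc.symm.cube
    rw [vec_smul, cov_smul, hc.symm.sq] at h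
    simpa only [hc.symm.mul, hc.mul, mul_one, mul_zero] using h
  · rw [vec_swap]
    have h := n2.symm
    have h' := (bq_aa H n1.1 h).smul (c := -υ) (neg_ne_zero.2 hc.symm.ne_zero)
    rw [vec_smul] at h'
    have f1 : -υ * (ω - 1) = υ - 1 := by grind
    have f2 : -υ * -ω = 1 := by grind
    rwa [f1, f2, mul_one] at h'
  · rw [vec_swap]
    exact r2.aa.symm

theorem PP_opp (F : Frame w ψ a a' (υ - ω)) (hM : BL S M w ψ) :
    PP S υ ω w ψ a (-a') M ≠ PP S ω υ w ψ a a' M := by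
  intro h0
  have F' : Frame w ψ a (-a') (ω - υ) := by
    have := F.neg'
    rwa [neg_sub] at this
  have e1 := hc.add
  have e2 := hc.mul
  obtain ⟨R, N, r1, r2, n1, n2, m1, m2⟩ := pp_path H hstd hc F hM
  obtain ⟨R', N', r1', r2', n1', n2', m1', m2'⟩ := pp_path H hstd hc.symm F' hM
  rw [vec_neg, neg_neg] at n2'
  rw [vec_neg, cov_neg] at r1'
  rw [vec_neg, cov_neg, neg_zero] at n1'
  rw [vec_neg, neg_zero, h0] at m2'
  rw [vec_neg] at r2'
  have r3' : AA S (vec w a a' 0 0 1) M R' := by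
    have h := r2'.aa.smul (c := -1) (by simp)
    rw [vec_smul] at h
    simpa only [mul_zero, neg_mul, one_mul, neg_neg, mul_one, neg_zero] using h
  have hRR : AA S (vec w a a' 0 0 1) R' R := r3'.symm.trans H r1'.1 hM.1 r1.1 r2.aa
  have hNN : AA S (vec w a a' 0 1 0) N N' := m2.aa.trans H n1.1 m1.1 n1'.1 m2'.aa.symm
  have hRq : Bq S (vec w a a' 0 0 1) R' R := bq_f H F r1' 0 0 1 (-1)
    (Or.inr (Or.inr one_ne_zero)) (by ring) (by ring) (by ring) (by grind) (by ring) (by ring)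
    (by grind) r1 hRR
  refine no_xbbb H n1.1 n1'.1 r1'.1 r1.1 hNN n2'.symm hRq n2 (vec_cross_ne F (Or.inl ?_))
    (vec_cross_ne F (Or.inl ?_)) (vec_cross_ne F (Or.inl ?_)) (vec_cross_ne F (Or.inl ?_))
    (ne_of_lab H n1' r1' (vec_cross_ne F (Or.inr (Or.inl ?_))))
    (ne_of_lab H r1' r1 (vec_cross_ne F (Or.inr (Or.inr ?_))))
    (ne_of_lab H r1 n1 (vec_cross_ne F (Or.inr (Or.inl ?_))))
  · simp
    exact hc.symm.ne_zero
  · simp
  · simp
  · simp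
    exact hc.ne_zero
  · simp
  · intro h; grind
  · simp

theorem PP_inj (F : Frame w ψ a a' (υ - ω)) (hM : BL S M w ψ) {M' : Ln} (hM' : BL S M' w ψ)
    (h : PP S ω υ w ψ a a' M = PP S ω υ w ψ a a' M') : M = M' := by
  rw [← PP_rev H hstd hc F hM, h, PP_rev H hstd hc F hM']

variable (h3 : Three S)
include h3

/-- `PP` is a 3-cycle -/
theorem PP_cyc (F : Frame w ψ a a' (υ - ω)) (hM : BL S M w ψ) :
    PP S ω υ w ψ a a' (PP S ω υ w ψ a a' M) ≠ M ∧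
    PP S ω υ w ψ a a' (PP S ω υ w ψ a a' (PP S ω υ w ψ a a' M)) = M ∧
    ∀ N, BL S N w ψ → N = M ∨ N = PP S ω υ w ψ a a' M ∨
      N = PP S ω υ w ψ a a' (PP S ω υ w ψ a a' M) := by
  obtain ⟨M₁, M₂, M₃, h12, h13, h23, hall⟩ := h3 w ψ F.dw
  have a1 := PP_mem H hstd hc F hM
  have a2 := PP_mem H hstd hc F a1
  have a3 := PP_mem H hstd hc F a2
  have b1 := PP_ne H hstd hc F hM
  have b2 := PP_ne H hstd hc F a1
  have b3 := PP_ne H hstd hc F a2
  have key : PP S ω υ w ψ a a' (PP S ω υ w ψ a a' M) ≠ M := by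
    intro h0
    obtain ⟨t, ht, t1, t2⟩ : ∃ t, BL S t w ψ ∧ t ≠ M ∧ t ≠ PP S ω υ w ψ a a' M := by
      have c0 := (hall _).1 hM
      have c1 := (hall _).1 a1
      have g1 := (hall M₁).2 (Or.inl rfl)
      have g2 := (hall M₂).2 (Or.inr (Or.inl rfl))
      have g3 := (hall M₃).2 (Or.inr (Or.inr rfl))
      rcases c0 with c0 | c0 | c0 <;> rcases c1 with c1 | c1 | c1
      · exact absurd (c1.trans c0.symm) b1
      · exact ⟨M₃, g3, by rw [c0]; exact h13.symm, by rw [c1]; exact h23.symm⟩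
      · exact ⟨M₂, g2, by rw [c0]; exact h12.symm, by rw [c1]; exact h23⟩
      · exact ⟨M₃, g3, by rw [c0]; exact h23.symm, by rw [c1]; exact h13.symm⟩
      · exact absurd (c1.trans c0.symm) b1
      · exact ⟨M₁, g1, by rw [c0]; exact h12, by rw [c1]; exact h13⟩
      · exact ⟨M₂, g2, by rw [c0]; exact h23, by rw [c1]; exact h12.symm⟩
      · exact ⟨M₁, g1, by rw [c0]; exact h13, by rw [c1]; exact h12⟩
      · exact absurd (c1.trans c0.symm) b1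
    have d1 := PP_mem H hstd hc F ht
    have d2 := PP_ne H hstd hc F ht
    have d3 : PP S ω υ w ψ a a' t ≠ M := fun h => t2 (PP_inj H hstd hc F ht a1 (h.trans h0.symm))
    have d4 : PP S ω υ w ψ a a' t ≠ PP S ω υ w ψ a a' M := fun h =>
      t1 (PP_inj H hstd hc F ht hM h)
    have c0 := (hall _).1 hM
    have c1 := (hall _).1 a1
    have c2 := (hall _).1 ht
    have c3 := (hall _).1 d1
    grind
  have all : ∀ N, BL S N w ψ → N = M ∨ N = PP S ω υ w ψ a a' M ∨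
      N = PP S ω υ w ψ a a' (PP S ω υ w ψ a a' M) := by
    intro N hN
    have c0 := (hall _).1 hM
    have c1 := (hall _).1 a1
    have c2 := (hall _).1 a2
    have c3 := (hall _).1 hN
    grind
  refine ⟨key, ?_, all⟩
  rcases all _ a3 with h | h | h
  · exact h
  · exact absurd (PP_inj H hstd hc F a2 hM h) key
  · exact absurd h b3

/-- rotation of the frame -/
theorem PP_W (F : Frame w ψ a a' (υ - ω)) (hM : BL S M w ψ) :
    PP S ω υ w ψ (-a') a M = PP S ω υ w ψ a a' M := by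
  have F' : Frame w ψ a (-a') (ω - υ) := by
    have := F.neg'
    rwa [neg_sub] at this
  have a1 := PP_mem H hstd hc F hM
  have b1 := PP_mem H hstd hc.symm F' a1
  obtain ⟨-, c2, c3⟩ := PP_cyc H hstd hc h3 F a1
  obtain ⟨-, d2, -⟩ := PP_cyc H hstd hc h3 F hM
  have e := PP_rev H hstd hc.symm F' a1
  rcases c3 _ b1 with h | h | h
  · exact absurd h (PP_ne H hstd hc.symm F' a1)
  · exact absurd h (PP_opp H hstd hc F a1)
  · rw [h, d2] at e
    exact e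

end B

end Pool.Agent.Lib.MP_6b0fe3_coP
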