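import Pool.Agent.Lib.MP_6b0fe3_coP.PenC

/-! MP_6b0fe3_co: transvections -/

namespace Pool.Agent.Lib.MP_6b0fe3_coP

open Matrix Pool.Agent.Lib.MP_6b0fe3_coR

section defs
variable {K : Type*} [Field K] {Pt Ln : Type*} {I : Pt → Ln → Prop}

/-- `M - A(a) - N` -/
noncomputable def N0 (S : Sub K I) (ω υ : K) (w ψ a : Fin 3 → K) (M : Ln) : Ln :=
  tr S a (w + υ • a) (ψ + ω • (w ⨯₃ a)) M

/-- `M - A(a') - R - B - N` -/
noncomputable def N1 (S : Sub K I) (ω υ : K) (w ψ a a' : Fin 3 → K) (M : Ln) : Ln :=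
  tr S ((ω - 1) • w + a - ω • a') (ω • w + a) (υ • ψ + w ⨯₃ a)
    (tr S a' (w + ω • a') (ψ + υ • (w ⨯₃ a')) M)

/-- `M - B(a') - R - A - N` -/
noncomputable def N2 (S : Sub K I) (ω υ : K) (w ψ a a' : Fin 3 → K) (M : Ln) : Ln :=
  tr S ((υ - 1) • w + ω • a + a') (υ • w + ω • a) (ω • ψ + υ • (w ⨯₃ a))
    (tr S a' (w - a') (ψ - w ⨯₃ a') M)

end defs

section L
variable {K : Type*} [Field K] {w ψ a a' : Fin 3 → K}
variable {Pt Ln : Type*} {I : Pt → Ln → Prop} (S : Sub K I) (ω υ : K) (M : Ln)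

theorem N0_vec (a' : Fin 3 → K) : N0 S ω υ w ψ a M = tr S (vec w a a' 0 1 0) (vec w a a' 1 υ 0)
    (cov w ψ a a' 1 ω 0) M := by
  rw [v_a, v_D, c_D]
  rfl

theorem N1_vec : N1 S ω υ w ψ a a' M =
    tr S (vec w a a' (ω - 1) 1 (-ω)) (vec w a a' ω 1 0) (cov w ψ a a' υ 1 0)
      (tr S (vec w a a' 0 0 1) (vec w a a' 1 0 ω) (cov w ψ a a' 1 0 υ) M) := by
  rw [v_a', v_R, c_R, v_N, c_N, v_z]
  rfl

theorem N2_vec : N2 S ω υ w ψ a a' M =
    tr S (vec w a a' (υ - 1) ω 1) (vec w a a' υ ω 0) (cov w ψ a a' ω υ 0)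
      (tr S (vec w a a' 0 0 1) (vec w a a' 1 0 (-1)) (cov w ψ a a' 1 0 (-1)) M) := by
  have e1 : vec w a a' (υ - 1) ω 1 = (υ - 1) • w + ω • a + a' := by unfold vec; module
  have e2 : vec w a a' υ ω 0 = υ • w + ω • a := by unfold vec; module
  have e3 : cov w ψ a a' ω υ 0 = ω • ψ + υ • (w ⨯₃ a) := by unfold cov; module
  have e4 : vec w a a' 1 0 (-1) = w - a' := by unfold vec; module
  have e5 : cov w ψ a a' 1 0 (-1) = ψ - w ⨯₃ a' := by unfold cov; module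
  rw [e1, e2, e3, e4, e5, v_a']
  rfl

end L

section B
variable {K : Type*} [Field K] [Fintype K] {Pt Ln : Type*} {I : Pt → Ln → Prop}
variable (H : Hex I (Fintype.card K)) {S : Sub K I}
variable (hstd : ∀ M, BLine S M → ∃ w ψ, Std S M w ψ)
variable {ω υ : K} (hc : Cub ω υ)
variable {w ψ a a' : Fin 3 → K} {M : Ln}

omit [Fintype K] in
theorem BL.toD2 {N : Ln} (hc : Cub ω υ) (hN : BL S N (vec w a a' υ ω 0) (cov w ψ a a' ω υ 0)) :
    BL S N (vec w a a' 1 υ 0) (cov w ψ a a' 1 ω 0) := by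
  have h := hN.zeta (c := ω) hc.cube
  rw [vec_smul, cov_smul, hc.sq] at h
  have e1 : ω * ω = υ := by rw [← sq, hc.sq]
  have e2 : υ * υ = ω := by rw [← sq, hc.symm.sq]
  simpa only [e1, e2, hc.mul, hc.symm.mul, mul_zero] using h

include H hstd hc

theorem n0_path (F : Frame w ψ a a' (υ - ω)) (hM : BL S M w ψ) :
    BL S (N0 S ω υ w ψ a M) (vec w a a' 1 υ 0) (cov w ψ a a' 1 ω 0) ∧
    Aq S (vec w a a' 0 1 0) M (N0 S ω υ w ψ a M) := by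
  have hM' : BL S M (vec w a a' 1 0 0) (cov w ψ a a' 1 0 0) := by rwa [v_w, c_w]
  have h := stepf H hstd F hM' 0 1 0 υ ω (Or.inr (Or.inl one_ne_zero)) (by ring)
    (X := 1) (Y := υ) (Z := 0) (X' := 1) (Y' := ω) (Z' := 0)
    (by ring) (by ring) (by ring) (by ring) (by ring) (by ring)
  rw [N0_vec S ω υ M a']
  exact ⟨h.1, h.2.2.2 hc.ne.symm⟩

theorem n1_path (F : Frame w ψ a a' (υ - ω)) (hM : BL S M w ψ) : ∃ R,
    BL S R (vec w a a' 1 0 ω) (cov w ψ a a' 1 0 υ) ∧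
    Aq S (vec w a a' 0 0 1) M R ∧
    BL S (N1 S ω υ w ψ a a' M) (vec w a a' ω 1 0) (cov w ψ a a' υ 1 0) ∧
    Bq S (vec w a a' (ω - 1) 1 (-ω)) R (N1 S ω υ w ψ a a' M) := by
  obtain ⟨r1, r2⟩ := st1 H hstd hc F hM
  obtain ⟨n1, n2⟩ := st2 H hstd hc F r1
  rw [N1_vec]
  exact ⟨_, r1, r2, n1, n2⟩

theorem n2_path (F : Frame w ψ a a' (υ - ω)) (hM : BL S M w ψ) : ∃ R,
    BL S R (vec w a a' 1 0 (-1)) (cov w ψ a a' 1 0 (-1)) ∧
    Bq S (vec w a a' 0 0 1) M R ∧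
    BL S (N2 S ω υ w ψ a a' M) (vec w a a' υ ω 0) (cov w ψ a a' ω υ 0) ∧
    Aq S (vec w a a' (υ - 1) ω 1) R (N2 S ω υ w ψ a a' M) := by
  have hM' : BL S M (vec w a a' 1 0 0) (cov w ψ a a' 1 0 0) := by rwa [v_w, c_w]
  have h1 := hc.add
  have h2 := hc.mul
  have h := stepf H hstd F hM' 0 0 1 (-1) (-1) (Or.inr (Or.inr one_ne_zero)) (by ring)
    (X := 1) (Y := 0) (Z := -1) (X' := 1) (Y' := 0) (Z' := -1)
    (by ring) (by ring) (by ring) (by ring) (by ring) (by ring)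
  have h' := stepf H hstd F h.1 (υ - 1) ω 1 1 ω (Or.inr (Or.inr one_ne_zero)) (by grind)
    (X := υ) (Y := ω) (Z := 0) (X' := ω) (Y' := υ) (Z' := 0)
    (by ring) (by ring) (by ring) (by grind) (by grind) (by grind)
  rw [N2_vec]
  exact ⟨_, h.1, h.2.2.1 rfl, h'.1, h'.2.2.2 hc.ne_one.symm⟩

theorem N0_mem (F : Frame w ψ a a' (υ - ω)) (hM : BL S M w ψ) :
    BL S (N0 S ω υ w ψ a M) (w + υ • a) (ψ + ω • (w ⨯₃ a)) := by
  have h := (n0_path H hstd hc F hM).1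
  rwa [v_D, c_D] at h

theorem N1_mem (F : Frame w ψ a a' (υ - ω)) (hM : BL S M w ψ) :
    BL S (N1 S ω υ w ψ a a' M) (w + υ • a) (ψ + ω • (w ⨯₃ a)) := by
  obtain ⟨R, -, -, h, -⟩ := n1_path H hstd hc F hM
  have h := h.toD hc
  rwa [v_D, c_D] at h

theorem N2_mem (F : Frame w ψ a a' (υ - ω)) (hM : BL S M w ψ) :
    BL S (N2 S ω υ w ψ a a' M) (w + υ • a) (ψ + ω • (w ⨯₃ a)) := by
  obtain ⟨R, -, -, h, -⟩ := n2_path H hstd hc F hM
  have h := h.toD2 hc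
  rwa [v_D, c_D] at h

/-- `N0` of `PP` is `N1` -/
theorem N0_PP (F : Frame w ψ a a' (υ - ω)) (hM : BL S M w ψ) :
    N0 S ω υ w ψ a (PP S ω υ w ψ a a' M) = N1 S ω υ w ψ a a' M := by
  have hM1 := PP_mem H hstd hc F hM
  have hM' : BL S (PP S ω υ w ψ a a' M) (vec w a a' 1 0 0) (cov w ψ a a' 1 0 0) := by
    rwa [v_w, c_w]
  obtain ⟨r1, r2⟩ := st1 H hstd hc F hM
  obtain ⟨n1, n2⟩ := st2 H hstd hc F r1
  obtain ⟨m1, m2⟩ := st3 H hstd hc F (n1.toD hc)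
  rw [N0_vec S ω υ _ a', N1_vec]
  refine stepf_eq H hstd F hM' 0 1 0 υ ω (Or.inr (Or.inl one_ne_zero)) (by ring)
    (by ring) (by ring) (by ring) (by ring) (by ring) (by ring) (n1.toD hc) ?_
  rw [PP_vec]
  exact m2.aa.symm

theorem N1_ne_N0 (F : Frame w ψ a a' (υ - ω)) (hM : BL S M w ψ) :
    N1 S ω υ w ψ a a' M ≠ N0 S ω υ w ψ a M := by
  intro h0
  obtain ⟨R, r1, r2, n1, n2⟩ := n1_path H hstd hc F hM
  obtain ⟨-, m2⟩ := n0_path H hstd hc F hM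
  rw [← h0] at m2
  refine no_aab H n1.1 hM.1 r1.1 m2.symm r2 n2 (vec_cross_ne F (Or.inl ?_))
    (vec_cross_ne F (Or.inl ?_)) (vec_cross_ne F (Or.inl ?_)) ?_
  · simp
  · simp
  · simp
    exact hc.ne_zero
  · exact ne_of_lab H r1 n1 (vec_cross_ne F (Or.inr (Or.inl (by simp))))

theorem N2_ne_N0 (F : Frame w ψ a a' (υ - ω)) (hM : BL S M w ψ) :
    N2 S ω υ w ψ a a' M ≠ N0 S ω υ w ψ a M := by
  intro h0
  obtain ⟨R, r1, r2, n1, n2⟩ := n2_path H hstd hc F hM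
  obtain ⟨-, m2⟩ := n0_path H hstd hc F hM
  rw [← h0] at m2
  have hM' : BL S M (vec w a a' 1 0 0) (cov w ψ a a' 1 0 0) := by rwa [v_w, c_w]
  refine no_aab H hM.1 n1.1 r1.1 m2 n2.symm r2.symm (vec_cross_ne F (Or.inl ?_))
    (vec_cross_ne F (Or.inl ?_)) (vec_cross_ne F (Or.inl ?_)) ?_
  · simp
  · simp
    exact hc.ne_zero
  · simp
  · exact ne_of_lab H r1 hM' (vec_cross_ne F (Or.inr (Or.inr (by simp))))

theorem N1_ne_N2 (F : Frame w ψ a a' (υ - ω)) (hM : BL S M w ψ) :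
    N1 S ω υ w ψ a a' M ≠ N2 S ω υ w ψ a a' M := by
  intro h0
  have h1 := hc.add
  have h2 := hc.mul
  obtain ⟨R, r1, r2, n1, n2⟩ := n1_path H hstd hc F hM
  obtain ⟨R', r1', r2', n1', n2'⟩ := n2_path H hstd hc F hM
  rw [← h0] at n2' n1'
  have hRR : AA S (vec w a a' 0 0 1) R R' :=
    r2.aa.symm.trans H r1.1 hM.1 r1'.1 (bq_aa H hM.1 r2')
  have hRq : Aq S (vec w a a' 0 0 1) R R' := aq_f H F r1 0 0 1 υ ω
    (Or.inr (Or.inr one_ne_zero)) (by ring) (by ring) (by ring) (by grind) (by ring) (by ring)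
    (by grind) hc.ne.symm r1' hRR
  refine no_aab H r1.1 r1'.1 n1.1 hRq n2' n2.symm (vec_cross_ne F (Or.inl ?_))
    (vec_cross_ne F (Or.inl ?_)) (vec_cross_ne F (Or.inl ?_)) ?_
  · simp
    exact hc.ne_zero
  · intro h; apply hc.ne_one; grind
  · simp
  · exact ne_of_lab H n1 r1 (vec_cross_ne F (Or.inr (Or.inl (by simp))))

theorem N1_ne_N2' (F : Frame w ψ a a' (υ - ω)) (hM : BL S M w ψ) :
    N1 S ω υ w ψ a a' M ≠ N2 S ω υ w ψ a (a' + a) M := by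
  intro h0
  have h1 := hc.add
  have h2 := hc.mul
  obtain ⟨R, r1, r2, n1, n2⟩ := n1_path H hstd hc F hM
  obtain ⟨R', r1', r2', n1', n2'⟩ := n2_path H hstd hc F.tv hM
  rw [← h0] at n2' n1'
  rw [vec_tv, cov_tv] at r1' n1'
  rw [vec_tv] at r2' n2'
  have hM' : BL S M (vec w a a' 1 0 0) (cov w ψ a a' 1 0 0) := by rwa [v_w, c_w]
  have g := r1.zeta (c := ω) hc.cube
  rw [vec_smul, cov_smul, hc.sq] at g
  have f1 : ω * ω = υ := by rw [← sq, hc.sq]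
  have f2 : υ * υ = ω := by rw [← sq, hc.symm.sq]
  simp only [f1, f2, mul_one, mul_zero] at g
  have k := n2'.aa.smul (c := -ω) (neg_ne_zero.2 hc.ne_zero)
  rw [vec_smul] at k
  have f3 : -ω * (υ - 1) = ω - 1 := by grind
  have f4 : -ω * (ω + 1) = 1 := by grind
  rw [f3, f4, mul_one] at k
  have hRR : AA S (vec w a a' (ω - 1) 1 (-ω)) R R' :=
    (bq_aa H r1.1 n2).trans H r1.1 n1.1 r1'.1 k.symm
  have hRq : Aq S (vec w a a' (ω - 1) 1 (-ω)) R R' := aq_f H F g (ω - 1) 1 (-ω) (-1) (-υ)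
    (Or.inr (Or.inl one_ne_zero)) (by grind) (by ring) (by ring) (by grind) (by grind) (by grind)
    (by grind) (fun h => hc.symm.ne_one (neg_injective h).symm) r1' hRR
  refine no_aab H hM.1 r1.1 r1'.1 r2 hRq r2'.symm (vec_cross_ne F (Or.inl ?_))
    (vec_cross_ne F (Or.inl ?_)) (vec_cross_ne F (Or.inl ?_)) ?_
  · simp
  · intro h; apply hc.symm.ne_zero; grind
  · simp
  · exact ne_of_lab H r1' hM' (vec_cross_ne F (Or.inr (Or.inl (by simp))))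

variable (h3 : Three S)
include h3

/-- transvection of the frame -/
theorem PP_T (F : Frame w ψ a a' (υ - ω)) (hM : BL S M w ψ) :
    PP S ω υ w ψ a (a' + a) M = PP S ω υ w ψ a a' M := by
  have m0 := N0_mem H hstd hc F hM
  have m1 := N1_mem H hstd hc F hM
  have m2 := N1_mem H hstd hc F.tv hM
  have m3 := N2_mem H hstd hc F.tv hM
  have e1 := N1_ne_N0 H hstd hc F hM
  have e2 := N1_ne_N0 H hstd hc F.tv hM
  have e3 := N2_ne_N0 H hstd hc F.tv hM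
  have e4 := N1_ne_N2 H hstd hc F.tv hM
  have e5 := N1_ne_N2' H hstd hc F hM
  have key : N1 S ω υ w ψ a (a' + a) M = N1 S ω υ w ψ a a' M := by
    obtain ⟨M₁, M₂, M₃, h12, h13, h23, hall⟩ := h3 _ _ m0.2.1
    have c0 := (hall _).1 m0
    have c1 := (hall _).1 m1
    have c2 := (hall _).1 m2
    have c3 := (hall _).1 m3
    grind
  have g1 : PP S ω υ w ψ a (a' + a) M = tr S a w ψ (N1 S ω υ w ψ a (a' + a) M) := rfl
  have g2 : PP S ω υ w ψ a a' M = tr S a w ψ (N1 S ω υ w ψ a a' M) := rfl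
  rw [g1, g2, key]

end B

end Pool.Agent.Lib.MP_6b0fe3_coP
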