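import Pool.Agent.Lib.MP_6b0fe3_coP.DefC

/-! MP_6b0fe3_co, prime fields: transport along A-lines -/

namespace Pool.Agent.Lib.MP_6b0fe3_coP

open Matrix Pool.Agent.Lib.MP_6b0fe3_coR Pool.Agent.Lib.MP_6b0fe3_coR.CountM

section A
variable {K : Type*} [Field K] {Pt Ln : Type*} {I : Pt → Ln → Prop} {S : Sub K I}

theorem BL.zeta {M : Ln} {w ψ : Fin 3 → K} (h : BL S M w ψ) {c : K} (hc : c ^ 3 = 1) :
    BL S M (c • w) (c ^ 2 • ψ) := by
  have hc0 : c ≠ 0 := by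
    rintro rfl
    simp at hc
  refine ⟨h.1, ?_, ?_⟩
  · rw [smul_dotProduct, dotProduct_smul, h.2.1, smul_eq_mul, smul_eq_mul, mul_one]
    rw [← hc]; ring
  · intro v hv hψ
    have hψ' : ψ ⬝ᵥ v = 0 := by
      rw [smul_dotProduct, smul_eq_zero] at hψ
      exact hψ.resolve_left (pow_ne_zero 2 hc0)
    obtain ⟨x, hx, ho, hn⟩ := h.2.2 v hv hψ'
    have hr : Rep S x v (c • w) (c ^ 2 • ψ) := rep_zeta S ⟨h.2.1, hψ', ho, hn⟩ hc
    exact ⟨x, hx, hr.2.2.1, hr.2.2.2⟩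

theorem AA.symm {v : Fin 3 → K} {M N : Ln} (h : AA S v M N) : AA S v N M := by
  obtain ⟨k, t, x, y, ht, hx, hy, hxM, hyN⟩ := h
  exact ⟨k, t, y, x, ht, hy, hx, hyN, hxM⟩

theorem AA.smul {v : Fin 3 → K} {M N : Ln} (h : AA S v M N) {c : K} (hc : c ≠ 0) :
    AA S (c • v) M N := by
  obtain ⟨k, t, x, y, ht, hx, hy, hxM, hyN⟩ := h
  obtain ⟨hf, hI, h1, h2⟩ := ht
  have p := pt_smul' S hf hc (one_ne_zero (α := K))
  rw [one_smul] at p
  refine ⟨k, t, x, y, ⟨p.1, by rw [p.2]; exact hI, ?_, h2⟩, hx, hy, hxM, hyN⟩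
  rw [(S.lp_eq p.1.1 hf.1).2 (cross_smul_left c v)]
  exact h1

/-- transport in the direction `0` is trivial -/
theorem tr_zero {w ψ : Fin 3 → K} {M : Ln} : tr S 0 w ψ M = M := by
  unfold tr
  rw [dif_neg]
  rintro ⟨N, -, k, t, x, y, ht, -⟩
  exact ht.1.1 rfl

theorem AA_smul_eq {v : Fin 3 → K} {M : Ln} {c : K} (hc : c ≠ 0) :
    AA S (c • v) M = AA S v M := by
  funext N
  apply propext
  constructor
  · intro h
    have := h.smul (inv_ne_zero hc)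
    rwa [smul_smul, inv_mul_cancel₀ hc, one_smul] at this
  · intro h
    exact h.smul hc

theorem BL_zeta_iff {M : Ln} {w ψ : Fin 3 → K} {c : K} (hc : c ^ 3 = 1) :
    BL S M (c • w) (c ^ 2 • ψ) ↔ BL S M w ψ := by
  constructor
  · intro h
    have h2 := h.zeta (c := c ^ 2) (by rw [← pow_mul, mul_comm, pow_mul, hc, one_pow])
    rw [smul_smul, smul_smul] at h2
    have e1 : c ^ 2 * c = 1 := by rw [← hc]; ring
    have e2 : (c ^ 2) ^ 2 * c ^ 2 = 1 := by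
      have : (c ^ 2) ^ 2 * c ^ 2 = (c ^ 3) ^ 2 := by ring
      rw [this, hc, one_pow]
    rwa [e1, e2, one_smul, one_smul] at h2
  · intro h
    exact h.zeta hc

theorem tr_smul {v w ψ : Fin 3 → K} {M : Ln} {c : K} (hc : c ≠ 0) :
    tr S (c • v) w ψ M = tr S v w ψ M := by
  unfold tr
  rw [AA_smul_eq hc]

theorem tr_zeta {v w ψ : Fin 3 → K} {M : Ln} {c : K} (hc : c ^ 3 = 1) :
    tr S v (c • w) (c ^ 2 • ψ) M = tr S v w ψ M := by
  have h : (fun N => BL S N (c • w) (c ^ 2 • ψ)) = fun N => BL S N w ψ := by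
    funext N
    exact propext (BL_zeta_iff hc)
  have h' : ∀ P Q : Ln → Prop, P = Q →
      (open Classical in if h : ∃ N, P N ∧ AA S v M N then h.choose else M) =
        (open Classical in if h : ∃ N, Q N ∧ AA S v M N then h.choose else M) := by
    rintro P Q rfl
    rfl
  exact h' _ _ h

end A

section B
variable {K : Type*} [Field K] [Fintype K] {Pt Ln : Type*} {I : Pt → Ln → Prop}
variable (H : Hex I (Fintype.card K)) {S : Sub K I}
include H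

/-- the A-line over `v` through a point of a B-line is determined by `v` -/
theorem aline_eq {N : Ln} (hN : BLine S N) {v k k' : Fin 3 → K} {t t' : Ln} {y y' : Pt}
    (ht : ALine S v k t) (ht' : ALine S v k' t') (hy : I y t) (hy' : I y' t') (hyN : I y N)
    (hyN' : I y' N) : t = t' := by
  have ho := out_of_bline H S hN hyN
  have ho' := out_of_bline H S hN hyN'
  have h1 := (out_of_aline H S ht hy (ho v k ht.1)).2
  have h2 := (out_of_aline H S ht' hy' (ho' v k' ht'.1)).2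
  have e := eq_of_over H S hN hyN hyN' h1 h2
  subst e
  have h3 := (over_unique H S ho h1 h2).2
  have h4 : S.pt v k = S.pt v k' := pt_eq_of_cross S ht.1 ht'.1 h3
  have h5 : I (S.pt v k) t' := by
    rw [h4]
    exact ht'.2.1
  exact H.uniq hy ht.2.1 hy' h5 (ho v k ht.1)

theorem AA.trans {v : Fin 3 → K} {M N P : Ln} (_hM : BLine S M) (hN : BLine S N) (_hP : BLine S P)
    (h : AA S v M N) (h' : AA S v N P) : AA S v M P := by
  obtain ⟨k, t, x, y, ht, hx, hy, hxM, hyN⟩ := h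
  obtain ⟨k', t', y', z, ht', hy', hz, hyN', hzP⟩ := h'
  have e := aline_eq H hN ht ht' hy hy' hyN hyN'
  subst e
  exact ⟨k, t, x, z, ht, hx, hz, hxM, hzP⟩

/-- the labels of one B-line differ by a cube root of unity -/
theorem BL.lab {M : Ln} {w ψ w' ψ' : Fin 3 → K} (h : BL S M w ψ) (h' : BL S M w' ψ') :
    ∃ c : K, c ^ 3 = 1 ∧ w' = c • w ∧ ψ' = c ^ 2 • ψ := by
  have hM := h.1
  have key : ∀ v, v ≠ 0 → ψ ⬝ᵥ v = 0 → ∃ c s : K, c ^ 3 = 1 ∧ w' = c • w + s • v ∧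
      ψ' = c ^ 2 • ψ + (c * s) • (w ⨯₃ v) := by
    intro v hv hψ
    obtain ⟨x, hx, ho, -⟩ := h.2.2 v hv hψ
    exact rep_unique3 H S (out_of_bline H S hM hx) (rep_of_std H S hM h.2 hx ho)
      (rep_of_std H S hM h'.2 hx ho)
  obtain ⟨v, r, hv, hr, hvr⟩ := exists_ker (ne_of_dot h.2.1).1
  have hv0 : v ≠ 0 := by
    rintro rfl
    simp at hvr
  have hr0 : r ≠ 0 := by
    rintro rfl
    simp at hvr
  obtain ⟨c, s, hc, hs, hs'⟩ := key v hv0 hv
  obtain ⟨c', s', hc', hs1, -⟩ := key r hr0 hr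
  have e1 : ψ ⬝ᵥ w' = c := by
    rw [hs, dotProduct_add, dotProduct_smul, dotProduct_smul, h.2.1, hv, smul_eq_mul,
      smul_eq_mul, mul_one, mul_zero, add_zero]
  have e2 : ψ ⬝ᵥ w' = c' := by
    rw [hs1, dotProduct_add, dotProduct_smul, dotProduct_smul, h.2.1, hr, smul_eq_mul,
      smul_eq_mul, mul_one, mul_zero, add_zero]
  have e3 : c = c' := e1.symm.trans e2
  subst e3
  have h4 : s • v = s' • r := add_left_cancel (hs.symm.trans hs1)
  have h5 : s = 0 := by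
    have := congrArg (fun u => u ⨯₃ r) h4
    simp only [smul_cross', cross_self, smul_zero] at this
    exact (smul_eq_zero.1 this).resolve_right hvr
  rw [h5, zero_smul, add_zero] at hs
  rw [h5, mul_zero, zero_smul, add_zero] at hs'
  exact ⟨c, hc, hs, hs'⟩

theorem aa_unique {M N N' : Ln} {v φ w ψ : Fin 3 → K} (hM : BLine S M) (hN : BL S N w ψ)
    (hN' : BL S N' w ψ) (_hA : InA v φ w ψ) (h : AA S v M N) (h' : AA S v M N') : N = N' := by
  obtain ⟨k, t, x, y, ht, hx, hy, hxM, hyN⟩ := h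
  obtain ⟨k', t', x', y', ht', hx', hy', hxM', hyN'⟩ := h'
  have e := aline_eq H hM ht ht' hx hx' hxM hxM'
  subst e
  exact bline_unique H S ht hN.1 hN'.1 hN.2.bas hN'.2.bas hyN hy hyN' hy'

variable (hstd : ∀ M, BLine S M → ∃ w ψ, Std S M w ψ)
include hstd

theorem aa_exists {M : Ln} {v φ w ψ w' ψ' : Fin 3 → K} (hM : BL S M w ψ) (hA : InA v φ w ψ)
    (hA' : InA v φ w' ψ') : ∃ N, BL S N w' ψ' ∧ AA S v M N := by
  obtain ⟨x, hxM, hxo, -⟩ := hM.2.2 v hA.v0 hA.dv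
  have hox := out_of_bline H S hM.1 hxM
  have hrep := rep_of_std H S hM.1 hM.2 hxM hxo
  rw [hA.cr] at hxo
  obtain ⟨t, ht, hxt⟩ := aline_exists H S hox hxo
  obtain ⟨N, y, hN, hb, hyN, hyt, hoy, hyo⟩ := exists_bline H S hstd ht hA'.dw hA'.dv (by
    rw [hA'.cr, cross_self])
  refine ⟨N, ⟨hN, ?_⟩, φ, t, x, y, ht, hxt, hyt, hxM, hyN⟩
  obtain ⟨w1, ψ1, hs⟩ := hstd N hN
  have hrep1 := rep_of_std H S hN hs hyN hyo
  obtain ⟨c, hc, hcr⟩ := rep_aline3 H S ht hxt hyt hox hoy hrep hrep1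
  -- compare the two bases of `N`
  obtain ⟨r, hr, hvr⟩ := exists_ker' (ne_of_dot hA'.dw).1 hA'.v0
  have hr0 : r ≠ 0 := by
    rintro rfl
    simp at hvr
  obtain ⟨z, hzN, hzo⟩ := hb.2 r hr0 hr
  have hb1 := base_of_std H S hN hs hyN hyo
  have hb2 := base_of_std H S hN hs hzN hzo
  have hb3 : (w' ⨯₃ v) ⨯₃ (w1 ⨯₃ v) = 0 := by
    rw [hA'.cr]
    exact hb1.2
  obtain ⟨a, ha0, ha, ha'⟩ := prop_pair hA'.dw hA'.dv hr hvr hs.1 hb1.1 hb2.1 hb3 hb2.2
  have hφ : φ ≠ 0 := ht.1.2.1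
  have hac : a = c := by
    rw [ha, smul_cross', hA'.cr, hA.cr] at hcr
    exact smul_left_injective K hφ hcr
  subst hac
  have h5 : BL S N (a • w') (a ^ 2 • ψ') := by
    refine ⟨hN, ?_⟩
    have e : a⁻¹ = a ^ 2 := by
      apply inv_eq_of_mul_eq_one_right
      rw [← hc]
      ring
    rw [← e, ← ha, ← ha']
    exact hs
  exact ((BL_zeta_iff hc).1 h5).2

theorem tr_spec {M : Ln} {v φ w ψ w' ψ' : Fin 3 → K} (hM : BL S M w ψ) (hA : InA v φ w ψ)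
    (hA' : InA v φ w' ψ') : BL S (tr S v w' ψ' M) w' ψ' ∧ AA S v M (tr S v w' ψ' M) := by
  have h := aa_exists H hstd hM hA hA'
  unfold tr
  rw [dif_pos h]
  exact h.choose_spec

theorem tr_mem {M : Ln} {v φ w ψ w' ψ' : Fin 3 → K} (hM : BL S M w ψ) (hA : InA v φ w ψ)
    (hA' : InA v φ w' ψ') : BL S (tr S v w' ψ' M) w' ψ' :=
  (tr_spec H hstd hM hA hA').1

theorem tr_aa {M : Ln} {v φ w ψ w' ψ' : Fin 3 → K} (hM : BL S M w ψ) (hA : InA v φ w ψ)
    (hA' : InA v φ w' ψ') : AA S v M (tr S v w' ψ' M) :=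
  (tr_spec H hstd hM hA hA').2

theorem tr_eq {M N : Ln} {v φ w ψ w' ψ' : Fin 3 → K} (hM : BL S M w ψ) (hA : InA v φ w ψ)
    (hA' : InA v φ w' ψ') (hN : BL S N w' ψ') (h : AA S v M N) : tr S v w' ψ' M = N :=
  aa_unique H hM.1 (tr_mem H hstd hM hA hA') hN hA' (tr_aa H hstd hM hA hA') h

theorem tr_self {M : Ln} {v φ w ψ : Fin 3 → K} (hM : BL S M w ψ) (hA : InA v φ w ψ) :
    tr S v w ψ M = M := by
  apply tr_eq H hstd hM hA hA hM
  obtain ⟨x, hxM, hxo, -⟩ := hM.2.2 v hA.v0 hA.dv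
  obtain ⟨t, ht, hxt⟩ := aline_exists H S (out_of_bline H S hM.1 hxM) hxo
  exact ⟨_, t, x, x, ht, hxt, hxt, hxM, hxM⟩

theorem tr_tr {M : Ln} {v φ w ψ w' ψ' w'' ψ'' : Fin 3 → K} (hM : BL S M w ψ) (hA : InA v φ w ψ)
    (hA' : InA v φ w' ψ') (hA'' : InA v φ w'' ψ'') :
    tr S v w'' ψ'' (tr S v w' ψ' M) = tr S v w'' ψ'' M := by
  have h1 := tr_spec H hstd hM hA hA'
  have h2 := tr_spec H hstd h1.1 hA' hA''
  symm
  exact tr_eq H hstd hM hA hA'' h2.1 (AA.trans H hM.1 h1.1.1 h2.1.1 h1.2 h2.2)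

theorem tr_inj {M M' : Ln} {v φ w ψ w' ψ' : Fin 3 → K} (hM : BL S M w ψ) (hM' : BL S M' w ψ)
    (hA : InA v φ w ψ) (hA' : InA v φ w' ψ') (h : tr S v w' ψ' M = tr S v w' ψ' M') :
    M = M' := by
  have h1 := tr_tr H hstd hM hA hA' hA
  have h2 := tr_tr H hstd hM' hA hA' hA
  rw [tr_self H hstd hM hA] at h1
  rw [tr_self H hstd hM' hA] at h2
  rw [← h1, ← h2, h]

end B

end Pool.Agent.Lib.MP_6b0fe3_coP
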